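import Pool.Agent.H38.HE.Defs

/-!
[H38 HE BTWO] Two free pairs of cells (helper95).

`good_nd`: the quadratic relation for two pairs of cells, not degenerate. `b2`: few good values with given values on the
other thirteen cells.
-/

set_option autoImplicit false

open Finset

namespace H38.HE

open H38.HC H38.HD

theorem good_nd {z : V → ℕ} (h : Good z) {v1 v2 : V} (g : v2 ≠ v1) (g' : v2 ≠ comp v1)
    (ρ : V → ℕ) (hρ : ρ = rest13 v1 v2 z) :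
    (z v1 : ℤ) ^ 2 * (cA v1 v2 ρ * (z v2 : ℤ) ^ 2 + cB v1 v2 ρ * (z (comp v2) : ℤ) ^ 2) +
      (z (comp v1) : ℤ) ^ 2 * (cC v1 v2 ρ * (z v2 : ℤ) ^ 2 + cD v1 v2 ρ * (z (comp v2) : ℤ) ^ 2)
      = 0 ∧ cA v1 v2 ρ * cD v1 v2 ρ - cB v1 v2 ρ * cC v1 v2 ρ ≠ 0 ∧
    ¬ (cA v1 v2 ρ = 0 ∧ cD v1 v2 ρ = 0) ∧ ¬ (cB v1 v2 ρ = 0 ∧ cC v1 v2 ρ = 0) := by
  obtain ⟨s1, s2⟩ := sg_exists g g'
  obtain ⟨α, hα⟩ : ∃ α : Fin 4 → ℤ, α = fun j => (P2 v1 v2 z j : ℤ) ^ 2 := ⟨_, rfl⟩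
  obtain ⟨β, hβ⟩ : ∃ β : Fin 4 → ℤ, β = fun j => (Q2 v1 v2 z j : ℤ) ^ 2 := ⟨_, rfl⟩
  obtain ⟨T, hT⟩ : ∃ T : Fin 4 → ℤ, T = fun j => (S z j : ℤ) ^ 2 + (E z j : ℤ) ^ 2 := ⟨_, rfl⟩
  obtain ⟨R, hR⟩ : ∃ R : ℤ, R = ((∏ u, rest2 v1 v2 z u : ℕ) : ℤ) ^ 2 := ⟨_, rfl⟩
  obtain ⟨a, ha⟩ : ∃ a : ℤ, a = (z v1 : ℤ) := ⟨_, rfl⟩
  obtain ⟨b, hb⟩ : ∃ b : ℤ, b = (z (comp v1) : ℤ) := ⟨_, rfl⟩
  obtain ⟨w, hw⟩ : ∃ w : ℤ, w = (z v2 : ℤ) := ⟨_, rfl⟩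
  obtain ⟨y, hy⟩ : ∃ y : ℤ, y = (z (comp v2) : ℤ) := ⟨_, rfl⟩
  have a0 : 0 < a := by rw [ha]; exact_mod_cast h.1 _
  have b0 : 0 < b := by rw [hb]; exact_mod_cast h.1 _
  have w0 : 0 < w := by rw [hw]; exact_mod_cast h.1 _
  have y0 : 0 < y := by rw [hy]; exact_mod_cast h.1 _
  have hαpos : ∀ j, 0 < α j := fun j => by
    rw [hα]
    have h0 : (0 : ℤ) < P2 v1 v2 z j := by exact_mod_cast P2_pos z h.1 v1 v2 j
    exact pow_pos h0 2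
  have hβpos : ∀ j, 0 < β j := fun j => by
    rw [hβ]
    have h0 : (0 : ℤ) < Q2 v1 v2 z j := by exact_mod_cast Q2_pos z h.1 v1 v2 j
    exact pow_pos h0 2
  have hab : ∀ j, α j * β j = R := fun j => by
    have h0 : (P2 v1 v2 z j : ℤ) * Q2 v1 v2 z j = ((∏ u, rest2 v1 v2 z u : ℕ) : ℤ) := by
      exact_mod_cast P2Q2 v1 v2 z j
    rw [hα, hβ, hR, ← h0]
    exact (mul_pow _ _ 2).symm
  have hTj : ∀ j, T j = if sg v1 v2 j = true then a ^ 2 * w ^ 2 * α j + b ^ 2 * y ^ 2 * β j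
      else a ^ 2 * y ^ 2 * α j + b ^ 2 * w ^ 2 * β j := fun j => by
    have h0 := SE_sq2 z g g' j
    have h1 : T j = ((S z j ^ 2 + E z j ^ 2 : ℕ) : ℤ) := by rw [hT]; push_cast; rfl
    rw [h1, h0, hα, hβ, ha, hb, hw, hy]
    by_cases hs : v2 j = v1 j
    · have hs' : sg v1 v2 j = true := by simp [sg, hs]
      rw [if_pos hs, if_pos hs']
      push_cast
      rfl
    · have hs' : ¬ sg v1 v2 j = true := by simp [sg, hs]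
      rw [if_neg hs, if_neg hs']
      push_cast
      rfl
  have hrel : T 0 + T 3 = T 1 + T 2 := by
    have h0 := h.2.2.1
    rw [hT]
    beta_reduce
    exact_mod_cast h0
  have n1 : T 0 ≠ T 1 := by
    have h0 := h.2.2.2.1
    rw [hT]
    beta_reduce
    exact_mod_cast h0
  have n2 : T 0 ≠ T 2 := by
    have h0 := h.2.2.2.2
    rw [hT]
    beta_reduce
    exact_mod_cast h0
  have hcA : cA v1 v2 ρ = ∑ j, if sg v1 v2 j = true then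
      (![1, -1, -1, 1] : Fin 4 → ℤ) j * α j else 0 := by
    rw [cA, hρ, hα]
    refine sum_congr rfl fun j _ => ?_
    rw [Ph_eq]
  have hcB : cB v1 v2 ρ = ∑ j, if sg v1 v2 j = true then 0 else
      (![1, -1, -1, 1] : Fin 4 → ℤ) j * α j := by
    rw [cB, hρ, hα]
    refine sum_congr rfl fun j _ => ?_
    rw [Ph_eq]
  have hcC : cC v1 v2 ρ = ∑ j, if sg v1 v2 j = true then 0 else
      (![1, -1, -1, 1] : Fin 4 → ℤ) j * β j := by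
    rw [cC, hρ, hβ]
    refine sum_congr rfl fun j _ => ?_
    rw [Qh_eq]
  have hcD : cD v1 v2 ρ = ∑ j, if sg v1 v2 j = true then
      (![1, -1, -1, 1] : Fin 4 → ℤ) j * β j else 0 := by
    rw [cD, hρ, hβ]
    refine sum_congr rfl fun j _ => ?_
    rw [Qh_eq]
  have key := nondeg (sg v1 v2) s1 s2 α β R hαpos hβpos hab (a ^ 2) (w ^ 2) (b ^ 2) (y ^ 2)
    (pow_pos a0 2) (pow_pos w0 2) (pow_pos b0 2) (pow_pos y0 2) T hTj hrel n1 n2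
    (cA v1 v2 ρ) (cB v1 v2 ρ) (cC v1 v2 ρ) (cD v1 v2 ρ) hcA hcB hcC hcD
  rw [← ha, ← hb, ← hw, ← hy]
  exact key

/-- the fourteenth cell is admissible -/
private theorem bt_adm {N : ℕ} {z : V → ℕ} (h : Good z) (hnz : ∏ u, z u ≤ N) {v1 v2 : V}
    (g : v2 ≠ v1) (g' : v2 ≠ comp v1) : Adm N v1 v2 (rest13 v1 v2 z) (z v2) := by
  have hzN : ∀ u, z u ≤ N := fun u =>
    le_trans (Nat.le_of_dvd (prod_pos fun u _ => h.1 u) (dvd_prod_of_mem z (mem_univ u))) hnz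
  have hρ0 : ∀ u, 0 < rest13 v1 v2 z u := fun u => by
    unfold rest13; split_ifs
    · exact one_pos
    · exact h.1 u
  have hρ : ∏ u, rest13 v1 v2 z u ≤ N := by
    refine le_trans ?_ hnz
    rw [prod13 z g g']
    exact Nat.le_mul_of_pos_left _ (Nat.mul_pos (Nat.mul_pos (h.1 _) (h.1 _)) (h.1 _))
  obtain ⟨k, k'⟩ := ne_comp g g'
  have hz2 : rest13 v1 v2 z (comp v2) = z (comp v2) := by
    unfold rest13
    rw [if_neg]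
    rintro (h0 | h0 | h0)
    · exact k h0
    · exact k' h0
    · exact comp_ne v2 h0
  obtain ⟨k1, k2, k3, k4⟩ := good_nd h g g' _ rfl
  refine ⟨⟨hρ0 _, by rw [hz2]; exact hzN _⟩, hρ, hρ0, k2, k3, k4, h.1 _, hzN _, ?_,
    (z v1 : ℤ), (z (comp v1) : ℤ), Nat.cast_pos.2 (h.1 _), Nat.cast_le.2 (hzN _),
    Nat.cast_pos.2 (h.1 _), Nat.cast_le.2 (hzN _), ?_, ?_⟩
  · rw [hz2]
    exact Nat.isCoprime_iff_coprime.2 (h.2.1 v2)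
  · exact Nat.isCoprime_iff_coprime.2 (h.2.1 v1)
  · rw [hz2]
    exact k1

theorem b2 (ε : ℝ) (hε : 0 < ε) : ∃ K : ℝ, 0 < K ∧ ∀ N : ℕ, 1 ≤ N → ∀ (v1 v2 : V), v2 ≠ v1 →
    v2 ≠ comp v1 → ∀ (ρ : V → ℕ) (F : Finset (V → ℕ)),
    (∀ z ∈ F, Good z ∧ (∏ u, z u ≤ N) ∧ rest13 v1 v2 z = ρ) → (F.card : ℝ) ≤ K * (N : ℝ) ^ ε := by
  obtain ⟨K, hK, hadm⟩ := adm_card ε hε
  refine ⟨K, hK, fun N hN v1 v2 g g' ρ F hF => ?_⟩
  have hinj : Set.InjOn (fun z : V → ℕ => z v2) (F : Set (V → ℕ)) := by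
    intro z hz z' hz' he
    obtain ⟨h1, -, h3⟩ := hF z (mem_coe.1 hz)
    obtain ⟨h1', -, h3'⟩ := hF z' (mem_coe.1 hz')
    exact rigid v1 z z' h1.1 h1'.1 (rest_eq (h3.trans h3'.symm) he) (h1.2.1 v1) (h1'.2.1 v1)
      h1.2.2.1 h1'.2.2.1 h1.2.2.2.1 h1.2.2.2.2
  rw [← card_image_of_injOn hinj]
  refine hadm N hN v1 v2 ρ _ fun w hw => ?_
  obtain ⟨z, hz, rfl⟩ := mem_image.1 hw
  obtain ⟨h1, h2, h3⟩ := hF z hz
  rw [← h3]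
  exact bt_adm h1 h2 g g'

end H38.HE
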