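import Mathlib

/-!
Lower bound for the determinant (`delta_lower`).
-/

set_option autoImplicit false

namespace H38.HE

private theorem dl_sq {p q p' q' R : ℤ} (hp : 0 < p) (hq : 0 < q) (hp' : 0 < p') (hq' : 0 < q')
    (h : p * q = R) (h' : p' * q' = R) (hU : p * q' - p' * q ≠ 0) :
    4 * R ≤ (p * q' - p' * q) ^ 2 := by
  have hR : 0 < R := h ▸ mul_pos hp hq
  have hV : 0 < p * q' + p' * q := by positivity
  have e1 : (p * q' + p' * q) ^ 2 = (p * q' - p' * q) ^ 2 + 4 * R ^ 2 := by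
    linear_combination 4 * p' * q' * h + 4 * R * h'
  have hU2 : 0 < (p * q' - p' * q) ^ 2 := by positivity
  have h2 : 2 * R + 1 ≤ p * q' + p' * q := by
    by_contra hc
    push Not at hc
    have h3 : p * q' + p' * q ≤ 2 * R := by omega
    have h4 : (p * q' + p' * q) ^ 2 ≤ (2 * R) ^ 2 := pow_le_pow_left₀ hV.le h3 2
    nlinarith
  have h5 : (2 * R + 1) ^ 2 ≤ (p * q' + p' * q) ^ 2 := pow_le_pow_left₀ (by positivity) h2 2
  nlinarith

private theorem dl_am {X Y R : ℤ} (hX : 0 < X) (hY : 0 < Y) (hR : 0 < R) (h : X * Y = R ^ 2) :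
    2 * R ≤ X + Y := by
  by_contra hc
  push Not at hc
  have h1 : (X + Y) ^ 2 < (2 * R) ^ 2 := pow_lt_pow_left₀ hc (by positivity) (by norm_num)
  nlinarith [sq_nonneg (X - Y)]

private theorem dl_two {X X' Y Y' R D : ℤ} (hX : 0 < X) (hX' : 0 < X') (hY : 0 < Y)
    (hY' : 0 < Y') (hR : 0 < R) (h1 : X * X' = R ^ 2) (h2 : Y * Y' = R ^ 2)
    (h : D = X ^ 2 + X' ^ 2 - Y ^ 2 - Y' ^ 2 ∨ D = -(X ^ 2 + X' ^ 2 - Y ^ 2 - Y' ^ 2))
    (h0 : D ≠ 0) : R ≤ |D| := by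
  have e : X ^ 2 + X' ^ 2 - Y ^ 2 - Y' ^ 2 = (X + X' - Y - Y') * (X + X' + Y + Y') := by
    linear_combination -2 * h1 + 2 * h2
  have hD : |D| = |X + X' - Y - Y'| * (X + X' + Y + Y') := by
    have hp : 0 < X + X' + Y + Y' := by positivity
    rcases h with h | h
    · rw [h, e, abs_mul, abs_of_pos hp]
    · rw [h, e, abs_neg, abs_mul, abs_of_pos hp]
  have hne : X + X' - Y - Y' ≠ 0 := by
    intro hz
    rw [hz, abs_zero, zero_mul, abs_eq_zero] at hD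
    exact h0 hD
  have h3 : 1 ≤ |X + X' - Y - Y'| := Int.one_le_abs hne
  have h4 := dl_am hX hX' hR h1
  have h5 : 1 * (X + X' + Y + Y') ≤ |X + X' - Y - Y'| * (X + X' + Y + Y') :=
    mul_le_mul_of_nonneg_right h3 (by positivity)
  rw [hD]
  linarith

private theorem dl_three {pa qa pb qb pc qc R D : ℤ} (hpa : 0 < pa) (hqa : 0 < qa) (hpb : 0 < pb)
    (hqb : 0 < qb) (hpc : 0 < pc) (hqc : 0 < qc) (ha : pa * qa = R) (hb : pb * qb = R)
    (hc : pc * qc = R)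
    (h : D = pc ^ 2 * (qa ^ 2 + qb ^ 2) + qc ^ 2 * (pa ^ 2 + pb ^ 2) - pa ^ 2 * qb ^ 2 -
        pb ^ 2 * qa ^ 2 - 2 * R ^ 2 ∨
      D = -(pc ^ 2 * (qa ^ 2 + qb ^ 2) + qc ^ 2 * (pa ^ 2 + pb ^ 2) - pa ^ 2 * qb ^ 2 -
        pb ^ 2 * qa ^ 2 - 2 * R ^ 2))
    (h0 : D ≠ 0) : R ≤ |D| := by
  have hR : 0 < R := ha ▸ mul_pos hpa hqa
  obtain ⟨D', hD'⟩ : ∃ D' : ℤ, D' = pc ^ 2 * (qa ^ 2 + qb ^ 2) + qc ^ 2 * (pa ^ 2 + pb ^ 2) -
    pa ^ 2 * qb ^ 2 - pb ^ 2 * qa ^ 2 - 2 * R ^ 2 := ⟨_, rfl⟩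
  rw [← hD'] at h
  have hDD : |D| = |D'| := by
    rcases h with h | h
    · rw [h]
    · rw [h, abs_neg]
  have hD0 : D' ≠ 0 := by
    rcases h with h | h
    · rwa [h] at h0
    · intro hz
      rw [hz, neg_zero] at h
      exact h0 h
  have id : R * D' = (pc * qa - pa * qc) * (pc * qb - pb * qc) * (pa * qb + pb * qa) := by
    rw [hD']
    linear_combination (-(pc ^ 2 * qb ^ 2 + qc ^ 2 * pb ^ 2 - 2 * R * pb * qb)) * ha -
      (pc ^ 2 * qa ^ 2 + qc ^ 2 * pa ^ 2 - 2 * R ^ 2) * hb + (pa * qb + pb * qa) ^ 2 * hc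
  have hU : pc * qa - pa * qc ≠ 0 := by
    intro hz
    rw [hz, zero_mul, zero_mul] at id
    rcases mul_eq_zero.1 id with h1 | h1
    · exact hR.ne' h1
    · exact hD0 h1
  have hW : pc * qb - pb * qc ≠ 0 := by
    intro hz
    rw [hz, mul_zero, zero_mul] at id
    rcases mul_eq_zero.1 id with h1 | h1
    · exact hR.ne' h1
    · exact hD0 h1
  have k1 := dl_sq hpc hqc hpa hqa hc ha hU
  have k2 := dl_sq hpc hqc hpb hqb hc hb hW
  have k3 : 2 * R ≤ pa * qb + pb * qa :=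
    dl_am (by positivity) (by positivity) hR (by linear_combination pb * qb * ha + R * hb)
  have k4 : (2 * R) ^ 2 ≤ (pa * qb + pb * qa) ^ 2 := pow_le_pow_left₀ (by positivity) k3 2
  have k5 : (4 * R) * (4 * R) ≤ (pc * qa - pa * qc) ^ 2 * (pc * qb - pb * qc) ^ 2 :=
    mul_le_mul k1 k2 (by positivity) (by positivity)
  have k6 : (4 * R) * (4 * R) * (2 * R) ^ 2 ≤
      (pc * qa - pa * qc) ^ 2 * (pc * qb - pb * qc) ^ 2 * (pa * qb + pb * qa) ^ 2 :=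
    mul_le_mul k5 k4 (by positivity) (by positivity)
  have k7 : (R * D') ^ 2 =
      (pc * qa - pa * qc) ^ 2 * (pc * qb - pb * qc) ^ 2 * (pa * qb + pb * qa) ^ 2 := by
    rw [id]
    ring
  rw [← k7] at k6
  have k8 : R ^ 2 * (64 * R ^ 2) ≤ R ^ 2 * D' ^ 2 := by
    calc R ^ 2 * (64 * R ^ 2) = (4 * R) * (4 * R) * (2 * R) ^ 2 := by ring
      _ ≤ (R * D') ^ 2 := k6
      _ = R ^ 2 * D' ^ 2 := by ring
  have k9 : 64 * R ^ 2 ≤ D' ^ 2 := le_of_mul_le_mul_left k8 (by positivity)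
  rw [hDD]
  have k10 : R ^ 2 ≤ |D'| ^ 2 := by
    rw [sq_abs]
    nlinarith
  exact (pow_le_pow_iff_left₀ hR.le (abs_nonneg _) (by norm_num)).1 k10

theorem delta_lower (σ : Fin 4 → Bool) (h1 : ∃ j, σ j = true) (h2 : ∃ j, σ j = false)
    (p q : Fin 4 → ℕ) (R : ℕ) (hp : ∀ j, 0 < p j) (hq : ∀ j, 0 < q j) (hR : ∀ j, p j * q j = R)
    (A B C D : ℤ)
    (hA : A = ∑ j, if σ j = true then (![1, -1, -1, 1] : Fin 4 → ℤ) j * (p j : ℤ) ^ 2 else 0)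
    (hB : B = ∑ j, if σ j = true then 0 else (![1, -1, -1, 1] : Fin 4 → ℤ) j * (p j : ℤ) ^ 2)
    (hC : C = ∑ j, if σ j = true then 0 else (![1, -1, -1, 1] : Fin 4 → ℤ) j * (q j : ℤ) ^ 2)
    (hD : D = ∑ j, if σ j = true then (![1, -1, -1, 1] : Fin 4 → ℤ) j * (q j : ℤ) ^ 2 else 0)
    (h0 : A * D - B * C ≠ 0) : (R : ℤ) ≤ |A * D - B * C| := by
  have P0 : (0 : ℤ) < p 0 := by exact_mod_cast hp 0
  have P1 : (0 : ℤ) < p 1 := by exact_mod_cast hp 1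
  have P2 : (0 : ℤ) < p 2 := by exact_mod_cast hp 2
  have P3 : (0 : ℤ) < p 3 := by exact_mod_cast hp 3
  have Q0 : (0 : ℤ) < q 0 := by exact_mod_cast hq 0
  have Q1 : (0 : ℤ) < q 1 := by exact_mod_cast hq 1
  have Q2 : (0 : ℤ) < q 2 := by exact_mod_cast hq 2
  have Q3 : (0 : ℤ) < q 3 := by exact_mod_cast hq 3
  have R0 : (p 0 : ℤ) * q 0 = R := by exact_mod_cast hR 0
  have R1 : (p 1 : ℤ) * q 1 = R := by exact_mod_cast hR 1
  have R2 : (p 2 : ℤ) * q 2 = R := by exact_mod_cast hR 2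
  have R3 : (p 3 : ℤ) * q 3 = R := by exact_mod_cast hR 3
  have hRp : (0 : ℤ) < R := R0 ▸ mul_pos P0 Q0
  have S0 : (p 0 : ℤ) ^ 2 * (q 0 : ℤ) ^ 2 = (R : ℤ) ^ 2 := by
    linear_combination ((p 0 : ℤ) * q 0 + R) * R0
  have S1 : (p 1 : ℤ) ^ 2 * (q 1 : ℤ) ^ 2 = (R : ℤ) ^ 2 := by
    linear_combination ((p 1 : ℤ) * q 1 + R) * R1
  have S2 : (p 2 : ℤ) ^ 2 * (q 2 : ℤ) ^ 2 = (R : ℤ) ^ 2 := by
    linear_combination ((p 2 : ℤ) * q 2 + R) * R2
  have S3 : (p 3 : ℤ) ^ 2 * (q 3 : ℤ) ^ 2 = (R : ℤ) ^ 2 := by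
    linear_combination ((p 3 : ℤ) * q 3 + R) * R3
  have v0 : (![1, -1, -1, 1] : Fin 4 → ℤ) 0 = 1 := rfl
  have v1 : (![1, -1, -1, 1] : Fin 4 → ℤ) 1 = -1 := rfl
  have v2 : (![1, -1, -1, 1] : Fin 4 → ℤ) 2 = -1 := rfl
  have v3 : (![1, -1, -1, 1] : Fin 4 → ℤ) 3 = 1 := rfl
  rw [Fin.sum_univ_four, v0, v1, v2, v3] at hA hB hC hD
  rcases hs0 : σ 0 with _ | _ <;> rcases hs1 : σ 1 with _ | _ <;>
    rcases hs2 : σ 2 with _ | _ <;> rcases hs3 : σ 3 with _ | _ <;>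
    rw [hs0, hs1, hs2, hs3] at hA hB hC hD <;>
    simp only [if_true, if_false, Bool.false_eq_true, one_mul, zero_add, add_zero] at hA hB hC hD
  · exfalso
    obtain ⟨j, hj⟩ := h1
    fin_cases j
    · exact absurd (hs0.symm.trans hj) (by decide)
    · exact absurd (hs1.symm.trans hj) (by decide)
    · exact absurd (hs2.symm.trans hj) (by decide)
    · exact absurd (hs3.symm.trans hj) (by decide)
  · exact dl_three P1 Q1 P2 Q2 P0 Q0 R1 R2 R0 (Or.inl (by rw [hA, hB, hC, hD]; linear_combination -S0 - S1 - S2 + S3)) h0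
  · exact dl_three P0 Q0 P3 Q3 P1 Q1 R0 R3 R1 (Or.inl (by rw [hA, hB, hC, hD]; linear_combination -S0 - S1 + S2 - S3)) h0
  · exact dl_two (mul_pos P2 Q3) (mul_pos P3 Q2) (mul_pos P0 Q1) (mul_pos P1 Q0) hRp
      (by linear_combination (p 3 : ℤ) * q 3 * R2 + R * R3)
      (by linear_combination (p 1 : ℤ) * q 1 * R0 + R * R1)
      (Or.inr (by rw [hA, hB, hC, hD]; linear_combination -S0 - S1 + S2 + S3)) h0
  · exact dl_three P0 Q0 P3 Q3 P2 Q2 R0 R3 R2 (Or.inl (by rw [hA, hB, hC, hD]; linear_combination -S0 + S1 - S2 - S3)) h0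
  · exact dl_two (mul_pos P1 Q3) (mul_pos P3 Q1) (mul_pos P0 Q2) (mul_pos P2 Q0) hRp
      (by linear_combination (p 3 : ℤ) * q 3 * R1 + R * R3)
      (by linear_combination (p 2 : ℤ) * q 2 * R0 + R * R2)
      (Or.inr (by rw [hA, hB, hC, hD]; linear_combination -S0 + S1 - S2 + S3)) h0
  · exact dl_two (mul_pos P1 Q2) (mul_pos P2 Q1) (mul_pos P0 Q3) (mul_pos P3 Q0) hRp
      (by linear_combination (p 2 : ℤ) * q 2 * R1 + R * R2)
      (by linear_combination (p 3 : ℤ) * q 3 * R0 + R * R3)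
      (Or.inl (by rw [hA, hB, hC, hD]; linear_combination -S0 + S1 + S2 - S3)) h0
  · exact dl_three P1 Q1 P2 Q2 P3 Q3 R1 R2 R3 (Or.inr (by rw [hA, hB, hC, hD]; linear_combination -S0 + S1 + S2 + S3)) h0
  · exact dl_three P1 Q1 P2 Q2 P3 Q3 R1 R2 R3 (Or.inl (by rw [hA, hB, hC, hD]; linear_combination S0 - S1 - S2 - S3)) h0
  · exact dl_two (mul_pos P0 Q3) (mul_pos P3 Q0) (mul_pos P1 Q2) (mul_pos P2 Q1) hRp
      (by linear_combination (p 3 : ℤ) * q 3 * R0 + R * R3)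
      (by linear_combination (p 2 : ℤ) * q 2 * R1 + R * R2)
      (Or.inl (by rw [hA, hB, hC, hD]; linear_combination S0 - S1 - S2 + S3)) h0
  · exact dl_two (mul_pos P0 Q2) (mul_pos P2 Q0) (mul_pos P1 Q3) (mul_pos P3 Q1) hRp
      (by linear_combination (p 2 : ℤ) * q 2 * R0 + R * R2)
      (by linear_combination (p 3 : ℤ) * q 3 * R1 + R * R3)
      (Or.inr (by rw [hA, hB, hC, hD]; linear_combination S0 - S1 + S2 - S3)) h0
  · exact dl_three P0 Q0 P3 Q3 P2 Q2 R0 R3 R2 (Or.inr (by rw [hA, hB, hC, hD]; linear_combination S0 - S1 + S2 + S3)) h0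
  · exact dl_two (mul_pos P0 Q1) (mul_pos P1 Q0) (mul_pos P2 Q3) (mul_pos P3 Q2) hRp
      (by linear_combination (p 1 : ℤ) * q 1 * R0 + R * R1)
      (by linear_combination (p 3 : ℤ) * q 3 * R2 + R * R3)
      (Or.inr (by rw [hA, hB, hC, hD]; linear_combination S0 + S1 - S2 - S3)) h0
  · exact dl_three P0 Q0 P3 Q3 P1 Q1 R0 R3 R1 (Or.inr (by rw [hA, hB, hC, hD]; linear_combination S0 + S1 - S2 + S3)) h0
  · exact dl_three P1 Q1 P2 Q2 P0 Q0 R1 R2 R0 (Or.inr (by rw [hA, hB, hC, hD]; linear_combination S0 + S1 + S2 - S3)) h0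
  · exfalso
    obtain ⟨j, hj⟩ := h2
    fin_cases j
    · exact absurd (hs0.symm.trans hj) (by decide)
    · exact absurd (hs1.symm.trans hj) (by decide)
    · exact absurd (hs2.symm.trans hj) (by decide)
    · exact absurd (hs3.symm.trans hj) (by decide)

end H38.HE
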