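import Pool.Agent.H38.HE.Lev4
import Pool.Agent.H38.HE.Delta
import Pool.Agent.H38.HE.Btwo

/-!
The first two pairs: connection with the coefficients `A, B, C, D`, sizes.
-/

set_option autoImplicit false

open Finset

namespace H38.HE

open H38.HC H38.HD

theorem rk2_eq {v : Fin 8 → V} (z : V → ℕ) : rk v 2 z = rest2 (v 0) (v 1) z := by
  funext u
  unfold rk rest2 rest
  by_cases h0 : u = v 0 ∨ u = comp (v 0)
  · rw [if_pos ⟨0, by norm_num, h0⟩]
    by_cases h1 : u = v 1 ∨ u = comp (v 1)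
    · rw [if_pos h1]
    · rw [if_neg h1, if_pos h0]
  · by_cases h1 : u = v 1 ∨ u = comp (v 1)
    · rw [if_pos ⟨1, by norm_num, h1⟩, if_pos h1]
    · rw [if_neg h1, if_neg h0, if_neg]
      rintro ⟨i, h2, h3⟩
      have h4 : i = 0 ∨ i = 1 := by
        rcases i with ⟨i, hi⟩
        simp only at h2
        interval_cases i
        · left; rfl
        · right; rfl
      rcases h4 with h5 | h5
      · rw [h5] at h3; exact h0 h3
      · rw [h5] at h3; exact h1 h3

theorem rest2_at {v : Fin 8 → V} (hi : Inj v) (z : V → ℕ) (i : Fin 8) :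
    (2 ≤ i.val → rest2 (v 0) (v 1) z (v i) = z (v i) ∧
      rest2 (v 0) (v 1) z (comp (v i)) = z (comp (v i))) ∧
    (i.val < 2 → rest2 (v 0) (v 1) z (v i) = 1 ∧ rest2 (v 0) (v 1) z (comp (v i)) = 1) := by
  rw [← rk2_eq]
  refine ⟨fun h => rk_eq hi z h, fun h => ?_⟩
  unfold rk
  exact ⟨if_pos ⟨i, h, Or.inl rfl⟩, if_pos ⟨i, h, Or.inr rfl⟩⟩

theorem tl_P {v : Fin 8 → V} (hv : Enum v) (hi : Inj v) (z : V → ℕ) (j : Fin 4) :
    tl v z 2 (j, v 0 j) = (P2 (v 0) (v 1) z j : ℤ) ^ 2 := by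
  have h : (P2 (v 0) (v 1) z j : ℤ) = ∏ i : Fin 8, (if i.val < 2 then 1 else
      (ch v z i (j, v 0 j) : ℤ)) := by
    rw [P2, hv]
    push_cast
    refine prod_congr rfl fun i _ => ?_
    have hc : comp (v i) j = !(v i j) := rfl
    by_cases h : i.val < 2
    · rw [if_pos h, ((rest2_at hi z i).2 h).1, ((rest2_at hi z i).2 h).2]
      simp
    · rw [if_neg h, ((rest2_at hi z i).1 (by omega)).1, ((rest2_at hi z i).1 (by omega)).2]
      simp only [ch, ki, hc]
      rcases Bool.eq_false_or_eq_true (v i j) with h1 | h1 <;>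
        rcases Bool.eq_false_or_eq_true (v 0 j) with h2 | h2 <;> simp [h1, h2]
  rw [h, tl, ← prod_pow]
  refine prod_congr rfl fun i _ => ?_
  split_ifs <;> simp

theorem tl_Q {v : Fin 8 → V} (hv : Enum v) (hi : Inj v) (z : V → ℕ) (j : Fin 4) :
    tl v z 2 (j, !(v 0 j)) = (Q2 (v 0) (v 1) z j : ℤ) ^ 2 := by
  have h : (Q2 (v 0) (v 1) z j : ℤ) = ∏ i : Fin 8, (if i.val < 2 then 1 else
      (ch v z i (j, !(v 0 j)) : ℤ)) := by
    rw [Q2, hv]
    push_cast
    refine prod_congr rfl fun i _ => ?_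
    have hc : comp (v i) j = !(v i j) := rfl
    by_cases h : i.val < 2
    · rw [if_pos h, ((rest2_at hi z i).2 h).1, ((rest2_at hi z i).2 h).2]
      simp
    · rw [if_neg h, ((rest2_at hi z i).1 (by omega)).1, ((rest2_at hi z i).1 (by omega)).2]
      simp only [ch, ki, hc]
      rcases Bool.eq_false_or_eq_true (v i j) with h1 | h1 <;>
        rcases Bool.eq_false_or_eq_true (v 0 j) with h2 | h2 <;> simp [h1, h2]
  rw [h, tl, ← prod_pow]
  refine prod_congr rfl fun i _ => ?_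
  split_ifs <;> simp

/-- the coefficient vector of the first two pairs consists of `A, B, C, D` -/
theorem vec_two {v : Fin 8 → V} (hv : Enum v) (hi : Inj v) (z : V → ℕ) (t : Tm) :
    vec v z 2 t = cA (v 0) (v 1) (rest13 (v 0) (v 1) z) ∨
    vec v z 2 t = cB (v 0) (v 1) (rest13 (v 0) (v 1) z) ∨
    vec v z 2 t = cC (v 0) (v 1) (rest13 (v 0) (v 1) z) ∨
    vec v z 2 t = cD (v 0) (v 1) (rest13 (v 0) (v 1) z) := by
  have hpf : ∀ t', pf v 2 t' t ↔ ki v 0 t' = ki v 0 t ∧ ki v 1 t' = ki v 1 t := by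
    intro t'
    constructor
    · intro h
      exact ⟨h 0 (by norm_num), h 1 (by norm_num)⟩
    · rintro ⟨h1, h2⟩ i hi'
      have h4 : i = 0 ∨ i = 1 := by
        rcases i with ⟨i, hi⟩
        simp only at hi'
        interval_cases i
        · left; rfl
        · right; rfl
      rcases h4 with h5 | h5
      · rw [h5]; exact h1
      · rw [h5]; exact h2
  have hsum : vec v z 2 t = ∑ j, ((if ki v 0 t = true ∧ (sg (v 0) (v 1) j = ki v 1 t) then
      (![1, -1, -1, 1] : Fin 4 → ℤ) j * (P2 (v 0) (v 1) z j : ℤ) ^ 2 else 0) +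
      (if ki v 0 t = false ∧ (sg (v 0) (v 1) j = !(ki v 1 t)) then
      (![1, -1, -1, 1] : Fin 4 → ℤ) j * (Q2 (v 0) (v 1) z j : ℤ) ^ 2 else 0)) := by
    rw [vec, sum_tm]
    refine sum_congr rfl fun j _ => ?_
    have e1 := tl_P hv hi z j
    have e2 := tl_Q hv hi z j
    simp only [hpf, ki, sgn, sg]
    rw [← e1, ← e2]
    rcases Bool.eq_false_or_eq_true (v 0 j) with h1 | h1 <;>
      rcases Bool.eq_false_or_eq_true (v 1 j) with h2 | h2 <;>
      rcases Bool.eq_false_or_eq_true (v 0 t.1 == t.2) with h3 | h3 <;>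
      rcases Bool.eq_false_or_eq_true (v 1 t.1 == t.2) with h4 | h4 <;>
      simp [h1, h2, h3, h4]
  rcases Bool.eq_false_or_eq_true (ki v 0 t) with h3 | h3 <;>
    rcases Bool.eq_false_or_eq_true (ki v 1 t) with h4 | h4
  · left
    rw [hsum, cA]
    refine sum_congr rfl fun j _ => ?_
    rw [Ph_eq, h3, h4]
    simp
  · right; left
    rw [hsum, cB]
    refine sum_congr rfl fun j _ => ?_
    rw [Ph_eq, h3, h4]
    rcases Bool.eq_false_or_eq_true (sg (v 0) (v 1) j) with h5 | h5 <;> simp [h5]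
  · right; right; left
    rw [hsum, cC]
    refine sum_congr rfl fun j _ => ?_
    rw [Qh_eq, h3, h4]
    rcases Bool.eq_false_or_eq_true (sg (v 0) (v 1) j) with h5 | h5 <;> simp [h5]
  · right; right; right
    rw [hsum, cD]
    refine sum_congr rfl fun j _ => ?_
    rw [Qh_eq, h3, h4]
    rcases Bool.eq_false_or_eq_true (sg (v 0) (v 1) j) with h5 | h5 <;> simp [h5]

/-- the size of the part from `k` on -/
theorem tl_le (v : Fin 8 → V) (hv : Enum v) {z : V → ℕ} (hz : ∀ u, 0 < z u) (k : ℕ) (t : Tm) :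
    |tl v z k t| ≤ ((∏ u, z u : ℕ) : ℤ) ^ 2 := by
  have h1 : tl v z k t = ((∏ i : Fin 8, (if i.val < k then 1 else ch v z i t) : ℕ) : ℤ) ^ 2 := by
    unfold tl
    push_cast
    rw [← prod_pow]
    refine prod_congr rfl fun i _ => ?_
    split_ifs <;> simp
  rw [h1, abs_of_nonneg (by positivity)]
  apply pow_le_pow_left₀ (by positivity)
  have h2 : ∏ i : Fin 8, (if i.val < k then 1 else ch v z i t) ≤ ∏ u, z u := by
    rw [hv]
    refine prod_le_prod' fun i _ => ?_
    have a := hz (v i)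
    have b := hz (comp (v i))
    split_ifs
    · exact Nat.mul_pos a b
    · unfold ch
      split_ifs
      · exact Nat.le_mul_of_pos_right _ b
      · exact Nat.le_mul_of_pos_left _ a
  exact_mod_cast h2

theorem cf_le (v : Fin 8 → V) (hv : Enum v) {z : V → ℕ} (hz : ∀ u, 0 < z u) (k : Fin 8) (b : Bool)
    (t : Tm) : |cf v z k b t| ≤ 8 * ((∏ u, z u : ℕ) : ℤ) ^ 2 := by
  unfold cf
  refine (abs_sum_le_sum_abs _ _).trans ?_
  refine (sum_le_card_nsmul _ _ (((∏ u, z u : ℕ) : ℤ) ^ 2) fun t' _ => ?_).trans ?_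
  · split_ifs
    · rw [abs_mul]
      have h1 : |sgn t'| ≤ 1 := ep_le t'.1
      calc |sgn t'| * |tl v z (k.val + 1) t'| ≤ 1 * ((∏ u, z u : ℕ) : ℤ) ^ 2 :=
            mul_le_mul h1 (tl_le v hv hz _ _) (abs_nonneg _) (by norm_num)
        _ = _ := one_mul _
    · simp only [abs_zero]
      positivity
  · rw [card_univ]
    have : Fintype.card Tm = 8 := by decide
    rw [this]
    simp

end H38.HE
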