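import Pool.Agent.H92.DivBound

/-!
# Few solutions of `u² (A w² + B z²) + v² (C w² + D z²) = 0` in small boxes
-/

set_option autoImplicit false

namespace H38.HE

/-- the shape of the solutions -/
private theorem shapeU {r s u v : ℤ} (hu : 0 < u) (hc : IsCoprime u v)
    (h : u ^ 2 * r + v ^ 2 * s = 0) : ∃ k : ℤ, r = -(k * v ^ 2) ∧ s = k * u ^ 2 := by
  have h1 : u ^ 2 ∣ v ^ 2 * s := ⟨-r, by linear_combination h⟩
  have h2 : u ^ 2 ∣ s := (hc.pow (m := 2) (n := 2)).dvd_of_dvd_mul_left h1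
  obtain ⟨k, hk⟩ := h2
  refine ⟨k, ?_, by rw [hk]; ring⟩
  have hu2 : u ^ 2 ≠ 0 := pow_ne_zero _ hu.ne'
  apply mul_left_cancel₀ hu2
  rw [hk] at h
  linear_combination h

/-- a common divisor of the products -/
private theorem gdvd {k x A B C D : ℤ} {G : ℕ} (hk : k ≠ 0)
    (hG : ∀ m : ℤ, m ∣ A → m ∣ B → m ∣ C → m ∣ D → m ∣ G)
    (h1 : k ∣ A * x) (h2 : k ∣ B * x) (h3 : k ∣ C * x) (h4 : k ∣ D * x) : k ∣ G * x := by
  obtain ⟨g, hg⟩ : ∃ g : ℤ, g = (Int.gcd k x : ℤ) := ⟨_, rfl⟩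
  have hg0 : g ≠ 0 := by
    rw [hg]
    exact_mod_cast (Int.gcd_ne_zero_left hk)
  obtain ⟨k', hk'⟩ : g ∣ k := by rw [hg]; exact Int.gcd_dvd_left _ _
  obtain ⟨x', hx'⟩ : g ∣ x := by rw [hg]; exact Int.gcd_dvd_right _ _
  have hcop : IsCoprime k' x' := by
    have h := Int.gcd_eq_gcd_ab k x
    rw [← hg] at h
    refine ⟨Int.gcdA k x, Int.gcdB k x, ?_⟩
    apply mul_left_cancel₀ hg0
    generalize Int.gcdA k x = a at h ⊢
    generalize Int.gcdB k x = b at h ⊢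
    rw [hk', hx'] at h
    linear_combination -h
  have hd : ∀ T : ℤ, k ∣ T * x → k' ∣ T := by
    intro T hT
    rw [hk', hx'] at hT
    have h5 : g * k' ∣ g * (T * x') := by
      have e : T * (g * x') = g * (T * x') := by ring
      rwa [e] at hT
    exact hcop.dvd_of_dvd_mul_right (Int.dvd_of_mul_dvd_mul_left hg0 h5)
  obtain ⟨t, ht⟩ := hG k' (hd A h1) (hd B h2) (hd C h3) (hd D h4)
  refine ⟨t * x', ?_⟩
  rw [ht, hk', hx']
  ring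

/-- positive coprime pairs with the same ratio are equal -/
private theorem pair_eq {w z w' z' : ℤ} (hw : 0 < w) (hz : 0 < z) (hw' : 0 < w') (hz' : 0 < z')
    (hc : IsCoprime w z) (hc' : IsCoprime w' z') (h : w ^ 2 * z' ^ 2 - w' ^ 2 * z ^ 2 = 0) :
    w = w' ∧ z = z' := by
  have h1 : w * z' = w' * z := by
    have h2 : (w * z') ^ 2 = (w' * z) ^ 2 := by linear_combination h
    exact (pow_left_inj₀ (by positivity) (by positivity) (by norm_num)).1 h2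
  have h3 : w ∣ w' := hc.dvd_of_dvd_mul_right ⟨z', h1.symm⟩
  have h4 : w' ∣ w := hc'.dvd_of_dvd_mul_right ⟨z, h1⟩
  have h5 : w = w' := Int.dvd_antisymm hw.le hw'.le h3 h4
  refine ⟨h5, ?_⟩
  rw [h5] at h1
  exact (mul_left_cancel₀ hw'.ne' h1).symm

/-- the difference of two products of squares -/
private theorem diff_lt {a b a' b' : ℤ} {P Q : ℕ} (ha : 0 < a) (hb : 0 < b) (ha' : 0 < a')
    (hb' : 0 < b') (h1 : a ≤ P) (h2 : b ≤ Q) (h3 : a' ≤ P) (h4 : b' ≤ Q) :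
    |a ^ 2 * b' ^ 2 - a' ^ 2 * b ^ 2| < ((P : ℤ) * Q) ^ 2 := by
  have e1 : 0 < a ^ 2 * b' ^ 2 := by positivity
  have e2 : 0 < a' ^ 2 * b ^ 2 := by positivity
  have e3 : a ^ 2 * b' ^ 2 ≤ ((P : ℤ) * Q) ^ 2 := by
    have : a * b' ≤ (P : ℤ) * Q := mul_le_mul h1 h4 hb'.le (ha.le.trans h1)
    have := pow_le_pow_left₀ (by positivity) this 2
    rwa [mul_pow] at this
  have e4 : a' ^ 2 * b ^ 2 ≤ ((P : ℤ) * Q) ^ 2 := by
    have : a' * b ≤ (P : ℤ) * Q := mul_le_mul h3 h2 hb.le (ha.le.trans h1)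
    have := pow_le_pow_left₀ (by positivity) this 2
    rwa [mul_pow] at this
  rw [abs_lt]
  constructor <;> linarith

theorem lemU (ε : ℝ) (hε : 0 < ε) : ∃ K : ℝ, 0 < K ∧ ∀ X : ℕ, 1 ≤ X → ∀ A B C D : ℤ,
    |A| ≤ X → |B| ≤ X → |C| ≤ X → |D| ≤ X → A * D - B * C ≠ 0 → ∀ G : ℕ, G ≠ 0 →
    (∀ m : ℤ, m ∣ A → m ∣ B → m ∣ C → m ∣ D → m ∣ G) → ∀ U Y W Z : ℕ,
    (G : ℤ) ^ 2 * ((U : ℤ) * Y * W * Z) ^ 2 ≤ |A * D - B * C| →
    ∀ F : Finset (ℤ × ℤ × ℤ × ℤ), (∀ q ∈ F, 0 < q.1 ∧ q.1 ≤ U ∧ 0 < q.2.1 ∧ q.2.1 ≤ Y ∧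
      0 < q.2.2.1 ∧ q.2.2.1 ≤ W ∧ 0 < q.2.2.2 ∧ q.2.2.2 ≤ Z ∧ IsCoprime q.1 q.2.1 ∧
      IsCoprime q.2.2.1 q.2.2.2 ∧ q.1 ^ 2 * (A * q.2.2.1 ^ 2 + B * q.2.2.2 ^ 2) +
        q.2.1 ^ 2 * (C * q.2.2.1 ^ 2 + D * q.2.2.2 ^ 2) = 0) → (F.card : ℝ) ≤ K * (X : ℝ) ^ ε := by
  classical
  obtain ⟨K2, hK2, hd⟩ := Pool.Agent.H5.W.divisor_bound (ε / 2) (by positivity)
  refine ⟨2 * (K2 * 2 ^ (ε / 2)), by positivity, ?_⟩
  intro X hX A B C D hA hB hC hD hΔ G hG0 hG U Y W Z hbig F hF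
  obtain ⟨Δ, hΔd⟩ : ∃ Δ : ℤ, Δ = A * D - B * C := ⟨_, rfl⟩
  rw [← hΔd] at hΔ hbig
  have hx : (1 : ℤ) ≤ X := by exact_mod_cast hX
  have hx0 : (0 : ℤ) ≤ X := by linarith
  have hΔX : |Δ| ≤ 2 * (X : ℤ) ^ 2 := by
    have h1 : |A * D| ≤ (X : ℤ) * X := by
      rw [abs_mul]; exact mul_le_mul hA hD (abs_nonneg _) hx0
    have h2 : |B * C| ≤ (X : ℤ) * X := by
      rw [abs_mul]; exact mul_le_mul hB hC (abs_nonneg _) hx0
    rw [abs_le] at h1 h2 ⊢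
    rw [hΔd]
    constructor
    · nlinarith
    · nlinarith
  obtain ⟨S, hS⟩ : ∃ S : Finset ℤ, S = Δ.natAbs.divisors.image (fun d : ℕ => (d : ℤ)) ∪
      Δ.natAbs.divisors.image (fun d : ℕ => -(d : ℤ)) := ⟨_, rfl⟩
  have hSmem : ∀ k : ℤ, k ∣ Δ → k ∈ S := by
    intro k hk
    have h1 : k.natAbs ∈ Δ.natAbs.divisors :=
      Nat.mem_divisors.2 ⟨Int.natAbs_dvd_natAbs.2 hk, Int.natAbs_ne_zero.2 hΔ⟩
    rw [hS, Finset.mem_union, Finset.mem_image, Finset.mem_image]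
    rcases Int.natAbs_eq k with h | h
    · exact Or.inl ⟨k.natAbs, h1, h.symm⟩
    · exact Or.inr ⟨k.natAbs, h1, h.symm⟩
  have hScard : (S.card : ℝ) ≤ 2 * (Δ.natAbs.divisors.card : ℝ) := by
    have h1 : S.card ≤ Δ.natAbs.divisors.card + Δ.natAbs.divisors.card := by
      rw [hS]
      exact (Finset.card_union_le _ _).trans (Nat.add_le_add Finset.card_image_le
        Finset.card_image_le)
    have h2 : (S.card : ℝ) ≤ (Δ.natAbs.divisors.card : ℝ) + (Δ.natAbs.divisors.card : ℝ) := by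
      exact_mod_cast h1
    linarith
  have key : ∀ q ∈ F, ∃ k l : ℤ, k * l = Δ ∧
      A * q.2.2.1 ^ 2 + B * q.2.2.2 ^ 2 = -(k * q.2.1 ^ 2) ∧
      C * q.2.2.1 ^ 2 + D * q.2.2.2 ^ 2 = k * q.1 ^ 2 ∧
      A * q.1 ^ 2 + C * q.2.1 ^ 2 = l * q.2.2.2 ^ 2 ∧
      B * q.1 ^ 2 + D * q.2.1 ^ 2 = -(l * q.2.2.1 ^ 2) := by
    rintro ⟨u, v, w, z⟩ hq
    obtain ⟨hu, hu', hv, hv', hw, hw', hz, hz', hc1, hc2, heq⟩ := hF _ hq
    simp only at hu hu' hv hv' hw hw' hz hz' hc1 hc2 heq ⊢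
    obtain ⟨k, hk1, hk2⟩ := shapeU hu hc1 heq
    have e1 : Δ * z ^ 2 = k * (A * u ^ 2 + C * v ^ 2) := by
      rw [hΔd]
      linear_combination A * hk2 - C * hk1
    have e2 : Δ * w ^ 2 = k * (-(D * v ^ 2) - B * u ^ 2) := by
      rw [hΔd]
      linear_combination D * hk1 - B * hk2
    have hkd : k ∣ Δ := by
      obtain ⟨a, b, hab⟩ := hc2.pow (m := 2) (n := 2)
      refine ⟨a * (-(D * v ^ 2) - B * u ^ 2) + b * (A * u ^ 2 + C * v ^ 2), ?_⟩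
      linear_combination (-Δ) * hab + a * e2 + b * e1
    obtain ⟨l, hl⟩ := hkd
    have hk0 : k ≠ 0 := by
      rintro rfl
      rw [zero_mul] at hl
      exact hΔ hl
    refine ⟨k, l, hl.symm, hk1, hk2, ?_, ?_⟩
    · apply mul_left_cancel₀ hk0
      rw [← e1, hl]
      ring
    · apply mul_left_cancel₀ hk0
      linear_combination e2 - w ^ 2 * hl
  choose! κ l hκ using key
  have hmaps : ∀ q ∈ F, κ q ∈ S := fun q hq => hSmem _ ⟨l q, (hκ q hq).1.symm⟩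
  have hinj : ∀ q ∈ F, ∀ q' ∈ F, κ q = κ q' → q = q' := by
    rintro ⟨u, v, w, z⟩ hq ⟨u', v', w', z'⟩ hq' hkk
    obtain ⟨kl, f1, f2, f3, f4⟩ := hκ _ hq
    obtain ⟨kl', f1', f2', f3', f4'⟩ := hκ _ hq'
    obtain ⟨hu, huU, hv, hvY, hw, hwW, hz, hzZ, hc1, hc2, -⟩ := hF _ hq
    obtain ⟨hu', huU', hv', hvY', hw', hwW', hz', hzZ', hc1', hc2', -⟩ := hF _ hq'
    rw [← hkk] at kl' f1' f2'
    obtain ⟨k, hkd⟩ : ∃ k, k = κ (u, v, w, z) := ⟨_, rfl⟩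
    obtain ⟨m, hmd⟩ : ∃ m, m = l (u, v, w, z) := ⟨_, rfl⟩
    obtain ⟨m', hmd'⟩ : ∃ m', m' = l (u', v', w', z') := ⟨_, rfl⟩
    rw [← hkd] at kl kl' f1 f2 f1' f2'
    rw [← hmd] at kl f3 f4
    rw [← hmd'] at kl' f3' f4'
    simp only at f1 f2 f3 f4 f1' f2' f3' f4' hu huU hv hvY hw hwW hz hzZ hc1 hc2 hu' huU' hv' hvY' hw' hwW' hz' hzZ' hc1' hc2'
    have hk0 : k ≠ 0 := by
      rintro h
      rw [h, zero_mul] at kl
      exact hΔ kl.symm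
    have hmm : m' = m := mul_left_cancel₀ hk0 (kl'.trans kl.symm)
    rw [hmm] at f3' f4'
    have hm0 : m ≠ 0 := by
      rintro h
      rw [h, mul_zero] at kl
      exact hΔ kl.symm
    by_cases hx1 : w ^ 2 * z' ^ 2 - w' ^ 2 * z ^ 2 = 0
    · obtain ⟨ew, ez⟩ := pair_eq hw hz hw' hz' hc2 hc2' hx1
      rw [← ew, ← ez] at f1' f2'
      have e5 : v ^ 2 = v' ^ 2 := by
        apply mul_left_cancel₀ hk0
        linear_combination f1 - f1'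
      have e6 : u ^ 2 = u' ^ 2 := by
        apply mul_left_cancel₀ hk0
        linear_combination f2' - f2
      have e7 : v = v' := (pow_left_inj₀ hv.le hv'.le (by norm_num)).1 e5
      have e8 : u = u' := (pow_left_inj₀ hu.le hu'.le (by norm_num)).1 e6
      rw [ew, ez, e7, e8]
    · by_cases hy1 : u ^ 2 * v' ^ 2 - u' ^ 2 * v ^ 2 = 0
      · obtain ⟨eu, ev⟩ := pair_eq hu hv hu' hv' hc1 hc1' hy1
        rw [← eu, ← ev] at f3' f4'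
        have e5 : z ^ 2 = z' ^ 2 := by
          apply mul_left_cancel₀ hm0
          linear_combination f3' - f3
        have e6 : w ^ 2 = w' ^ 2 := by
          apply mul_left_cancel₀ hm0
          linear_combination f4 - f4'
        have e7 : z = z' := (pow_left_inj₀ hz.le hz'.le (by norm_num)).1 e5
        have e8 : w = w' := (pow_left_inj₀ hw.le hw'.le (by norm_num)).1 e6
        rw [eu, ev, e7, e8]
      · exfalso
        obtain ⟨x, hxd⟩ : ∃ x, x = w ^ 2 * z' ^ 2 - w' ^ 2 * z ^ 2 := ⟨_, rfl⟩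
        obtain ⟨y, hyd⟩ : ∃ y, y = u ^ 2 * v' ^ 2 - u' ^ 2 * v ^ 2 := ⟨_, rfl⟩
        rw [← hxd] at hx1
        rw [← hyd] at hy1
        have dk : k ∣ G * x := by
          refine gdvd hk0 hG ⟨-(v ^ 2 * z' ^ 2) + v' ^ 2 * z ^ 2, ?_⟩ ⟨v ^ 2 * w' ^ 2 - v' ^ 2 * w ^ 2, ?_⟩
            ⟨u ^ 2 * z' ^ 2 - u' ^ 2 * z ^ 2, ?_⟩ ⟨-(u ^ 2 * w' ^ 2) + u' ^ 2 * w ^ 2, ?_⟩
          · rw [hxd]; linear_combination z' ^ 2 * f1 - z ^ 2 * f1'
          · rw [hxd]; linear_combination w ^ 2 * f1' - w' ^ 2 * f1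
          · rw [hxd]; linear_combination z' ^ 2 * f2 - z ^ 2 * f2'
          · rw [hxd]; linear_combination w ^ 2 * f2' - w' ^ 2 * f2
        have dm : m ∣ G * y := by
          refine gdvd hm0 hG ⟨z ^ 2 * v' ^ 2 - z' ^ 2 * v ^ 2, ?_⟩ ⟨-(w ^ 2 * v' ^ 2) + w' ^ 2 * v ^ 2, ?_⟩
            ⟨z' ^ 2 * u ^ 2 - z ^ 2 * u' ^ 2, ?_⟩ ⟨w ^ 2 * u' ^ 2 - w' ^ 2 * u ^ 2, ?_⟩
          · rw [hyd]; linear_combination v' ^ 2 * f3 - v ^ 2 * f3'
          · rw [hyd]; linear_combination v' ^ 2 * f4 - v ^ 2 * f4'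
          · rw [hyd]; linear_combination u ^ 2 * f3' - u' ^ 2 * f3
          · rw [hyd]; linear_combination u ^ 2 * f4' - u' ^ 2 * f4
        have hGp : (0 : ℤ) < G := by exact_mod_cast Nat.pos_of_ne_zero hG0
        have bx : |x| < ((W : ℤ) * Z) ^ 2 := by rw [hxd]; exact diff_lt hw hz hw' hz' hwW hzZ hwW' hzZ'
        have by1 : |y| < ((U : ℤ) * Y) ^ 2 := by rw [hyd]; exact diff_lt hu hv hu' hv' huU hvY huU' hvY'
        have ak : |k| ≤ G * |x| := by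
          have h1 : (G : ℤ) * x ≠ 0 := mul_ne_zero hGp.ne' hx1
          have h2 := Int.le_of_dvd (abs_pos.2 h1) ((abs_dvd_abs _ _).2 dk)
          rwa [abs_mul, abs_of_pos hGp] at h2
        have am : |m| ≤ G * |y| := by
          have h1 : (G : ℤ) * y ≠ 0 := mul_ne_zero hGp.ne' hy1
          have h2 := Int.le_of_dvd (abs_pos.2 h1) ((abs_dvd_abs _ _).2 dm)
          rwa [abs_mul, abs_of_pos hGp] at h2
        have bk : |k| < G * ((W : ℤ) * Z) ^ 2 := ak.trans_lt (mul_lt_mul_of_pos_left bx hGp)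
        have bm : |m| < G * ((U : ℤ) * Y) ^ 2 := am.trans_lt (mul_lt_mul_of_pos_left by1 hGp)
        have hfin : |Δ| < (G * ((W : ℤ) * Z) ^ 2) * (G * ((U : ℤ) * Y) ^ 2) := by
          rw [← kl, abs_mul]
          exact mul_lt_mul'' bk bm (abs_nonneg _) (abs_nonneg _)
        have e9 : (G * ((W : ℤ) * Z) ^ 2) * (G * ((U : ℤ) * Y) ^ 2) =
            (G : ℤ) ^ 2 * ((U : ℤ) * Y * W * Z) ^ 2 := by ring
        rw [e9] at hfin
        exact absurd hbig (not_le.2 hfin)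
  have hcard : F.card ≤ S.card := Finset.card_le_card_of_injOn κ hmaps fun q hq q' hq' h => hinj q hq q' hq' h
  have hxr : (1 : ℝ) ≤ X := by exact_mod_cast hX
  have hxr0 : (0 : ℝ) ≤ X := by linarith
  have hdiv : (Δ.natAbs.divisors.card : ℝ) ≤ K2 * 2 ^ (ε / 2) * (X : ℝ) ^ ε := by
    have h1 := hd Δ.natAbs (Nat.one_le_iff_ne_zero.2 (Int.natAbs_ne_zero.2 hΔ))
    refine h1.trans ?_
    have h2 : (Δ.natAbs : ℝ) ≤ 2 * (X : ℝ) ^ 2 := by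
      have h3 : ((Δ.natAbs : ℕ) : ℤ) ≤ 2 * (X : ℤ) ^ 2 := by
        rw [Int.natCast_natAbs]; exact hΔX
      exact_mod_cast h3
    have h4 : (Δ.natAbs : ℝ) ^ (ε / 2) ≤ (2 * (X : ℝ) ^ 2) ^ (ε / 2) :=
      Real.rpow_le_rpow (Nat.cast_nonneg _) h2 (by positivity)
    have h5 : (2 * (X : ℝ) ^ 2) ^ (ε / 2) = 2 ^ (ε / 2) * (X : ℝ) ^ ε := by
      rw [Real.mul_rpow (by norm_num) (by positivity), ← Real.rpow_natCast (X : ℝ) 2,
        ← Real.rpow_mul hxr0]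
      congr 2
      push_cast
      ring
    rw [h5] at h4
    calc K2 * (Δ.natAbs : ℝ) ^ (ε / 2) ≤ K2 * (2 ^ (ε / 2) * (X : ℝ) ^ ε) :=
          mul_le_mul_of_nonneg_left h4 hK2.le
      _ = _ := by ring
  calc (F.card : ℝ) ≤ S.card := by exact_mod_cast hcard
    _ ≤ 2 * (Δ.natAbs.divisors.card : ℝ) := hScard
    _ ≤ 2 * (K2 * 2 ^ (ε / 2) * (X : ℝ) ^ ε) := mul_le_mul_of_nonneg_left hdiv (by norm_num)
    _ = _ := by ring

end H38.HE
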