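import Pool.Agent.H38.HE.Core1
import Pool.Agent.H38.HE.LemU

/-!
The number of points over one restriction to the last six pairs.
-/

set_option autoImplicit false

open Finset

namespace H38.HE

open H38.HC H38.HD

theorem prod_box {e z : V → ℕ} (h : Box e z) : ∏ u, z u ≤ 2 ^ (∑ u, e u + 16) := by
  have h1 : ∏ u, z u ≤ ∏ u, 2 ^ (e u + 1) := prod_le_prod' fun u _ => (h u).2.le
  refine h1.trans (le_of_eq ?_)
  rw [prod_pow_eq_pow_sum, sum_add_distrib]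
  congr 2

theorem R_lower {v : Fin 8 → V} (hv : Enum v) (hi : Inj v) {e z : V → ℕ} (h : Box e z) :
    2 ^ (∑ u, e u) ≤ (∏ u, rest2 (v 0) (v 1) z u) *
      2 ^ (e (v 0) + e (comp (v 0)) + (e (v 1) + e (comp (v 1)))) := by
  have h1 : 2 ^ (∑ u, e u) = ∏ i, (2 ^ e (v i) * 2 ^ e (comp (v i))) := by
    rw [← prod_pow_eq_pow_sum, hv (fun u => 2 ^ e u)]
  have h2 : ∀ i : Fin 8, 2 ≤ i.val → 2 ^ e (v i) * 2 ^ e (comp (v i)) ≤
      rest2 (v 0) (v 1) z (v i) * rest2 (v 0) (v 1) z (comp (v i)) := by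
    intro i hi'
    obtain ⟨a, b⟩ := (rest2_at hi z i).1 hi'
    rw [a, b]
    exact Nat.mul_le_mul (h _).1 (h _).1
  have r0 := (rest2_at hi z 0).2 (by norm_num)
  have r1 := (rest2_at hi z 1).2 (by norm_num)
  have k2 := h2 2 (by norm_num)
  have k3 := h2 3 (by norm_num)
  have k4 := h2 4 (by norm_num)
  have k5 := h2 5 (by norm_num)
  have k6 := h2 6 (by norm_num)
  have k7 := h2 7 (by norm_num)
  have h3 : 2 ^ (e (v 0) + e (comp (v 0)) + (e (v 1) + e (comp (v 1)))) =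
      (2 ^ e (v 0) * 2 ^ e (comp (v 0))) * (2 ^ e (v 1) * 2 ^ e (comp (v 1))) := by
    rw [pow_add, pow_add, pow_add]
  rw [h1, hv, h3, Fin.prod_univ_eight, Fin.prod_univ_eight, r0.1, r0.2, r1.1, r1.2]
  obtain ⟨b0, hb0⟩ : ∃ b, b = 2 ^ e (v 0) * 2 ^ e (comp (v 0)) := ⟨_, rfl⟩
  obtain ⟨b1, hb1⟩ : ∃ b, b = 2 ^ e (v 1) * 2 ^ e (comp (v 1)) := ⟨_, rfl⟩
  rw [← hb0, ← hb1]
  rw [one_mul, one_mul, one_mul]
  have k := Nat.mul_le_mul (Nat.mul_le_mul (Nat.mul_le_mul (Nat.mul_le_mul (Nat.mul_le_mul k2 k3)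
    k4) k5) k6) k7
  refine le_trans (le_of_eq ?_) (Nat.mul_le_mul_right (b0 * b1) k)
  ring

theorem coef_eq {v1 v2 : V} {z z' : V → ℕ} (h : rest2 v1 v2 z = rest2 v1 v2 z') :
    cA v1 v2 (rest13 v1 v2 z) = cA v1 v2 (rest13 v1 v2 z') ∧
    cB v1 v2 (rest13 v1 v2 z) = cB v1 v2 (rest13 v1 v2 z') ∧
    cC v1 v2 (rest13 v1 v2 z) = cC v1 v2 (rest13 v1 v2 z') ∧
    cD v1 v2 (rest13 v1 v2 z) = cD v1 v2 (rest13 v1 v2 z') := by
  have hP : ∀ j, P2 v1 v2 z j = P2 v1 v2 z' j := fun j => by rw [P2, P2, h]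
  have hQ : ∀ j, Q2 v1 v2 z j = Q2 v1 v2 z' j := fun j => by rw [Q2, Q2, h]
  refine ⟨?_, ?_, ?_, ?_⟩
  · simp only [cA, Ph_eq, hP]
  · simp only [cB, Ph_eq, hP]
  · simp only [cC, Qh_eq, hQ]
  · simp only [cD, Qh_eq, hQ]

theorem gv_pos {v : Fin 8 → V} (hv : Enum v) {z : V → ℕ} (h : Good z) :
    1 ≤ gv (vec v z 2) := by
  rcases Nat.eq_zero_or_pos (gv (vec v z 2)) with h0 | h0
  · exfalso
    have h1 : ∀ t, vec v z 2 t = 0 := by
      intro t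
      have := gv_dvd (vec v z 2) t
      rw [h0] at this
      exact zero_dvd_iff.1 (by simpa using this)
    have h2 : ∀ b t, cf v z 1 b t = 0 := by
      intro b t
      rcases cf_eq v z 1 b t with h3 | ⟨t', h3⟩
      · exact h3
      · rw [h3]; exact h1 t'
    obtain ⟨t, t', ht⟩ := nonprop hv h 1 (by norm_num)
    apply ht
    rw [h2, h2, h2]
    simp
  · exact h0

theorem rk_zero {v : Fin 8 → V} (z : V → ℕ) : rk v 0 z = z := by
  funext u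
  unfold rk
  rw [if_neg]
  rintro ⟨i, hi, -⟩
  omega

theorem eq_of {v : Fin 8 → V} {z z' : V → ℕ} (h : rk v 2 z = rk v 2 z')
    (h0 : z (v 0) = z' (v 0)) (h1 : z (comp (v 0)) = z' (comp (v 0)))
    (h2 : z (v 1) = z' (v 1)) (h3 : z (comp (v 1)) = z' (comp (v 1))) : z = z' := by
  have a := rk_inj (v := v) (z := z) (z' := z') (1 : Fin 8) h h2 h3
  have b := rk_inj (v := v) (z := z) (z' := z') (0 : Fin 8) a h0 h1
  have c : rk v 0 z = rk v 0 z' := b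
  rwa [rk_zero, rk_zero] at c

theorem rest13_of {v1 v2 : V} {z z' : V → ℕ} (h : rest2 v1 v2 z = rest2 v1 v2 z')
    (h3 : z (comp v2) = z' (comp v2)) : rest13 v1 v2 z = rest13 v1 v2 z' := by
  funext u
  have hu := congrFun h u
  unfold rest2 rest at hu
  unfold rest13
  by_cases a : u = v1
  · simp [a]
  · by_cases b : u = comp v1
    · simp [b]
    · by_cases c : u = v2
      · simp [c]
      · by_cases d : u = comp v2
        · rw [d]; split_ifs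
          · rfl
          · exact h3
        · simpa [a, b, c, d] using hu

theorem PQ_le {v1 v2 : V} {z : V → ℕ} (hz : ∀ u, 0 < z u) (j : Fin 4) :
    P2 v1 v2 z j ≤ ∏ u, z u ∧ Q2 v1 v2 z j ≤ ∏ u, z u := by
  have h1 : ∏ u, rest2 v1 v2 z u ≤ ∏ u, z u := by
    refine prod_le_prod' fun u _ => ?_
    have := hz u
    unfold rest2 rest
    split_ifs <;> omega
  have h2 := P2Q2 v1 v2 z j
  have h3 := P2_pos z hz v1 v2 j
  have h4 := Q2_pos z hz v1 v2 j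
  constructor
  · exact (Nat.le_mul_of_pos_right _ h4).trans (h2.le.trans h1)
  · exact (Nat.le_mul_of_pos_left _ h3).trans (h2.le.trans h1)

theorem fib (ε : ℝ) (hε : 0 < ε) : ∃ K : ℝ, 0 < K ∧ ∀ N : ℕ, 1 ≤ N → ∀ v : Fin 8 → V, Enum v →
    Inj v → ∀ (e : V → ℕ) (F : Finset (V → ℕ)), (∀ z ∈ F, Good z ∧ Box e z) →
    2 ^ (2 * (∑ u, e u) + 40) ≤ N → ∀ z0 ∈ F, ∀ F' : Finset (V → ℕ),
    (∀ z ∈ F', z ∈ F ∧ rk v 2 z = rk v 2 z0) →
    1 ≤ gv (vec v (rk v 2 z0) 2) ∧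
    (F'.card : ℝ) ≤ K * (N : ℝ) ^ ε * ((2 ^ e (comp (v 1)) : ℕ) : ℝ) ∧
    ((F'.card : ℝ) ≤ K * (N : ℝ) ^ ε ∨
      2 ^ (∑ u, e u) < gv (vec v (rk v 2 z0) 2) ^ 2 *
        2 ^ (3 * (e (v 0) + e (comp (v 0)) + (e (v 1) + e (comp (v 1)))) + 8)) := by
  classical
  obtain ⟨K1, hK1, hU⟩ := lemU ε hε
  obtain ⟨K2, hK2, hB⟩ := b2 ε hε
  refine ⟨K1 + K2, by positivity, fun N hN v hv hi e F hF hNe z0 hz0 F' hF' => ?_⟩
  obtain ⟨hg0, hb0⟩ := hF z0 hz0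
  have hNr : (0 : ℝ) ≤ (N : ℝ) ^ ε := by positivity
  have hvec : vec v (rk v 2 z0) 2 = vec v z0 2 := funext fun t => vec_rk hi z0 2 t
  have g1 : v 1 ≠ v 0 := (hi 1 0 (by decide)).1
  have g2 : v 1 ≠ comp (v 0) := (hi 1 0 (by decide)).2
  have hprod : ∀ z ∈ F, ∏ u, z u ≤ 2 ^ (∑ u, e u + 16) := fun z hz => prod_box (hF z hz).2
  have hprodN : ∀ z ∈ F, ∏ u, z u ≤ N := fun z hz => (hprod z hz).trans
    ((Nat.pow_le_pow_right (by norm_num) (by omega)).trans hNe)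
  have hr2 : ∀ z ∈ F', rest2 (v 0) (v 1) z = rest2 (v 0) (v 1) z0 := fun z hz => by
    rw [← rk2_eq, ← rk2_eq]
    exact (hF' z hz).2
  rw [hvec]
  refine ⟨gv_pos hv hg0, ?_, ?_⟩
  · -- fibres of the cell comp (v 1)
    have hmaps : ∀ z ∈ F', z (comp (v 1)) ∈
        Ico (2 ^ e (comp (v 1))) (2 ^ (e (comp (v 1)) + 1)) := by
      intro z hz
      rw [mem_Ico]
      exact (hF z (hF' z hz).1).2 _
    have h1 : (F'.card : ℝ) = ∑ w ∈ Ico (2 ^ e (comp (v 1))) (2 ^ (e (comp (v 1)) + 1)),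
        ((F'.filter fun z => z (comp (v 1)) = w).card : ℝ) := by
      rw [card_eq_sum_card_fiberwise hmaps]
      push_cast
      rfl
    have h2 : ∀ w ∈ Ico (2 ^ e (comp (v 1))) (2 ^ (e (comp (v 1)) + 1)),
        ((F'.filter fun z => z (comp (v 1)) = w).card : ℝ) ≤ K2 * (N : ℝ) ^ ε := by
      intro w _
      rcases (F'.filter fun z => z (comp (v 1)) = w).eq_empty_or_nonempty with hE | ⟨y, hy⟩
      · rw [hE]
        simp only [card_empty, Nat.cast_zero]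
        positivity
      · rw [mem_filter] at hy
        refine hB N hN (v 0) (v 1) g1 g2 (rest13 (v 0) (v 1) y) _ fun z hz => ?_
        rw [mem_filter] at hz
        refine ⟨(hF z (hF' z hz.1).1).1, hprodN z (hF' z hz.1).1, ?_⟩
        apply rest13_of
        · rw [hr2 z hz.1, hr2 y hy.1]
        · rw [hz.2, hy.2]
    rw [h1]
    refine (sum_le_card_nsmul _ _ _ h2).trans ?_
    rw [Nat.card_Ico, nsmul_eq_mul]
    have h3 : 2 ^ (e (comp (v 1)) + 1) - 2 ^ e (comp (v 1)) = 2 ^ e (comp (v 1)) := by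
      rw [pow_succ]; omega
    rw [h3]
    have h4 : (0 : ℝ) ≤ ((2 ^ e (comp (v 1)) : ℕ) : ℝ) := Nat.cast_nonneg _
    calc ((2 ^ e (comp (v 1)) : ℕ) : ℝ) * (K2 * (N : ℝ) ^ ε)
        = K2 * (N : ℝ) ^ ε * ((2 ^ e (comp (v 1)) : ℕ) : ℝ) := by ring
      _ ≤ (K1 + K2) * (N : ℝ) ^ ε * ((2 ^ e (comp (v 1)) : ℕ) : ℝ) := by
          apply mul_le_mul_of_nonneg_right _ h4
          apply mul_le_mul_of_nonneg_right _ hNr
          linarith
  · obtain ⟨A, hA⟩ : ∃ A, A = cA (v 0) (v 1) (rest13 (v 0) (v 1) z0) := ⟨_, rfl⟩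
    obtain ⟨B, hB'⟩ : ∃ B, B = cB (v 0) (v 1) (rest13 (v 0) (v 1) z0) := ⟨_, rfl⟩
    obtain ⟨C, hC⟩ : ∃ C, C = cC (v 0) (v 1) (rest13 (v 0) (v 1) z0) := ⟨_, rfl⟩
    obtain ⟨D, hD⟩ : ∃ D, D = cD (v 0) (v 1) (rest13 (v 0) (v 1) z0) := ⟨_, rfl⟩
    obtain ⟨-, hnd, -, -⟩ := good_nd hg0 g1 g2 _ rfl
    rw [← hA, ← hB', ← hC, ← hD] at hnd
    obtain ⟨G, hG⟩ : ∃ G, G = gv (vec v z0 2) := ⟨_, rfl⟩
    have hG1 : 1 ≤ G := hG ▸ gv_pos hv hg0
    rw [← hG]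
    have hGm : ∀ m : ℤ, m ∣ A → m ∣ B → m ∣ C → m ∣ D → m ∣ G := by
      intro m a b c d
      rw [hG]
      apply dvd_gv
      intro t
      rcases vec_two hv hi z0 t with h | h | h | h
      · rw [h, ← hA]; exact a
      · rw [h, ← hB']; exact b
      · rw [h, ← hC]; exact c
      · rw [h, ← hD]; exact d
    have hsz : 4 * (2 ^ (∑ u, e u + 16)) ^ 2 ≤ N := by
      have h9 : ∀ n : ℕ, 4 * (2 ^ (n + 16)) ^ 2 ≤ 2 ^ (2 * n + 40) := by
        intro n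
        have h8 : 4 * (2 ^ (n + 16)) ^ 2 = 2 ^ (2 * n + 34) := by
          rw [← pow_mul]
          have h7 : (2 : ℕ) ^ (2 * n + 34) = 2 ^ 2 * 2 ^ ((n + 16) * 2) := by
            rw [← pow_add]
            congr 1
            ring
          rw [h7]
          norm_num
        rw [h8]
        exact Nat.pow_le_pow_right (by norm_num) (by omega)
      exact (h9 _).trans hNe
    have hszZ : (((4 * (2 ^ (∑ u, e u + 16)) ^ 2 : ℕ)) : ℤ) ≤ N := by exact_mod_cast hsz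
    have hPle : ∀ j, P2 (v 0) (v 1) z0 j ≤ 2 ^ (∑ u, e u + 16) := fun j =>
      (PQ_le hg0.1 j).1.trans (hprod z0 hz0)
    have hQle : ∀ j, Q2 (v 0) (v 1) z0 j ≤ 2 ^ (∑ u, e u + 16) := fun j =>
      (PQ_le hg0.1 j).2.trans (hprod z0 hz0)
    have eA : A = ∑ j, if sg (v 0) (v 1) j = true then
        (![1, -1, -1, 1] : Fin 4 → ℤ) j * (P2 (v 0) (v 1) z0 j : ℤ) ^ 2 else 0 := by
      rw [hA]; simp only [cA, Ph_eq]
    have eB : B = ∑ j, if sg (v 0) (v 1) j = true then 0 else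
        (![1, -1, -1, 1] : Fin 4 → ℤ) j * (P2 (v 0) (v 1) z0 j : ℤ) ^ 2 := by
      rw [hB']; simp only [cB, Ph_eq]
    have eC : C = ∑ j, if sg (v 0) (v 1) j = true then 0 else
        (![1, -1, -1, 1] : Fin 4 → ℤ) j * (Q2 (v 0) (v 1) z0 j : ℤ) ^ 2 := by
      rw [hC]; simp only [cC, Qh_eq]
    have eD : D = ∑ j, if sg (v 0) (v 1) j = true then
        (![1, -1, -1, 1] : Fin 4 → ℤ) j * (Q2 (v 0) (v 1) z0 j : ℤ) ^ 2 else 0 := by
      rw [hD]; simp only [cD, Qh_eq]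
    have bA : |A| ≤ N := by rw [eA]; exact (abs_sum4 _ _ _ hPle).1.trans hszZ
    have bB : |B| ≤ N := by rw [eB]; exact (abs_sum4 _ _ _ hPle).2.trans hszZ
    have bC : |C| ≤ N := by rw [eC]; exact (abs_sum4 _ _ _ hQle).2.trans hszZ
    have bD : |D| ≤ N := by rw [eD]; exact (abs_sum4 _ _ _ hQle).1.trans hszZ
    obtain ⟨s1, s2⟩ := sg_exists g1 g2
    have hΔ : ((∏ u, rest2 (v 0) (v 1) z0 u : ℕ) : ℤ) ≤ |A * D - B * C| :=
      delta_lower (sg (v 0) (v 1)) s1 s2 (P2 (v 0) (v 1) z0) (Q2 (v 0) (v 1) z0) _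
        (P2_pos z0 hg0.1 _ _) (Q2_pos z0 hg0.1 _ _) (P2Q2 (v 0) (v 1) z0) A B C D eA eB eC eD hnd
    by_cases hbig : (G : ℤ) ^ 2 * (((2 ^ (e (v 0) + 1) : ℕ) : ℤ) *
        ((2 ^ (e (comp (v 0)) + 1) : ℕ) : ℤ) * ((2 ^ (e (v 1) + 1) : ℕ) : ℤ) *
        ((2 ^ (e (comp (v 1)) + 1) : ℕ) : ℤ)) ^ 2 ≤ |A * D - B * C|
    · left
      have hinj : Set.InjOn (fun z : V → ℕ => ((z (v 0) : ℤ), (z (comp (v 0)) : ℤ),
          (z (v 1) : ℤ), (z (comp (v 1)) : ℤ))) (F' : Set (V → ℕ)) := by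
        intro z hz z' hz' heq
        obtain ⟨a1, h⟩ := Prod.mk.inj heq
        obtain ⟨a2, h⟩ := Prod.mk.inj h
        obtain ⟨a3, a4⟩ := Prod.mk.inj h
        exact eq_of ((hF' z (mem_coe.1 hz)).2.trans (hF' z' (mem_coe.1 hz')).2.symm)
          (Int.natCast_inj.1 a1) (Int.natCast_inj.1 a2) (Int.natCast_inj.1 a3)
          (Int.natCast_inj.1 a4)
      have hcard := card_image_of_injOn hinj
      rw [← hcard]
      have hfin := hU N hN A B C D bA bB bC bD hnd G (by omega) hGm _ _ _ _ hbig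
        (F'.image fun z : V → ℕ => ((z (v 0) : ℤ), (z (comp (v 0)) : ℤ),
          (z (v 1) : ℤ), (z (comp (v 1)) : ℤ))) ?_
      · refine hfin.trans ?_
        apply mul_le_mul_of_nonneg_right _ hNr
        linarith
      · intro q hq
        rw [mem_image] at hq
        obtain ⟨z, hz, rfl⟩ := hq
        obtain ⟨hg, hb⟩ := hF z (hF' z hz).1
        have hrel := (good_nd hg g1 g2 _ rfl).1
        obtain ⟨c1, c2, c3, c4⟩ := coef_eq (hr2 z hz)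
        rw [c1, c2, c3, c4, ← hA, ← hB', ← hC, ← hD] at hrel
        dsimp only
        refine ⟨by exact_mod_cast hg.1 (v 0), by exact_mod_cast (hb (v 0)).2.le,
          by exact_mod_cast hg.1 (comp (v 0)), by exact_mod_cast (hb (comp (v 0))).2.le,
          by exact_mod_cast hg.1 (v 1), by exact_mod_cast (hb (v 1)).2.le,
          by exact_mod_cast hg.1 (comp (v 1)), by exact_mod_cast (hb (comp (v 1))).2.le,
          Nat.isCoprime_iff_coprime.2 (hg.2.1 (v 0)), Nat.isCoprime_iff_coprime.2 (hg.2.1 (v 1)),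
          hrel⟩
    · right
      rw [not_le] at hbig
      have hR := R_lower hv hi hb0
      have h1 : (2 : ℤ) ^ (∑ u, e u) ≤ ((∏ u, rest2 (v 0) (v 1) z0 u : ℕ) : ℤ) *
          2 ^ (e (v 0) + e (comp (v 0)) + (e (v 1) + e (comp (v 1)))) := by exact_mod_cast hR
      have h2 : ((∏ u, rest2 (v 0) (v 1) z0 u : ℕ) : ℤ) < (G : ℤ) ^ 2 *
          (2 ^ (e (v 0) + e (comp (v 0)) + (e (v 1) + e (comp (v 1))) + 4)) ^ 2 := by
        refine lt_of_le_of_lt hΔ (lt_of_lt_of_eq hbig ?_)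
        push_cast
        congr 2
        rw [← pow_add, ← pow_add, ← pow_add]
        congr 1
        ring
      have h3 : (2 : ℤ) ^ (∑ u, e u) < (G : ℤ) ^ 2 *
          2 ^ (3 * (e (v 0) + e (comp (v 0)) + (e (v 1) + e (comp (v 1)))) + 8) := by
        obtain ⟨Q, hQ⟩ : ∃ Q, Q = e (v 0) + e (comp (v 0)) + (e (v 1) + e (comp (v 1))) :=
          ⟨_, rfl⟩
        rw [← hQ] at h1 h2 ⊢
        have h4 : (0 : ℤ) < 2 ^ Q := by positivity
        calc (2 : ℤ) ^ (∑ u, e u) ≤ _ := h1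
          _ < (G : ℤ) ^ 2 * (2 ^ (Q + 4)) ^ 2 * 2 ^ Q := mul_lt_mul_of_pos_right h2 h4
          _ = (G : ℤ) ^ 2 * 2 ^ (3 * Q + 8) := by
              rw [← pow_mul, mul_assoc, ← pow_add]
              congr 2
              ring
      exact_mod_cast h3

end H38.HE
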