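import Pool.Agent.H38.HE.Defs

/-!
From the count of the good values in a dyadic box to the number of Hilbert cubes.
-/

set_option autoImplicit false

open Finset

namespace H38.HE

open H38.HC H38.HD

/-- the exponents of the dyadic boxes -/
private def EN (N : ℕ) : Finset (V → ℕ) :=
  (Fintype.piFinset fun _ : V => range (Nat.log 2 N + 1)).filter fun e => 2 ^ (∑ u, e u) ≤ N

open Classical in
/-- the good values in a dyadic box -/
private noncomputable def GB (e : V → ℕ) : Finset (V → ℕ) :=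
  (Fintype.piFinset fun u : V => Ico (2 ^ e u) (2 ^ (e u + 1))).filter fun z => Good z

private theorem mem_GB {e z : V → ℕ} (h : z ∈ GB e) : Good z ∧ Box e z := by
  classical
  rw [GB, mem_filter, Fintype.mem_piFinset] at h
  exact ⟨h.2, fun u => mem_Ico.1 (h.1 u)⟩

private theorem card_pos_le (N : ℕ) : (Pos 0 N).ncard ≤
    ((EN N).sigma fun e => Icc 1 (Nat.sqrt (N / 2 ^ (∑ u, e u))) ×ˢ GB e).card := by
  classical
  rw [Set.ncard_eq_toFinset_card _ (finite_pos 0 N)]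
  refine card_le_card_of_forall_subsingleton (fun c k => Desc c k.2.1 k.2.2) ?_ ?_
  · intro c hc
    rw [Set.Finite.mem_toFinset] at hc
    obtain ⟨t, z, hd, hcop⟩ := exists_desc hc.1 hc.2
    obtain ⟨b1, b2⟩ := base_ne hc.1
    have hn : t ^ 2 * ∏ u, z u ≤ N := by
      have h1 := (hc.1.2.2.1 0).2
      have h2 := le_trans (le_abs_self _) h1
      rw [hd.n] at h2
      exact_mod_cast h2
    have ht : 1 ≤ t ^ 2 := Nat.one_le_pow _ _ hd.t0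
    have hnz : ∏ u, z u ≤ N := le_trans (Nat.le_mul_of_pos_left _ ht) hn
    have hzN : ∀ u, z u ≤ N := fun u =>
      le_trans (Nat.le_of_dvd (prod_pos fun u _ => hd.z0 u) (dvd_prod_of_mem z (mem_univ u))) hnz
    have hlog : ∀ u, 2 ^ Nat.log 2 (z u) ≤ z u := fun u =>
      Nat.pow_log_le_self 2 (hd.z0 u).ne'
    have hs : 2 ^ (∑ u, Nat.log 2 (z u)) ≤ ∏ u, z u := by
      rw [← prod_pow_eq_pow_sum]
      exact prod_le_prod' fun u _ => hlog u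
    refine ⟨⟨fun u => Nat.log 2 (z u), (t, z)⟩, ?_, hd⟩
    rw [mem_sigma]
    refine ⟨?_, ?_⟩
    · rw [EN, mem_filter, Fintype.mem_piFinset]
      refine ⟨fun u => ?_, hs.trans hnz⟩
      rw [mem_range]
      show Nat.log 2 (z u) < Nat.log 2 N + 1
      exact Nat.lt_succ_of_le (Nat.log_mono_right (hzN u))
    · rw [mem_product]
      refine ⟨?_, ?_⟩
      · rw [mem_Icc]
        refine ⟨hd.t0, ?_⟩
        rw [Nat.le_sqrt, Nat.le_div_iff_mul_le (by positivity)]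
        calc t * t * 2 ^ (∑ u, Nat.log 2 (z u)) ≤ t * t * ∏ u, z u :=
              Nat.mul_le_mul_left _ hs
          _ = t ^ 2 * ∏ u, z u := by ring
          _ ≤ N := hn
      · rw [GB, mem_filter, Fintype.mem_piFinset]
        refine ⟨fun u => mem_Ico.2 ⟨hlog u, Nat.lt_pow_succ_log_self (by norm_num) _⟩,
          hd.z0, hcop, hd.rel, hd.ne b1, hd.ne b2⟩
  · rintro ⟨e, t, z⟩ -
    rintro c ⟨-, h⟩ c' ⟨-, h'⟩
    refine ext3 (h.n.trans h'.n.symm) fun j => ?_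
    have := (h.b j).trans (h'.b j).symm
    linarith

private theorem card_box_le (δ K : ℝ) (hδ : 0 < δ) (hK : 0 < K)
    (hcore : ∀ (e : V → ℕ) (F : Finset (V → ℕ)), (∀ z ∈ F, Good z ∧ Box e z) →
      (F.card : ℝ) ≤ K * ((2 : ℝ) ^ (∑ u, e u)) ^ (3 / 4 + δ)) (N : ℕ) (hN : 1 ≤ N) (T : ℝ)
    (hT : ((Nat.log 2 N + 1 : ℕ) : ℝ) ≤ T) :
    ((Pos 0 N).ncard : ℝ) ≤ T ^ 16 * (K * (N : ℝ) ^ (3 / 4 + δ)) := by
  have hN0 : (0 : ℝ) < N := by exact_mod_cast hN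
  have h1 : ((Pos 0 N).ncard : ℝ) ≤
      (((EN N).sigma fun e => Icc 1 (Nat.sqrt (N / 2 ^ (∑ u, e u))) ×ˢ GB e).card : ℝ) := by
    exact_mod_cast card_pos_le N
  refine h1.trans ?_
  rw [card_sigma]
  push_cast
  have hb : ∀ e ∈ EN N, ((Icc 1 (Nat.sqrt (N / 2 ^ (∑ u, e u))) ×ˢ GB e).card : ℝ) ≤
      K * (N : ℝ) ^ (3 / 4 + δ) := by
    intro e he
    rw [EN, mem_filter] at he
    obtain ⟨n, hn⟩ : ∃ n : ℕ, n = 2 ^ (∑ u, e u) := ⟨_, rfl⟩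
    have hn0 : (0 : ℝ) < n := by rw [hn]; positivity
    have hnN : (n : ℝ) ≤ N := by rw [hn]; exact_mod_cast he.2
    have hg := hcore e (GB e) fun z hz => mem_GB hz
    have hn' : (2 : ℝ) ^ (∑ u, e u) = n := by rw [hn]; push_cast; rfl
    rw [hn'] at hg
    rw [card_product, Nat.card_Icc, Nat.add_sub_cancel, ← hn]
    push_cast
    have h2 : ((Nat.sqrt (N / n) : ℕ) : ℝ) ≤ ((N : ℝ) / n) ^ (3 / 4 + δ) := by
      calc ((Nat.sqrt (N / n) : ℕ) : ℝ) ≤ √(((N / n : ℕ) : ℝ)) := Real.nat_sqrt_le_real_sqrt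
        _ ≤ √((N : ℝ) / n) := Real.sqrt_le_sqrt Nat.cast_div_le
        _ = ((N : ℝ) / n) ^ (1 / 2 : ℝ) := Real.sqrt_eq_rpow _
        _ ≤ ((N : ℝ) / n) ^ (3 / 4 + δ) := by
            refine Real.rpow_le_rpow_of_exponent_le ?_ (by linarith)
            rwa [le_div_iff₀ hn0, one_mul]
    calc ((Nat.sqrt (N / n) : ℕ) : ℝ) * (#(GB e) : ℝ)
        ≤ ((N : ℝ) / n) ^ (3 / 4 + δ) * (K * (n : ℝ) ^ (3 / 4 + δ)) :=
          mul_le_mul h2 hg (Nat.cast_nonneg _) (by positivity)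
      _ = K * (((N : ℝ) / n) ^ (3 / 4 + δ) * (n : ℝ) ^ (3 / 4 + δ)) := by ring
      _ = K * (N : ℝ) ^ (3 / 4 + δ) := by
          rw [← Real.mul_rpow (by positivity) hn0.le, div_mul_cancel₀ _ hn0.ne']
  refine (sum_le_card_nsmul _ _ _ hb).trans ?_
  rw [nsmul_eq_mul]
  refine mul_le_mul_of_nonneg_right ?_ (by positivity)
  have h3 : (EN N).card ≤ (Nat.log 2 N + 1) ^ 16 := by
    refine (card_filter_le _ _).trans ?_
    rw [Fintype.card_piFinset, prod_const, card_range]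
    have h4 : (univ : Finset V).card = 16 := by simp
    rw [h4]
  calc ((EN N).card : ℝ) ≤ ((Nat.log 2 N + 1 : ℕ) : ℝ) ^ 16 := by exact_mod_cast h3
    _ ≤ T ^ 16 := pow_le_pow_left₀ (Nat.cast_nonneg _) hT 16

theorem from_core (hcore : ∀ ε : ℝ, 0 < ε → ∃ K : ℝ, 0 < K ∧ ∀ (e : V → ℕ)
      (F : Finset (V → ℕ)), (∀ z ∈ F, Good z ∧ Box e z) →
      (F.card : ℝ) ≤ K * ((2 : ℝ) ^ (∑ u, e u)) ^ (3 / 4 + ε))
    (d : ℕ) (hd : 3 ≤ d) (ε : ℝ) (hε : 0 < ε) : ∃ C : ℝ, ∀ N : ℕ, 1 ≤ N →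
      (Cubes d N).Finite ∧ ((Cubes d N).ncard : ℝ) ≤ C * (N : ℝ) ^ (3 / 4 + ε) := by
  obtain ⟨e, rfl⟩ : ∃ e, d = e + 3 := ⟨d - 3, by omega⟩
  obtain ⟨δ, hδ⟩ : ∃ δ : ℝ, δ = ε / (17 + (e + 3)) := ⟨_, rfl⟩
  have hδ0 : 0 < δ := hδ ▸ by positivity
  obtain ⟨C, hC, hdiv⟩ := Pool.Agent.H5.W.divisor_bound δ hδ0
  obtain ⟨K, hK, hcard⟩ := hcore δ hδ0
  refine ⟨2 * (C ^ 16 * C ^ (e + 3) * K), fun N hN => ⟨finite_cubes _ N, ?_⟩⟩
  have hN0 : (0 : ℝ) < N := by exact_mod_cast hN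
  obtain ⟨T, hT⟩ : ∃ T : ℝ, T = C * (N : ℝ) ^ δ := ⟨_, rfl⟩
  have hTb : ∀ m : ℕ, 1 ≤ m → m ≤ N → (m.divisors.card : ℝ) ≤ T := fun m h1 h2 => by
    rw [hT]
    refine (hdiv m h1).trans (mul_le_mul_of_nonneg_left ?_ hC.le)
    exact Real.rpow_le_rpow (by positivity) (by exact_mod_cast h2) hδ0.le
  have h1 := card_cubes_le e N
  have h2 := card_pos e N T hTb
  have hlog : ((Nat.log 2 N + 1 : ℕ) : ℝ) ≤ T := by
    have h3 := hTb (2 ^ Nat.log 2 N) (Nat.one_le_two_pow) (Nat.pow_log_le_self 2 (by omega))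
    rwa [Nat.divisors_prime_pow Nat.prime_two, card_map, card_range] at h3
  have h3 := card_box_le δ K hδ0 hK hcard N hN T hlog
  have hT0 : 0 ≤ T := by rw [hT]; positivity
  have h1' : ((Cubes (e + 3) N).ncard : ℝ) ≤ 2 * (Pos e N).ncard := by exact_mod_cast h1
  have hpow : T ^ 16 * T ^ (e + 3) * (N : ℝ) ^ δ = C ^ 16 * C ^ (e + 3) * (N : ℝ) ^ ε := by
    have h6 : ((N : ℝ) ^ δ) ^ (17 + (e + 3)) = (N : ℝ) ^ ε := by
      rw [← Real.rpow_natCast, ← Real.rpow_mul hN0.le]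
      congr 1
      rw [hδ]
      push_cast
      field_simp
    calc T ^ 16 * T ^ (e + 3) * (N : ℝ) ^ δ
        = C ^ 16 * C ^ (e + 3) * ((N : ℝ) ^ δ) ^ (17 + (e + 3)) := by rw [hT]; ring
      _ = _ := by rw [h6]
  have hsplit : ∀ x : ℝ, (N : ℝ) ^ (3 / 4 + x) = (N : ℝ) ^ (3 / 4 : ℝ) * (N : ℝ) ^ x := fun x =>
    Real.rpow_add hN0 _ _
  calc ((Cubes (e + 3) N).ncard : ℝ) ≤ 2 * (Pos e N).ncard := h1'
    _ ≤ 2 * ((Pos 0 N).ncard * T ^ (e + 3)) := by linarith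
    _ ≤ 2 * ((T ^ 16 * (K * (N : ℝ) ^ (3 / 4 + δ))) * T ^ (e + 3)) := by
        have := mul_le_mul_of_nonneg_right h3 (pow_nonneg hT0 (e + 3))
        linarith
    _ = 2 * (K * (T ^ 16 * T ^ (e + 3) * (N : ℝ) ^ δ) * (N : ℝ) ^ (3 / 4 : ℝ)) := by
        rw [hsplit δ]; ring
    _ = 2 * (C ^ 16 * C ^ (e + 3) * K) * ((N : ℝ) ^ (3 / 4 : ℝ) * (N : ℝ) ^ ε) := by
        rw [hpow]; ring
    _ = 2 * (C ^ 16 * C ^ (e + 3) * K) * (N : ℝ) ^ (3 / 4 + ε) := by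
        rw [← hsplit ε]

end H38.HE
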