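import Pool.Agent.H38.HC.Rigid

/-!
The eight pairs of complementary cells in the order of their sizes.
-/

set_option autoImplicit false

open Finset

namespace H38.HE

open H38.HC

private def bs (i : Fin 8) : V := fun j => if j = 0 then true else i.val.testBit (j.val - 1)

private theorem cc (u : V) : comp (comp u) = u := by
  funext j
  simp [comp]

private theorem bs_cover : ∀ w : V, ∃ i, w = bs i ∨ w = comp (bs i) := by decide

private theorem bs_ne : ∀ i j : Fin 8, i ≠ j → bs i ≠ bs j ∧ bs i ≠ comp (bs j) := by decide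

private theorem bij {v : Fin 8 → V} (h1 : ∀ w : V, ∃ i, w = v i ∨ w = comp (v i))
    (h2 : ∀ i j, i ≠ j → v i ≠ v j ∧ v i ≠ comp (v j)) :
    Function.Bijective fun p : Fin 8 × Bool => if p.2 = true then comp (v p.1) else v p.1 := by
  constructor
  · rintro ⟨i, a⟩ ⟨j, b⟩ h
    have hij : i = j := by
      by_contra hne
      obtain ⟨g1, g2⟩ := h2 i j hne
      have g2' : comp (v i) ≠ v j := fun g => g2 (by rw [← g, cc])
      have g1' : comp (v i) ≠ comp (v j) := fun g => g1 (by rw [← cc (v i), g, cc])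
      cases a <;> cases b <;> simp_all
    subst hij
    have hab : a = b := by
      have g := comp_ne (v i)
      cases a <;> cases b
      · rfl
      · exact absurd (show comp (v i) = v i from by simpa using h.symm) g
      · exact absurd (show comp (v i) = v i from by simpa using h) g
      · rfl
    rw [hab]
  · intro w
    obtain ⟨i, h | h⟩ := h1 w
    · exact ⟨(i, false), by simp [h]⟩
    · exact ⟨(i, true), by simp [h]⟩

theorem exists_order (e : V → ℕ) : ∃ v : Fin 8 → V,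
    (∀ w : V, ∃ i, w = v i ∨ w = comp (v i)) ∧
    (∀ i j, i ≠ j → v i ≠ v j ∧ v i ≠ comp (v j)) ∧
    (∀ i : Fin 8, 2 ≤ i.val → e (v i) + e (comp (v i)) ≤ e (v 0) + e (comp (v 0)) ∧
      e (v i) + e (comp (v i)) ≤ e (v 1) + e (comp (v 1))) ∧
    (∀ i j : Fin 8, 2 ≤ i.val → i ≤ j →
      e (v j) + e (comp (v j)) ≤ e (v i) + e (comp (v i))) ∧
    e (comp (v 1)) ≤ e (v 1) ∧ e (comp (v 1)) ≤ e (v 0) ∧ e (comp (v 1)) ≤ e (comp (v 0)) ∧
    (∀ F : V → ℕ, ∑ u, F u = ∑ i, (F (v i) + F (comp (v i)))) ∧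
    (∀ F : V → ℕ, ∏ u, F u = ∏ i, (F (v i) * F (comp (v i)))) := by
  classical
  obtain ⟨s, hs⟩ : ∃ s : V → ℕ, ∀ u, s u = e u + e (comp u) := ⟨_, fun u => rfl⟩
  have hsc : ∀ u, s (comp u) = s u := by
    intro u
    rw [hs, hs, cc, add_comm]
  obtain ⟨σ, hσ⟩ : ∃ σ : Equiv.Perm (Fin 8), ∀ i j, i ≤ j → s (bs (σ j)) ≤ s (bs (σ i)) := by
    refine ⟨Tuple.sort (fun i => OrderDual.toDual (s (bs i))), fun i j hij => ?_⟩
    exact Tuple.monotone_sort (fun i => OrderDual.toDual (s (bs i))) hij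
  obtain ⟨τ, fl, hτ0, hτ1, hτ2, hmin⟩ : ∃ (τ : Equiv.Perm (Fin 8)) (fl : Fin 8 → Bool),
      (τ 0 = 0 ∨ τ 0 = 1) ∧ (τ 1 = 0 ∨ τ 1 = 1) ∧ (∀ i : Fin 8, 2 ≤ i.val → τ i = i) ∧
      ∀ v : Fin 8 → V, (∀ i, v i = if fl i = true then comp (bs (σ (τ i))) else bs (σ (τ i))) →
        e (comp (v 1)) ≤ e (v 1) ∧ e (comp (v 1)) ≤ e (v 0) ∧ e (comp (v 1)) ≤ e (comp (v 0)) := by
    obtain ⟨w0, hw0⟩ : ∃ w, w = bs (σ 0) := ⟨_, rfl⟩
    obtain ⟨w1, hw1⟩ : ∃ w, w = bs (σ 1) := ⟨_, rfl⟩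
    have hsw : ∀ i : Fin 8, 2 ≤ i.val → Equiv.swap (0 : Fin 8) 1 i = i := by
      intro i hi
      refine Equiv.swap_apply_of_ne_of_ne ?_ ?_
      · rintro rfl
        simp at hi
      · rintro rfl
        simp at hi
    have hcase : (e (comp w1) ≤ e w1 ∧ e (comp w1) ≤ e w0 ∧ e (comp w1) ≤ e (comp w0)) ∨
        (e w1 ≤ e (comp w1) ∧ e w1 ≤ e w0 ∧ e w1 ≤ e (comp w0)) ∨
        (e (comp w0) ≤ e w0 ∧ e (comp w0) ≤ e w1 ∧ e (comp w0) ≤ e (comp w1)) ∨
        (e w0 ≤ e (comp w0) ∧ e w0 ≤ e w1 ∧ e w0 ≤ e (comp w1)) := by omega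
    rcases hcase with h | h | h | h
    · refine ⟨1, fun _ => false, by simp, by simp, by simp, fun v hv => ?_⟩
      have h1 : v 1 = w1 := by rw [hv, hw1]; simp
      have h0 : v 0 = w0 := by rw [hv, hw0]; simp
      rw [h1, h0]
      exact h
    · refine ⟨1, fun i => decide (i = 1), by simp, by simp, by simp, fun v hv => ?_⟩
      have h1 : v 1 = comp w1 := by rw [hv, hw1]; simp
      have h0 : v 0 = w0 := by rw [hv, hw0]; simp
      rw [h1, h0, cc]
      exact h
    · refine ⟨Equiv.swap 0 1, fun _ => false, by simp, by simp, hsw, fun v hv => ?_⟩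
      have h1 : v 1 = w0 := by rw [hv, hw0]; simp
      have h0 : v 0 = w1 := by rw [hv, hw1]; simp
      rw [h1, h0]
      exact h
    · refine ⟨Equiv.swap 0 1, fun i => decide (i = 1), by simp, by simp, hsw, fun v hv => ?_⟩
      have h1 : v 1 = comp w0 := by rw [hv, hw0]; simp
      have h0 : v 0 = w1 := by rw [hv, hw1]; simp
      rw [h1, h0, cc]
      exact h
  obtain ⟨v, hv⟩ : ∃ v : Fin 8 → V, ∀ i, v i = if fl i = true then comp (bs (σ (τ i))) else bs (σ (τ i)) :=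
    ⟨_, fun i => rfl⟩
  have hv2 : ∀ i, v i = bs (σ (τ i)) ∨ v i = comp (bs (σ (τ i))) := by
    intro i
    rw [hv i]
    split_ifs
    · exact Or.inr rfl
    · exact Or.inl rfl
  have hsv : ∀ i, e (v i) + e (comp (v i)) = s (bs (σ (τ i))) := by
    intro i
    rw [← hs]
    rcases hv2 i with h | h
    · rw [h]
    · rw [h, hsc]
  have c1 : ∀ w : V, ∃ i, w = v i ∨ w = comp (v i) := by
    intro w
    obtain ⟨i0, hi0⟩ := bs_cover w
    refine ⟨τ.symm (σ.symm i0), ?_⟩
    have h1 := hv2 (τ.symm (σ.symm i0))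
    rw [Equiv.apply_symm_apply, Equiv.apply_symm_apply] at h1
    rcases h1 with h1 | h1
    · rw [h1]
      exact hi0
    · rw [h1, cc]
      exact hi0.symm
  have c2 : ∀ i j, i ≠ j → v i ≠ v j ∧ v i ≠ comp (v j) := by
    intro i j hij
    have hne : σ (τ i) ≠ σ (τ j) := fun h => hij (τ.injective (σ.injective h))
    obtain ⟨g1, g2⟩ := bs_ne _ _ hne
    have g2' : comp (bs (σ (τ i))) ≠ bs (σ (τ j)) := fun g => g2 (by rw [← g, cc])
    have g1' : comp (bs (σ (τ i))) ≠ comp (bs (σ (τ j))) := fun g => g1 (by rw [← cc (bs (σ (τ i))), g, cc])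
    rcases hv2 i with h | h <;> rcases hv2 j with h' | h' <;> rw [h, h'] <;> (try rw [cc]) <;>
      constructor <;> assumption
  have hbij := bij c1 c2
  obtain ⟨m1, m2, m3⟩ := hmin v hv
  refine ⟨v, c1, c2, ?_, ?_, m1, m2, m3, ?_, ?_⟩
  · intro i hi
    rw [hsv, hsv, hsv, hτ2 i hi]
    have a0 := hσ 0 i (Fin.zero_le i)
    have a1 := hσ 1 i (by
      rw [Fin.le_def]
      have : ((1 : Fin 8) : ℕ) = 1 := rfl
      omega)
    constructor
    · rcases hτ0 with h | h <;> rw [h] <;> assumption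
    · rcases hτ1 with h | h <;> rw [h] <;> assumption
  · intro i j hi hij
    have hj : 2 ≤ j.val := le_trans hi hij
    rw [hsv, hsv, hτ2 i hi, hτ2 j hj]
    exact hσ i j hij
  · intro F
    rw [← Function.Bijective.sum_comp hbij F, Fintype.sum_prod_type]
    refine sum_congr rfl fun i _ => ?_
    rw [Fintype.sum_bool]
    simp [add_comm]
  · intro F
    rw [← Function.Bijective.prod_comp hbij F, Fintype.prod_prod_type]
    refine prod_congr rfl fun i _ => ?_
    rw [Fintype.prod_bool]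
    simp [mul_comm]

end H38.HE
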