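import Pool.Agent.H38.HE.Core2
import Pool.Agent.H38.HE.Order
import Pool.Agent.H38.HE.From

/-!
The bound for one dyadic box, and the final bound, from the statement of lemL.
-/

set_option autoImplicit false

open Finset

namespace H38.HE

open H38.HC H38.HD

/-- size of the dyadic box of the pair `k` -/
noncomputable def bx (v : Fin 8 → V) (e : V → ℕ) (k : Fin 8) : ℝ :=
  ((2 ^ e (v k) : ℕ) : ℝ) * ((2 ^ e (comp (v k)) : ℕ) : ℝ)

theorem bx_pos (v : Fin 8 → V) (e : V → ℕ) (k : Fin 8) : 0 < bx v e k := by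
  unfold bx; positivity

theorem bx_eq (v : Fin 8 → V) (e : V → ℕ) (k : Fin 8) :
    bx v e k = (2 : ℝ) ^ (e (v k) + e (comp (v k))) := by
  unfold bx; push_cast; rw [pow_add]

theorem chain (hL : LStat) (ε : ℝ) (hε : 0 < ε) : ∃ K : ℝ, 0 < K ∧ ∀ N : ℕ, 1 ≤ N →
    ∀ v : Fin 8 → V, Enum v → Inj v → Sur v → ∀ (e : V → ℕ)
    (F : Finset (V → ℕ)), (∀ z ∈ F, Good z ∧ Box e z) →
    2 ^ (2 * (∑ u, e u) + 40) ≤ N → ∀ Λ : ℝ, 1 ≤ Λ →
    (∀ k : Fin 8, 2 ≤ k.val → k.val ≤ 6 → Λ ≤ bx v e k) →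
    Sm v F Λ 2 ≤ (K * (N : ℝ) ^ ε) ^ 5 *
      (bx v e 2 * bx v e 3 * bx v e 4 * bx v e 5 * bx v e 6 * bx v e 7) := by
  obtain ⟨K, hK, h⟩ := step hL ε hε
  refine ⟨K, hK, fun N hN v hv hi hs e F hF hNe Λ hΛ hΛb => ?_⟩
  have hcf : ∀ z ∈ F, ∀ (k : Fin 8) b t, |cf v z k b t| ≤ N := by
    intro z hz k b t
    refine (cf_le v hv (hF z hz).1.1 k b t).trans ?_
    have h1 : 8 * (∏ u, z u) ^ 2 ≤ N := by
      have h2 := prod_box (hF z hz).2
      have h9 : ∀ n : ℕ, 8 * (2 ^ (n + 16)) ^ 2 ≤ 2 ^ (2 * n + 40) := by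
        intro n
        have h8 : 8 * (2 ^ (n + 16)) ^ 2 = 2 ^ (2 * n + 35) := by
          rw [← pow_mul]
          have h7 : (2 : ℕ) ^ (2 * n + 35) = 2 ^ 3 * 2 ^ ((n + 16) * 2) := by
            rw [← pow_add]
            congr 1
            ring
          rw [h7]
          norm_num
        rw [h8]
        exact Nat.pow_le_pow_right (by norm_num) (by omega)
      refine le_trans ?_ ((h9 _).trans hNe)
      exact Nat.mul_le_mul_left _ (Nat.pow_le_pow_left h2 2)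
    exact_mod_cast h1
  have hst : ∀ k : Fin 8, 2 ≤ k.val → k.val ≤ 6 →
      Sm v F Λ k.val ≤ K * (N : ℝ) ^ ε * bx v e k * Sm v F Λ (k.val + 1) := fun k h1 h2 =>
    h N hN v hv hi e k (by omega) F hF (fun z hz b t => hcf z hz k b t) Λ hΛ (hΛb k h1 h2)
  obtain ⟨M, hM⟩ : ∃ M, M = K * (N : ℝ) ^ ε := ⟨_, rfl⟩
  have hM0 : 0 ≤ M := hM ▸ by positivity
  rw [← hM] at hst ⊢
  have k2 := hst 2 (by norm_num) (by norm_num)
  have k3 := hst 3 (by norm_num) (by norm_num)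
  have k4 := hst 4 (by norm_num) (by norm_num)
  have k5 := hst 5 (by norm_num) (by norm_num)
  have k6 := hst 6 (by norm_num) (by norm_num)
  have k7 : Sm v F Λ 7 ≤ bx v e 7 := last hi hs e F hF hΛ
  have c2 : Sm v F Λ 2 ≤ M * bx v e 2 * Sm v F Λ 3 := k2
  have c3 : Sm v F Λ 3 ≤ M * bx v e 3 * Sm v F Λ 4 := k3
  have c4 : Sm v F Λ 4 ≤ M * bx v e 4 * Sm v F Λ 5 := k4
  have c5 : Sm v F Λ 5 ≤ M * bx v e 5 * Sm v F Λ 6 := k5
  have c6 : Sm v F Λ 6 ≤ M * bx v e 6 * Sm v F Λ 7 := k6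
  have p2 : 0 ≤ M * bx v e 2 := mul_nonneg hM0 (bx_pos v e 2).le
  have p3 : 0 ≤ M * bx v e 3 := mul_nonneg hM0 (bx_pos v e 3).le
  have p4 : 0 ≤ M * bx v e 4 := mul_nonneg hM0 (bx_pos v e 4).le
  have p5 : 0 ≤ M * bx v e 5 := mul_nonneg hM0 (bx_pos v e 5).le
  have p6 : 0 ≤ M * bx v e 6 := mul_nonneg hM0 (bx_pos v e 6).le
  calc Sm v F Λ 2 ≤ M * bx v e 2 * Sm v F Λ 3 := c2
    _ ≤ M * bx v e 2 * (M * bx v e 3 * Sm v F Λ 4) := mul_le_mul_of_nonneg_left c3 p2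
    _ ≤ M * bx v e 2 * (M * bx v e 3 * (M * bx v e 4 * Sm v F Λ 5)) :=
        mul_le_mul_of_nonneg_left (mul_le_mul_of_nonneg_left c4 p3) p2
    _ ≤ M * bx v e 2 * (M * bx v e 3 * (M * bx v e 4 * (M * bx v e 5 * Sm v F Λ 6))) :=
        mul_le_mul_of_nonneg_left (mul_le_mul_of_nonneg_left
          (mul_le_mul_of_nonneg_left c5 p4) p3) p2
    _ ≤ M * bx v e 2 * (M * bx v e 3 * (M * bx v e 4 * (M * bx v e 5 *
          (M * bx v e 6 * Sm v F Λ 7)))) :=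
        mul_le_mul_of_nonneg_left (mul_le_mul_of_nonneg_left
          (mul_le_mul_of_nonneg_left (mul_le_mul_of_nonneg_left c6 p5) p4) p3) p2
    _ ≤ M * bx v e 2 * (M * bx v e 3 * (M * bx v e 4 * (M * bx v e 5 *
          (M * bx v e 6 * bx v e 7)))) :=
        mul_le_mul_of_nonneg_left (mul_le_mul_of_nonneg_left
          (mul_le_mul_of_nonneg_left (mul_le_mul_of_nonneg_left
          (mul_le_mul_of_nonneg_left k7 p6) p5) p4) p3) p2
    _ = M ^ 5 * (bx v e 2 * bx v e 3 * bx v e 4 * bx v e 5 * bx v e 6 * bx v e 7) := by ring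

/-- the number of points, by the restrictions to the last six pairs -/
theorem total (ε : ℝ) (hε : 0 < ε) : ∃ K : ℝ, 0 < K ∧ ∀ N : ℕ, 1 ≤ N →
    ∀ v : Fin 8 → V, Enum v → Inj v → ∀ (e : V → ℕ)
    (F : Finset (V → ℕ)), (∀ z ∈ F, Good z ∧ Box e z) →
    2 ^ (2 * (∑ u, e u) + 40) ≤ N →
    ((F.card : ℝ) ≤ K * (N : ℝ) ^ ε * ((2 ^ e (comp (v 1)) : ℕ) : ℝ) * Sm v F 1 2) ∧
    ∀ Λ : ℝ, 1 ≤ Λ →
    Λ ^ 4 * 2 ^ (3 * (e (v 0) + e (comp (v 0)) + (e (v 1) + e (comp (v 1))))) ≤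
      2 ^ (∑ u, e u) →
    (F.card : ℝ) ≤ K * (N : ℝ) ^ ε * (1 + 4 * ((2 ^ e (comp (v 1)) : ℕ) : ℝ) / Λ) *
      Sm v F Λ 2 := by
  classical
  obtain ⟨K, hK, h⟩ := fib ε hε
  refine ⟨K, hK, fun N hN v hv hi e F hF hNe => ?_⟩
  obtain ⟨M, hM⟩ : ∃ M, M = K * (N : ℝ) ^ ε := ⟨_, rfl⟩
  have hM0 : 0 ≤ M := hM ▸ by positivity
  have hcard : (F.card : ℝ) = ∑ ρ ∈ F.image (rk v 2),
      ((F.filter fun z => rk v 2 z = ρ).card : ℝ) := by
    rw [card_eq_sum_card_fiberwise (f := rk v 2) (t := F.image (rk v 2))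
      (fun z hz => mem_image_of_mem _ hz)]
    push_cast
    rfl
  obtain ⟨P, hP⟩ : ∃ P : ℝ, P = ((2 ^ e (comp (v 1)) : ℕ) : ℝ) := ⟨_, rfl⟩
  have hP1 : 1 ≤ P := by
    rw [hP]
    exact_mod_cast Nat.one_le_two_pow
  rw [← hM, ← hP]
  have hfib : ∀ ρ ∈ F.image (rk v 2), 1 ≤ gv (vec v ρ 2) ∧
      ((F.filter fun z => rk v 2 z = ρ).card : ℝ) ≤ M * P ∧
      (((F.filter fun z => rk v 2 z = ρ).card : ℝ) ≤ M ∨
      2 ^ (∑ u, e u) < gv (vec v ρ 2) ^ 2 *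
        2 ^ (3 * (e (v 0) + e (comp (v 0)) + (e (v 1) + e (comp (v 1)))) + 8)) := by
    intro ρ hρ
    rw [mem_image] at hρ
    obtain ⟨z0, hz0, rfl⟩ := hρ
    have := h N hN v hv hi e F hF hNe z0 hz0 (F.filter fun z => rk v 2 z = rk v 2 z0)
      (fun z hz => mem_filter.1 hz)
    rw [← hM, ← hP] at this
    exact this
  constructor
  · rw [hcard, Sm, mul_sum]
    refine sum_le_sum fun ρ hρ => ?_
    obtain ⟨h1, h2, -⟩ := hfib ρ hρ
    have h3 : om 1 (gv (vec v ρ 2)) = 1 := by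
      unfold om
      apply min_eq_right
      rw [Real.one_le_sqrt]
      exact_mod_cast h1
    rw [h3, mul_one]
    exact h2
  · intro Λ hΛ hΛ4
    rw [hcard, Sm, mul_sum]
    refine sum_le_sum fun ρ hρ => ?_
    obtain ⟨h1, h2, h3⟩ := hfib ρ hρ
    obtain ⟨g, hg⟩ : ∃ g, g = gv (vec v ρ 2) := ⟨_, rfl⟩
    rw [← hg] at h1 h3 ⊢
    have hΛ0 : 0 < Λ := by linarith
    have hg1 : (1 : ℝ) ≤ g := by exact_mod_cast h1
    have ho1 : 1 ≤ om Λ g := by
      unfold om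
      apply le_min
      · rw [Real.one_le_sqrt]; exact hg1
      · exact hΛ
    have hq : 0 ≤ 4 * P / Λ := by positivity
    rcases h3 with h4 | h4
    · refine h4.trans ?_
      calc M = M * 1 * 1 := by ring
        _ ≤ M * (1 + 4 * P / Λ) * om Λ g :=
          mul_le_mul (mul_le_mul_of_nonneg_left (by linarith) hM0) ho1 (by norm_num)
            (by positivity)
    · have h5 : Λ / 4 ≤ om Λ g := by
        unfold om
        apply le_min
        · apply Real.le_sqrt_of_sq_le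
          have h6 : ((2 : ℝ) ^ (∑ u, e u)) < (g : ℝ) ^ 2 *
              2 ^ (3 * (e (v 0) + e (comp (v 0)) + (e (v 1) + e (comp (v 1)))) + 8) := by
            exact_mod_cast h4
          have h7 := lt_of_le_of_lt hΛ4 h6
          rw [pow_add _ _ 8] at h7
          have h8 : (0 : ℝ) < 2 ^ (3 * (e (v 0) + e (comp (v 0)) +
            (e (v 1) + e (comp (v 1))))) := by positivity
          obtain ⟨w, hw⟩ : ∃ w : ℝ, w = 2 ^ (3 * (e (v 0) + e (comp (v 0)) +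
            (e (v 1) + e (comp (v 1))))) := ⟨_, rfl⟩
          rw [← hw] at h7 h8
          have h9 : Λ ^ 4 < (g : ℝ) ^ 2 * 2 ^ 8 := by
            by_contra hcon
            rw [not_lt] at hcon
            nlinarith [mul_le_mul_of_nonneg_right hcon h8.le]
          have h10 : (Λ ^ 2 / 16) ^ 2 < (g : ℝ) ^ 2 := by nlinarith
          have h11 := lt_of_pow_lt_pow_left₀ 2 (by positivity) h10
          nlinarith
        · linarith
      refine h2.trans ?_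
      have h6 : P ≤ (1 + 4 * P / Λ) * om Λ g := by
        calc P = 4 * P / Λ * (Λ / 4) := by field_simp
          _ ≤ (1 + 4 * P / Λ) * om Λ g := mul_le_mul (by linarith) h5 (by positivity)
              (by positivity)
      calc M * P ≤ M * ((1 + 4 * P / Λ) * om Λ g) := mul_le_mul_of_nonneg_left h6 hM0
        _ = M * (1 + 4 * P / Λ) * om Λ g := by ring

end H38.HE
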