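import Pool.Agent.H38.HE.Core3

/-!
The bound for one dyadic box, and the final bound, from the statement of lemL.
-/

set_option autoImplicit false

open Finset

namespace H38.HE

open H38.HC H38.HD

/-- exponents in the two cases -/
theorem expo (s : Fin 8 → ℕ) (p T : ℕ) (hT : T = s 0 + s 1 + s 2 + s 3 + s 4 + s 5 + s 6 + s 7)
    (hle : ∀ i : Fin 8, 2 ≤ i.val → s i ≤ s 0 ∧ s i ≤ s 1)
    (hdec : ∀ i j : Fin 8, 2 ≤ i.val → i ≤ j → s j ≤ s i) (hp : 4 * p ≤ s 0 + s 1) :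
    ∃ r Q : ℕ, r = s 2 + s 3 + s 4 + s 5 + s 6 + s 7 ∧ Q = s 0 + s 1 ∧ T = Q + r ∧ r ≤ 3 * Q ∧
      4 * p ≤ Q ∧ ∀ k : Fin 8, 2 ≤ k.val → k.val ≤ 6 → r ≤ 2 * Q + 4 * s k := by
  refine ⟨_, _, rfl, rfl, by rw [hT]; ring, ?_, hp, ?_⟩
  · have a2 := hle 2 (by norm_num)
    have a3 := hle 3 (by norm_num)
    have a4 := hle 4 (by norm_num)
    have a5 := hle 5 (by norm_num)
    have a6 := hle 6 (by norm_num)
    have a7 := hle 7 (by norm_num)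
    omega
  · intro k h2 h6
    have a2 := hle 2 (by norm_num)
    have a3 := hle 3 (by norm_num)
    have a4 := hle 4 (by norm_num)
    have a5 := hle 5 (by norm_num)
    have b6 := hdec k 6 h2 (by rw [Fin.le_def]; simpa using h6)
    have b7 := hdec 6 7 (by norm_num) (by decide)
    omega

theorem fin_ineq {K1 K2 M W R L c S : ℝ} (hK1 : 0 ≤ K1) (hK2 : 0 ≤ K2) (hM : 0 ≤ M) (hW : 0 ≤ W)
    (h1 : c ≤ K1 * M * W * S) (h2 : S ≤ (K2 * M) ^ 5 * R) (h3 : W * R ≤ 5 * L) :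
    c ≤ (K1 * M) * (K2 * M) ^ 5 * (5 * L) := by
  calc c ≤ K1 * M * W * S := h1
    _ ≤ K1 * M * W * ((K2 * M) ^ 5 * R) := mul_le_mul_of_nonneg_left h2 (by positivity)
    _ = (K1 * M) * (K2 * M) ^ 5 * (W * R) := by ring
    _ ≤ (K1 * M) * (K2 * M) ^ 5 * (5 * L) := mul_le_mul_of_nonneg_left h3 (by positivity)

theorem pow_six (T N : ℕ) (δ ε : ℝ) (hδ : δ = ε / 12) (hN : N = 2 ^ (2 * T + 40)) :
    ((N : ℝ) ^ δ) ^ 6 = (2 : ℝ) ^ ((T : ℝ) * ε + 20 * ε) := by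
  have a : (N : ℝ) = (2 : ℝ) ^ ((2 * T + 40 : ℕ) : ℝ) := by
    rw [Real.rpow_natCast, hN]
    push_cast
    rfl
  rw [a, ← Real.rpow_mul (by norm_num), ← Real.rpow_natCast, ← Real.rpow_mul (by norm_num)]
  congr 1
  push_cast
  rw [hδ]
  ring

theorem pow_fin (T : ℕ) (ε : ℝ) : ((2 : ℝ) ^ T) ^ (3 / 4 + ε) =
    (2 : ℝ) ^ (3 / 4 * (T : ℝ)) * (2 : ℝ) ^ ((T : ℝ) * ε) := by
  rw [← Real.rpow_natCast, ← Real.rpow_mul (by norm_num), ← Real.rpow_add (by norm_num)]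
  congr 1
  ring

theorem bx_prod (v : Fin 8 → V) (e : V → ℕ) (r : ℕ) (hr : r =
    (e (v 2) + e (comp (v 2))) + (e (v 3) + e (comp (v 3))) + (e (v 4) + e (comp (v 4))) +
      (e (v 5) + e (comp (v 5))) + (e (v 6) + e (comp (v 6))) + (e (v 7) + e (comp (v 7)))) :
    bx v e 2 * bx v e 3 * bx v e 4 * bx v e 5 * bx v e 6 * bx v e 7 = (2 : ℝ) ^ (r : ℝ) := by
  rw [Real.rpow_natCast, hr, bx_eq, bx_eq, bx_eq, bx_eq, bx_eq, bx_eq, ← pow_add, ← pow_add,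
    ← pow_add, ← pow_add, ← pow_add]

theorem cast_two (n : ℕ) : ((2 ^ n : ℕ) : ℝ) = (2 : ℝ) ^ (n : ℝ) := by
  rw [Real.rpow_natCast]
  push_cast
  rfl

theorem lam_four (r Q T : ℕ) (hT : T = Q + r) :
    ((2 : ℝ) ^ (((r : ℝ) - 2 * Q) / 4)) ^ 4 * 2 ^ (3 * Q) ≤ 2 ^ T := by
  have hTr : (T : ℝ) = Q + r := by exact_mod_cast hT
  rw [← Real.rpow_natCast, ← Real.rpow_natCast, ← Real.rpow_natCast,
    ← Real.rpow_mul (by norm_num), ← Real.rpow_add (by norm_num)]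
  apply Real.rpow_le_rpow_of_exponent_le (by norm_num)
  push_cast
  rw [hTr]
  linarith

theorem caseB (p r Q T : ℝ) (hT : T = Q + r) (hr : r ≤ 3 * Q) (hp : 4 * p ≤ Q) :
    (1 + 4 * (2 : ℝ) ^ p / (2 : ℝ) ^ ((r - 2 * Q) / 4)) * (2 : ℝ) ^ r ≤
      5 * (2 : ℝ) ^ (3 / 4 * T) := by
  have e1 : (2 : ℝ) ^ r ≤ (2 : ℝ) ^ (3 / 4 * T) := by
    apply Real.rpow_le_rpow_of_exponent_le (by norm_num)
    rw [hT]
    linarith
  have e2 : (2 : ℝ) ^ p / (2 : ℝ) ^ ((r - 2 * Q) / 4) * (2 : ℝ) ^ r ≤ (2 : ℝ) ^ (3 / 4 * T) := by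
    rw [← Real.rpow_sub (by norm_num), ← Real.rpow_add (by norm_num)]
    apply Real.rpow_le_rpow_of_exponent_le (by norm_num)
    rw [hT]
    linarith
  calc (1 + 4 * (2 : ℝ) ^ p / (2 : ℝ) ^ ((r - 2 * Q) / 4)) * (2 : ℝ) ^ r
      = (2 : ℝ) ^ r + 4 * ((2 : ℝ) ^ p / (2 : ℝ) ^ ((r - 2 * Q) / 4) * (2 : ℝ) ^ r) := by ring
    _ ≤ 5 * (2 : ℝ) ^ (3 / 4 * T) := by linarith

theorem caseA (p r Q T : ℝ) (hT : T = Q + r) (hr : r ≤ 2 * Q) (hp : 4 * p ≤ Q) :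
    (2 : ℝ) ^ p * (2 : ℝ) ^ r ≤ 5 * (2 : ℝ) ^ (3 / 4 * T) := by
  have e2 : (2 : ℝ) ^ p * (2 : ℝ) ^ r ≤ (2 : ℝ) ^ (3 / 4 * T) := by
    rw [← Real.rpow_add (by norm_num)]
    apply Real.rpow_le_rpow_of_exponent_le (by norm_num)
    rw [hT]
    linarith
  have e3 : (0 : ℝ) ≤ (2 : ℝ) ^ (3 / 4 * T) := by positivity
  linarith

theorem core (hL : LStat) (ε : ℝ) (hε : 0 < ε) : ∃ K : ℝ, 0 < K ∧ ∀ (e : V → ℕ)
      (F : Finset (V → ℕ)), (∀ z ∈ F, Good z ∧ Box e z) →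
      (F.card : ℝ) ≤ K * ((2 : ℝ) ^ (∑ u, e u)) ^ (3 / 4 + ε) := by
  obtain ⟨δ, hδ⟩ : ∃ δ, δ = ε / 12 := ⟨_, rfl⟩
  have hδ0 : 0 < δ := hδ ▸ by positivity
  obtain ⟨K1, hK1, h1⟩ := total δ hδ0
  obtain ⟨K2, hK2, h2⟩ := chain hL δ hδ0
  refine ⟨5 * (K1 * K2 ^ 5) * (2 : ℝ) ^ (20 * ε), by positivity, fun e F hF => ?_⟩
  obtain ⟨v, hs, hi, hord1, hord2, m1, m2, m3, hsum, hprod⟩ := exists_order e
  obtain ⟨T, hT⟩ : ∃ T, T = ∑ u, e u := ⟨_, rfl⟩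
  have hT' : T = (e (v 0) + e (comp (v 0))) + (e (v 1) + e (comp (v 1))) +
      (e (v 2) + e (comp (v 2))) + (e (v 3) + e (comp (v 3))) + (e (v 4) + e (comp (v 4))) +
      (e (v 5) + e (comp (v 5))) + (e (v 6) + e (comp (v 6))) + (e (v 7) + e (comp (v 7))) := by
    rw [hT, hsum, Fin.sum_univ_eight]
  obtain ⟨r, Q, hr, hQ, hTQ, hr3, hp, hk⟩ := expo (fun i => e (v i) + e (comp (v i)))
    (e (comp (v 1))) T hT' hord1 hord2 (by omega)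
  have hQ' : e (v 0) + e (comp (v 0)) + (e (v 1) + e (comp (v 1))) = Q := hQ.symm
  obtain ⟨N, hN⟩ : ∃ N : ℕ, N = 2 ^ (2 * T + 40) := ⟨_, rfl⟩
  have hN1 : 1 ≤ N := hN ▸ Nat.one_le_two_pow
  have ht := h1 N hN1 v hprod hi e F hF (by rw [hN, hT])
  have hch := h2 N hN1 v hprod hi hs e F hF (by rw [hN, hT])
  have hN6 := pow_six T N δ ε hδ hN
  clear hN h1 h2
  obtain ⟨M, hM⟩ : ∃ M : ℝ, M = (N : ℝ) ^ δ := ⟨_, rfl⟩
  have hM0 : 0 ≤ M := by rw [hM]; exact Real.rpow_nonneg (Nat.cast_nonneg N) δ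
  rw [← hM, hQ', ← hT, cast_two] at ht
  rw [← hM, bx_prod v e r hr] at hch
  rw [← hM] at hN6
  -- it is enough to bound by 5 K1 M (K2 M)^5 L
  suffices hsuf : (F.card : ℝ) ≤ (K1 * M) * (K2 * M) ^ 5 * (5 * (2 : ℝ) ^ (3 / 4 * (T : ℝ))) by
    refine hsuf.trans (le_of_eq ?_)
    rw [← hT, pow_fin]
    calc K1 * M * (K2 * M) ^ 5 * (5 * (2 : ℝ) ^ (3 / 4 * (T : ℝ)))
        = 5 * (K1 * K2 ^ 5) * M ^ 6 * (2 : ℝ) ^ (3 / 4 * (T : ℝ)) := by ring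
      _ = 5 * (K1 * K2 ^ 5) * (2 : ℝ) ^ (20 * ε) *
          ((2 : ℝ) ^ (3 / 4 * (T : ℝ)) * (2 : ℝ) ^ ((T : ℝ) * ε)) := by
          rw [hN6, Real.rpow_add (by norm_num)]
          ring
  have hTr : (T : ℝ) = Q + r := by exact_mod_cast hTQ
  have hpr : 4 * ((e (comp (v 1)) : ℕ) : ℝ) ≤ Q := by exact_mod_cast hp
  have hrr : (r : ℝ) ≤ 3 * Q := by exact_mod_cast hr3
  rcases le_total r (2 * Q) with hc | hc
  · -- case A
    have hcr : (r : ℝ) ≤ 2 * Q := by exact_mod_cast hc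
    have c1 := hch 1 (le_refl _) (fun k _ _ => by
      rw [bx_eq]
      exact one_le_pow₀ (by norm_num))
    exact fin_ineq hK1.le hK2.le hM0 (Real.rpow_nonneg (by norm_num) _) ht.1 c1
      (caseA _ _ _ _ hTr hcr hpr)
  · -- case B
    have hcr : 2 * (Q : ℝ) ≤ r := by exact_mod_cast hc
    have hΛ1 : 1 ≤ (2 : ℝ) ^ (((r : ℝ) - 2 * Q) / 4) := by
      apply Real.one_le_rpow (by norm_num)
      linarith
    have c1 := hch _ hΛ1 (fun k k2 k6 => by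
      have a := hk k k2 k6
      have a' : (r : ℝ) ≤ 2 * Q + 4 * ((e (v k) + e (comp (v k)) : ℕ) : ℝ) := by
        exact_mod_cast a
      rw [bx_eq, ← Real.rpow_natCast]
      apply Real.rpow_le_rpow_of_exponent_le (by norm_num)
      linarith)
    have t3 := ht.2 _ hΛ1 (lam_four r Q T hTQ)
    refine fin_ineq hK1.le hK2.le hM0 ?_ t3 c1 (caseB _ _ _ _ hTr hrr hpr)
    have b1 : (0 : ℝ) ≤ 4 * (2 : ℝ) ^ ((e (comp (v 1)) : ℕ) : ℝ) /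
        (2 : ℝ) ^ (((r : ℝ) - 2 * Q) / 4) :=
      div_nonneg (mul_nonneg (by norm_num) (Real.rpow_nonneg (by norm_num) _))
        (Real.rpow_nonneg (by norm_num) _)
    linarith

theorem main' (hL : LStat) (d : ℕ) (hd : 3 ≤ d) (ε : ℝ) (hε : 0 < ε) : ∃ C : ℝ, ∀ N : ℕ, 1 ≤ N →
      (Cubes d N).Finite ∧ ((Cubes d N).ncard : ℝ) ≤ C * (N : ℝ) ^ (3 / 4 + ε) :=
  from_core (core hL) d hd ε hε

end H38.HE
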