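import Pool.Agent.H38.HD.Cnt3

/-!
Definitions for the exponent `3/4`.
-/

set_option autoImplicit false

open Finset

namespace H38.HE

open H38.HC H38.HD

/-- good values of the sixteen cells -/
def Good (z : V → ℕ) : Prop :=
  (∀ u, 0 < z u) ∧ (∀ u, Nat.Coprime (z u) (z (comp u))) ∧
  (S z 0 ^ 2 + E z 0 ^ 2) + (S z 3 ^ 2 + E z 3 ^ 2) =
    (S z 1 ^ 2 + E z 1 ^ 2) + (S z 2 ^ 2 + E z 2 ^ 2) ∧
  S z 0 ^ 2 + E z 0 ^ 2 ≠ S z 1 ^ 2 + E z 1 ^ 2 ∧ S z 0 ^ 2 + E z 0 ^ 2 ≠ S z 2 ^ 2 + E z 2 ^ 2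

/-- dyadic box -/
def Box (e : V → ℕ) (z : V → ℕ) : Prop := ∀ u, 2 ^ e u ≤ z u ∧ z u < 2 ^ (e u + 1)

/-- the eight terms `S_j²`, `E_j²` -/
abbrev Tm := Fin 4 × Bool

/-- greatest common divisor of the entries -/
def gv (c : Tm → ℤ) : ℕ := univ.gcd fun i => (c i).natAbs

/-- the weight `min(√g, Λ)` -/
noncomputable def om (Λ : ℝ) (g : ℕ) : ℝ := min (√(g : ℝ)) Λ

end H38.HE
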