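import Pool.Agent.H38.HE.Slope
import Pool.Agent.H92.DivBound

/-!
Number of directions in a dyadic box whose squares are congruent modulo `g`.
-/

set_option autoImplicit false

open Finset

namespace H38.HE

/-- the class of a point -/
def dirCls (g : ℕ) (p0 p : ℕ × ℕ) : ℕ × ℕ :=
  (Int.gcd g ((p.1 : ℤ) * p0.2 - (p0.1 : ℤ) * p.2), Int.gcd g ((p.1 : ℤ) * p0.2 + (p0.1 : ℤ) * p.2))

theorem dir_cls_mem (g : ℕ) (hg : 1 ≤ g) (p0 p : ℕ × ℕ) : dirCls g p0 p ∈ g.divisors ×ˢ g.divisors := by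
  rw [Finset.mem_product]
  refine ⟨?_, ?_⟩ <;> rw [Nat.mem_divisors] <;> refine ⟨?_, by omega⟩
  · exact Int.natCast_dvd_natCast.1 (Int.gcd_dvd_left (g : ℤ) ((p.1 : ℤ) * p0.2 - (p0.1 : ℤ) * p.2))
  · exact Int.natCast_dvd_natCast.1 (Int.gcd_dvd_left (g : ℤ) ((p.1 : ℤ) * p0.2 + (p0.1 : ℤ) * p.2))

theorem dir_cls_mul (g : ℕ) (hg : 1 ≤ g) (p0 p : ℕ × ℕ)
    (h : (g : ℤ) ∣ (p.1 : ℤ) ^ 2 * (p0.2 : ℤ) ^ 2 - (p0.1 : ℤ) ^ 2 * (p.2 : ℤ) ^ 2) :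
    g ≤ (dirCls g p0 p).1 * (dirCls g p0 p).2 := by
  have h1 : g ∣ Nat.gcd g ((p.1 : ℤ) * p0.2 - (p0.1 : ℤ) * p.2).natAbs *
      Nat.gcd g ((p.1 : ℤ) * p0.2 + (p0.1 : ℤ) * p.2).natAbs := by
    rw [Nat.dvd_gcd_mul_gcd_iff_dvd_mul, ← Int.natAbs_mul, ← Int.natCast_dvd]
    convert h using 1
    ring
  have h2 : (dirCls g p0 p).1 = Nat.gcd g ((p.1 : ℤ) * p0.2 - (p0.1 : ℤ) * p.2).natAbs := by
    simp [dirCls, Int.gcd]
  have h3 : (dirCls g p0 p).2 = Nat.gcd g ((p.1 : ℤ) * p0.2 + (p0.1 : ℤ) * p.2).natAbs := by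
    simp [dirCls, Int.gcd]
  rw [h2, h3]
  refine Nat.le_of_dvd (Nat.mul_pos ?_ ?_) h1
  · exact Nat.gcd_pos_of_pos_left _ hg
  · exact Nat.gcd_pos_of_pos_left _ hg

theorem dir_dvd_of_coprime {m a b t : ℤ} (h : IsCoprime a b) (ha : m ∣ a * t) (hb : m ∣ b * t) :
    m ∣ t := by
  obtain ⟨u, v, huv⟩ := h
  have : t = u * (a * t) + v * (b * t) := by
    linear_combination (-t) * huv
  rw [this]
  exact dvd_add (ha.mul_left _) (hb.mul_left _)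

theorem dir_cls_dvd (g : ℕ) (p0 p q : ℕ × ℕ) (h0 : Nat.Coprime p0.1 p0.2)
    (h : dirCls g p0 p = dirCls g p0 q) :
    ((dirCls g p0 p).1 : ℤ) ∣ (p.1 : ℤ) * q.2 - (q.1 : ℤ) * p.2 ∧
    ((dirCls g p0 p).2 : ℤ) ∣ (p.1 : ℤ) * q.2 - (q.1 : ℤ) * p.2 := by
  have hc : IsCoprime (p0.1 : ℤ) (p0.2 : ℤ) := Nat.isCoprime_iff_coprime.2 h0
  have a1 : ((dirCls g p0 p).1 : ℤ) ∣ (p.1 : ℤ) * p0.2 - (p0.1 : ℤ) * p.2 := Int.gcd_dvd_right _ _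
  have a2 : ((dirCls g p0 p).1 : ℤ) ∣ (q.1 : ℤ) * p0.2 - (p0.1 : ℤ) * q.2 := by
    rw [h]
    exact Int.gcd_dvd_right _ _
  have b1 : ((dirCls g p0 p).2 : ℤ) ∣ (p.1 : ℤ) * p0.2 + (p0.1 : ℤ) * p.2 := Int.gcd_dvd_right _ _
  have b2 : ((dirCls g p0 p).2 : ℤ) ∣ (q.1 : ℤ) * p0.2 + (p0.1 : ℤ) * q.2 := by
    rw [h]
    exact Int.gcd_dvd_right _ _
  refine ⟨dir_dvd_of_coprime hc ?_ ?_, dir_dvd_of_coprime hc ?_ ?_⟩
  · have e : (p0.1 : ℤ) * ((p.1 : ℤ) * q.2 - (q.1 : ℤ) * p.2) =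
        q.1 * ((p.1 : ℤ) * p0.2 - (p0.1 : ℤ) * p.2) -
          p.1 * ((q.1 : ℤ) * p0.2 - (p0.1 : ℤ) * q.2) := by ring
    rw [e]
    exact dvd_sub (a1.mul_left _) (a2.mul_left _)
  · have e : (p0.2 : ℤ) * ((p.1 : ℤ) * q.2 - (q.1 : ℤ) * p.2) =
        q.2 * ((p.1 : ℤ) * p0.2 - (p0.1 : ℤ) * p.2) -
          p.2 * ((q.1 : ℤ) * p0.2 - (p0.1 : ℤ) * q.2) := by ring
    rw [e]
    exact dvd_sub (a1.mul_left _) (a2.mul_left _)
  · have e : (p0.1 : ℤ) * ((p.1 : ℤ) * q.2 - (q.1 : ℤ) * p.2) =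
        p.1 * ((q.1 : ℤ) * p0.2 + (p0.1 : ℤ) * q.2) -
          q.1 * ((p.1 : ℤ) * p0.2 + (p0.1 : ℤ) * p.2) := by ring
    rw [e]
    exact dvd_sub (b2.mul_left _) (b1.mul_left _)
  · have e : (p0.2 : ℤ) * ((p.1 : ℤ) * q.2 - (q.1 : ℤ) * p.2) =
        q.2 * ((p.1 : ℤ) * p0.2 + (p0.1 : ℤ) * p.2) -
          p.2 * ((q.1 : ℤ) * p0.2 + (p0.1 : ℤ) * q.2) := by ring
    rw [e]
    exact dvd_sub (b1.mul_left _) (b2.mul_left _)

theorem dir_count (ε : ℝ) (hε : 0 < ε) : ∃ K : ℝ, 0 < K ∧ ∀ N : ℕ, 1 ≤ N → ∀ g X Y : ℕ, 1 ≤ g →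
    g ≤ N → 1 ≤ X → 1 ≤ Y → ∀ F : Finset (ℕ × ℕ),
    (∀ p ∈ F, X ≤ p.1 ∧ p.1 < 2 * X ∧ Y ≤ p.2 ∧ p.2 < 2 * Y ∧ Nat.Coprime p.1 p.2) →
    (∀ p ∈ F, ∀ q ∈ F, (g : ℤ) ∣ (p.1 : ℤ) ^ 2 * (q.2 : ℤ) ^ 2 - (q.1 : ℤ) ^ 2 * (p.2 : ℤ) ^ 2) →
    (F.card : ℝ) ≤ K * (N : ℝ) ^ ε * (1 + (X : ℝ) * Y / √(g : ℝ)) := by
  obtain ⟨C, hC, hdiv⟩ := Pool.Agent.H5.W.divisor_bound (ε / 2) (by positivity)
  refine ⟨8 * C ^ 2, by positivity, ?_⟩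
  intro N hN g X Y hg hgN hX hY F hF hd
  have hNR : (1 : ℝ) ≤ (N : ℝ) := by exact_mod_cast hN
  have hN0 : (0 : ℝ) < (N : ℝ) := by linarith
  have hgR : (1 : ℝ) ≤ (g : ℝ) := by exact_mod_cast hg
  have hs : 0 < √(g : ℝ) := Real.sqrt_pos.2 (by linarith)
  set B : ℝ := 1 + 8 * (X : ℝ) * Y / √(g : ℝ) with hB
  have hB0 : 0 ≤ B := by positivity
  rcases F.eq_empty_or_nonempty with hE | ⟨p0, hp0⟩
  · rw [hE]
    simp only [Finset.card_empty, Nat.cast_zero]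
    positivity
  have hfib : ∀ c ∈ g.divisors ×ˢ g.divisors, ((F.filter fun p => dirCls g p0 p = c).card : ℝ) ≤ B := by
    intro c _
    rcases (F.filter fun p => dirCls g p0 p = c).eq_empty_or_nonempty with hE | ⟨p, hp⟩
    · rw [hE]
      simpa using hB0
    rw [Finset.mem_filter] at hp
    have hm := dir_cls_mul g hg p0 p (hd p hp.1 p0 hp0)
    rw [hp.2] at hm
    have hmpos : 1 ≤ max c.1 c.2 := by
      by_contra hcon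
      have h1 : c.1 = 0 := by omega
      rw [h1, zero_mul] at hm
      omega
    have hmx : g ≤ max c.1 c.2 * max c.1 c.2 :=
      hm.trans (Nat.mul_le_mul (le_max_left _ _) (le_max_right _ _))
    have hsq : √(g : ℝ) ≤ ((max c.1 c.2 : ℕ) : ℝ) := by
      apply Real.sqrt_le_iff.2
      refine ⟨Nat.cast_nonneg _, ?_⟩
      rw [pow_two]
      exact_mod_cast hmx
    have h2 := slope_count (max c.1 c.2) X Y hmpos hX hY (F.filter fun p => dirCls g p0 p = c)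
      (fun q hq => hF q (Finset.mem_filter.1 hq).1) (by
        intro q hq r hr
        rw [Finset.mem_filter] at hq hr
        have h3 := dir_cls_dvd g p0 q r (hF p0 hp0).2.2.2.2 (hq.2.trans hr.2.symm)
        rw [hq.2] at h3
        rcases max_choice c.1 c.2 with h4 | h4 <;> rw [h4]
        · exact h3.1
        · exact h3.2)
    refine h2.trans ?_
    rw [hB]
    have : 8 * (X : ℝ) * Y / ((max c.1 c.2 : ℕ) : ℝ) ≤ 8 * (X : ℝ) * Y / √(g : ℝ) :=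
      div_le_div_of_nonneg_left (by positivity) hs hsq
    linarith
  have hsum : (F.card : ℝ) = ∑ c ∈ g.divisors ×ˢ g.divisors,
      ((F.filter fun p => dirCls g p0 p = c).card : ℝ) := by
    rw [Finset.card_eq_sum_card_fiberwise (f := dirCls g p0) (t := g.divisors ×ˢ g.divisors)
      (fun p _ => dir_cls_mem g hg p0 p)]
    push_cast
    rfl
  have h5 : (F.card : ℝ) ≤ ((g.divisors.card : ℝ) * g.divisors.card) * B := by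
    rw [hsum]
    refine (Finset.sum_le_card_nsmul _ _ B hfib).trans ?_
    rw [Finset.card_product, nsmul_eq_mul]
    push_cast
    exact le_rfl
  have h6 : (g.divisors.card : ℝ) ≤ C * (N : ℝ) ^ (ε / 2) := by
    refine (hdiv g hg).trans ?_
    apply mul_le_mul_of_nonneg_left _ hC.le
    exact Real.rpow_le_rpow (by linarith) (by exact_mod_cast hgN) (by positivity)
  have h7 : (g.divisors.card : ℝ) * g.divisors.card ≤ C ^ 2 * (N : ℝ) ^ ε := by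
    have h8 : (g.divisors.card : ℝ) * g.divisors.card ≤
        (C * (N : ℝ) ^ (ε / 2)) * (C * (N : ℝ) ^ (ε / 2)) :=
      mul_le_mul h6 h6 (Nat.cast_nonneg _) (by positivity)
    have h9 : (N : ℝ) ^ (ε / 2) * (N : ℝ) ^ (ε / 2) = (N : ℝ) ^ ε := by
      rw [← Real.rpow_add hN0]
      congr 1
      ring
    calc (g.divisors.card : ℝ) * g.divisors.card ≤
        (C * (N : ℝ) ^ (ε / 2)) * (C * (N : ℝ) ^ (ε / 2)) := h8
      _ = C ^ 2 * ((N : ℝ) ^ (ε / 2) * (N : ℝ) ^ (ε / 2)) := by ring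
      _ = C ^ 2 * (N : ℝ) ^ ε := by rw [h9]
  have hNe : 0 ≤ (N : ℝ) ^ ε := Real.rpow_nonneg hN0.le _
  have h10 : B ≤ 8 * (1 + (X : ℝ) * Y / √(g : ℝ)) := by
    rw [hB]
    have : 8 * (X : ℝ) * Y / √(g : ℝ) = 8 * ((X : ℝ) * Y / √(g : ℝ)) := by ring
    rw [this]
    linarith
  calc (F.card : ℝ) ≤ ((g.divisors.card : ℝ) * g.divisors.card) * B := h5
    _ ≤ (C ^ 2 * (N : ℝ) ^ ε) * (8 * (1 + (X : ℝ) * Y / √(g : ℝ))) :=
        mul_le_mul h7 h10 hB0 (by positivity)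
    _ = 8 * C ^ 2 * (N : ℝ) ^ ε * (1 + (X : ℝ) * Y / √(g : ℝ)) := by ring

end H38.HE
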