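import Pool.Agent.H38.HE.Dir
import Pool.Agent.H38.HE.Defs

/-!
Sum of the weights of the contents of the forms `p² c + q² c'` over a dyadic box.
-/

set_option autoImplicit false

open Finset

namespace H38.HE

open H38.HC H38.HD

theorem gv_dvdL (c : Tm → ℤ) (i : Tm) : (gv c : ℤ) ∣ c i := by
  have h : gv c ∣ (c i).natAbs := Finset.gcd_dvd (mem_univ i)
  exact Int.natCast_dvd.2 h

theorem dvd_gvL {c : Tm → ℤ} {m : ℕ} (h : ∀ i, (m : ℤ) ∣ c i) : m ∣ gv c := by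
  refine Finset.dvd_gcd fun i _ => ?_
  exact Int.natCast_dvd.1 (h i)

/-- the content divides the minor -/
theorem gv_dvd_minor {a b : ℤ} (hab : IsCoprime a b) (c c' : Tm → ℤ) (i j : Tm) :
    (gv fun i => a ^ 2 * c i + b ^ 2 * c' i : ℤ) ∣ c i * c' j - c j * c' i := by
  set γ : ℤ := (gv fun i => a ^ 2 * c i + b ^ 2 * c' i : ℤ) with hγ
  have hi : γ ∣ a ^ 2 * c i + b ^ 2 * c' i := gv_dvdL (fun i => a ^ 2 * c i + b ^ 2 * c' i) i
  have hj : γ ∣ a ^ 2 * c j + b ^ 2 * c' j := gv_dvdL (fun i => a ^ 2 * c i + b ^ 2 * c' i) j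
  have h1 : γ ∣ a ^ 2 * (c i * c' j - c j * c' i) := by
    have e : a ^ 2 * (c i * c' j - c j * c' i) =
        (a ^ 2 * c i + b ^ 2 * c' i) * c' j - (a ^ 2 * c j + b ^ 2 * c' j) * c' i := by ring
    rw [e]
    exact dvd_sub (hi.mul_right _) (hj.mul_right _)
  have h2 : γ ∣ b ^ 2 * (c i * c' j - c j * c' i) := by
    have e : b ^ 2 * (c i * c' j - c j * c' i) =
        (a ^ 2 * c j + b ^ 2 * c' j) * c i - (a ^ 2 * c i + b ^ 2 * c' i) * c j := by ring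
    rw [e]
    exact dvd_sub (hj.mul_right _) (hi.mul_right _)
  obtain ⟨u, v, huv⟩ : IsCoprime (a ^ 2) (b ^ 2) := hab.pow
  have e : c i * c' j - c j * c' i = u * (a ^ 2 * (c i * c' j - c j * c' i)) +
      v * (b ^ 2 * (c i * c' j - c j * c' i)) := by
    linear_combination (-(c i * c' j - c j * c' i)) * huv
  rw [e]
  exact dvd_add (h1.mul_left _) (h2.mul_left _)

/-- the quotient divides -/
theorem quot_dvd {G g W : ℤ} (hG : G ≠ 0) (c c' : Tm → ℤ) (h1 : ∀ i, G ∣ c i) (h2 : ∀ i, G ∣ c' i)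
    (hmax : ∀ m : ℤ, (∀ i, m ∣ c i) → (∀ i, m ∣ c' i) → m ∣ G) (hg : g ≠ 0)
    (k1 : ∀ i, G * g ∣ c i * W) (k2 : ∀ i, G * g ∣ c' i * W) : g ∣ W := by
  set d : ℤ := (Int.gcd g W : ℤ) with hd
  have hd0 : d ≠ 0 := by
    rw [hd]
    have : Int.gcd g W ≠ 0 := by
      intro h
      rw [Int.gcd_eq_zero_iff] at h
      exact hg h.1
    exact_mod_cast this
  obtain ⟨g', hg'⟩ : d ∣ g := Int.gcd_dvd_left g W
  obtain ⟨W', hW'⟩ : d ∣ W := Int.gcd_dvd_right g W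
  have hco : IsCoprime g' W' := by
    have hb := Int.gcd_eq_gcd_ab g W
    refine ⟨Int.gcdA g W, Int.gcdB g W, ?_⟩
    have h3 : d * (Int.gcdA g W * g' + Int.gcdB g W * W') = d * 1 := by
      have : d = g * Int.gcdA g W + W * Int.gcdB g W := hb
      calc d * (Int.gcdA g W * g' + Int.gcdB g W * W') =
          (d * g') * Int.gcdA g W + (d * W') * Int.gcdB g W := by ring
        _ = g * Int.gcdA g W + W * Int.gcdB g W := by rw [← hg', ← hW']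
        _ = d * 1 := by rw [mul_one]; exact this.symm
    exact mul_left_cancel₀ hd0 h3
  have key : ∀ x : ℤ, G ∣ x → G * g ∣ x * W → G * g' ∣ x := by
    rintro x ⟨y, rfl⟩ h
    have h3 : g ∣ y * W := by
      have h4 : G * g ∣ G * (y * W) := by
        rw [← mul_assoc]
        exact h
      exact (mul_dvd_mul_iff_left hG).1 h4
    have h5 : d * g' ∣ d * (y * W') := by
      rw [← hg']
      have : d * (y * W') = y * W := by
        conv_rhs => rw [hW']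
        ring
      rw [this]
      exact h3
    have h6 : g' ∣ y * W' := (mul_dvd_mul_iff_left hd0).1 h5
    have h7 : g' ∣ y := hco.dvd_of_dvd_mul_right h6
    exact mul_dvd_mul_left G h7
  have h8 : G * g' ∣ G := hmax _ (fun i => key _ (h1 i) (k1 i)) (fun i => key _ (h2 i) (k2 i))
  have h9 : g' ∣ 1 := by
    have : G * g' ∣ G * 1 := by
      rw [mul_one]
      exact h8
    exact (mul_dvd_mul_iff_left hG).1 this
  have h10 : g ∣ d := by
    rw [hg']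
    calc d * g' ∣ d * 1 := mul_dvd_mul_left d h9
      _ = d := mul_one d
  exact h10.trans ⟨W', hW'⟩

theorem lemL (ε : ℝ) (hε : 0 < ε) : ∃ K : ℝ, 0 < K ∧ ∀ N : ℕ, 1 ≤ N → ∀ c c' : Tm → ℤ,
    (∀ i, |c i| ≤ N) → (∀ i, |c' i| ≤ N) → (∃ i j, c i * c' j ≠ c j * c' i) → ∀ G₁ : ℕ,
    (∀ i, (G₁ : ℤ) ∣ c i) → (∀ i, (G₁ : ℤ) ∣ c' i) →
    (∀ m : ℤ, (∀ i, m ∣ c i) → (∀ i, m ∣ c' i) → m ∣ G₁) → ∀ X Y : ℕ, 1 ≤ X → 1 ≤ Y →
    ∀ Λ : ℝ, 1 ≤ Λ → Λ ≤ (X : ℝ) * Y → ∀ F : Finset (ℕ × ℕ),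
    (∀ p ∈ F, X ≤ p.1 ∧ p.1 < 2 * X ∧ Y ≤ p.2 ∧ p.2 < 2 * Y ∧ Nat.Coprime p.1 p.2) →
    ∑ p ∈ F, om Λ (gv fun i => (p.1 : ℤ) ^ 2 * c i + (p.2 : ℤ) ^ 2 * c' i) ≤
      K * (N : ℝ) ^ ε * ((X : ℝ) * Y) * om Λ G₁ := by
  classical
  obtain ⟨C, hC, hdiv⟩ := Pool.Agent.H5.W.divisor_bound (ε / 4) (by positivity)
  obtain ⟨K, hK, hdir⟩ := dir_count (ε / 4) (by positivity)
  refine ⟨C * K * (2 * (2 : ℝ) ^ (ε / 2)), by positivity, ?_⟩
  intro N hN c c' hc hc' hne G₁ hG hG' hmax X Y hX hY Λ hΛ hΛXY F hF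
  obtain ⟨i0, j0, hij⟩ := hne
  set D : ℕ := (c i0 * c' j0 - c j0 * c' i0).natAbs with hD
  have hD0 : D ≠ 0 := by
    rw [hD, Ne, Int.natAbs_eq_zero, sub_eq_zero]
    exact hij
  have hDle : D ≤ 2 * N ^ 2 := by
    have h1 : |c i0 * c' j0 - c j0 * c' i0| ≤ 2 * (N : ℤ) ^ 2 := by
      have a1 : |c i0 * c' j0| ≤ (N : ℤ) * N := by
        rw [abs_mul]
        exact mul_le_mul (hc i0) (hc' j0) (abs_nonneg _) (by positivity)
      have a2 : |c j0 * c' i0| ≤ (N : ℤ) * N := by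
        rw [abs_mul]
        exact mul_le_mul (hc j0) (hc' i0) (abs_nonneg _) (by positivity)
      have a3 := abs_sub (c i0 * c' j0) (c j0 * c' i0)
      nlinarith
    have h2 : (D : ℤ) = |c i0 * c' j0 - c j0 * c' i0| := by
      rw [hD]
      exact Int.natCast_natAbs _
    rw [← h2] at h1
    exact_mod_cast h1
  set M : ℕ := 2 * N ^ 2 with hM
  have hM1 : 1 ≤ M := by
    rw [hM]
    have : 1 ≤ N ^ 2 := Nat.one_le_pow _ _ hN
    omega
  have hNR : (1 : ℝ) ≤ (N : ℝ) := by exact_mod_cast hN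
  have hN0 : (0 : ℝ) < (N : ℝ) := by linarith
  have hXR : (1 : ℝ) ≤ (X : ℝ) := by exact_mod_cast hX
  have hYR : (1 : ℝ) ≤ (Y : ℝ) := by exact_mod_cast hY
  have hXY : (1 : ℝ) ≤ (X : ℝ) * Y := by nlinarith
  set γ : ℕ × ℕ → ℕ := fun p => gv fun i => (p.1 : ℤ) ^ 2 * c i + (p.2 : ℤ) ^ 2 * c' i with hγ
  have hγD : ∀ p ∈ F, γ p ∣ D := by
    intro p hp
    have h1 : IsCoprime (p.1 : ℤ) (p.2 : ℤ) := Nat.isCoprime_iff_coprime.2 (hF p hp).2.2.2.2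
    have h2 := gv_dvd_minor h1 c c' i0 j0
    rw [hD]
    exact Int.natCast_dvd.1 h2
  have hmaps : ∀ p ∈ F, γ p ∈ D.divisors := by
    intro p hp
    rw [Nat.mem_divisors]
    exact ⟨hγD p hp, hD0⟩
  have hGne : G₁ ≠ 0 := by
    rintro rfl
    have h1 := hG i0
    have h2 := hG j0
    rw [Nat.cast_zero, zero_dvd_iff] at h1 h2
    apply hij
    rw [h1, h2]
    ring
  have hG1 : 1 ≤ G₁ := Nat.one_le_iff_ne_zero.2 hGne
  have hG1R : (1 : ℝ) ≤ (G₁ : ℝ) := by exact_mod_cast hG1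
  have hom : 1 ≤ om Λ G₁ := by
    unfold om
    refine le_min ?_ hΛ
    rw [Real.one_le_sqrt]
    exact hG1R
  have hom0 : 0 ≤ om Λ G₁ := by linarith
  -- the fibres
  have hfib : ∀ g ∈ D.divisors, ∑ p ∈ F.filter (fun p => γ p = g), om Λ (γ p) ≤
      K * (M : ℝ) ^ (ε / 4) * (2 * ((X : ℝ) * Y) * om Λ G₁) := by
    intro g hg
    have hg0 : g ≠ 0 := by
      intro h
      rw [h, Nat.mem_divisors, zero_dvd_iff] at hg
      exact hD0 hg.1
    have hMp : 0 ≤ (M : ℝ) ^ (ε / 4) := Real.rpow_nonneg (Nat.cast_nonneg _) _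
    rcases (F.filter (fun p => γ p = g)).eq_empty_or_nonempty with h0 | ⟨p0, hp0⟩
    · rw [h0, sum_empty]
      positivity
    rw [mem_filter] at hp0
    have hGg : G₁ ∣ g := by
      rw [← hp0.2, hγ]
      refine dvd_gvL fun i => ?_
      exact dvd_add ((hG i).mul_left _) ((hG' i).mul_left _)
    obtain ⟨h, hh⟩ := hGg
    have hh0 : h ≠ 0 := by
      rintro rfl
      rw [mul_zero] at hh
      exact hg0 hh
    have hh1 : 1 ≤ h := Nat.one_le_iff_ne_zero.2 hh0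
    have hgM : g ≤ M := (Nat.le_of_dvd (Nat.pos_of_ne_zero hD0) (Nat.dvd_of_mem_divisors hg)).trans hDle
    have hhM : h ≤ M := by
      refine le_trans ?_ hgM
      rw [hh]
      exact Nat.le_mul_of_pos_left h hG1
    have hsum : ∑ p ∈ F.filter (fun p => γ p = g), om Λ (γ p) =
        ((F.filter (fun p => γ p = g)).card : ℝ) * om Λ g := by
      rw [← nsmul_eq_mul, ← sum_const]
      refine sum_congr rfl fun p hp => ?_
      rw [(mem_filter.1 hp).2]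
    have hcard := hdir M hM1 h X Y hh1 hhM hX hY (F.filter (fun p => γ p = g))
      (fun p hp => hF p (mem_filter.1 hp).1) (by
      intro p hp q hq
      rw [mem_filter] at hp hq
      set W : ℤ := (p.1 : ℤ) ^ 2 * (q.2 : ℤ) ^ 2 - (q.1 : ℤ) ^ 2 * (p.2 : ℤ) ^ 2 with hW
      have a1 : ∀ i, (g : ℤ) ∣ (p.1 : ℤ) ^ 2 * c i + (p.2 : ℤ) ^ 2 * c' i := by
        intro i
        rw [← hp.2]
        exact gv_dvdL (fun i => (p.1 : ℤ) ^ 2 * c i + (p.2 : ℤ) ^ 2 * c' i) i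
      have a2 : ∀ i, (g : ℤ) ∣ (q.1 : ℤ) ^ 2 * c i + (q.2 : ℤ) ^ 2 * c' i := by
        intro i
        rw [← hq.2]
        exact gv_dvdL (fun i => (q.1 : ℤ) ^ 2 * c i + (q.2 : ℤ) ^ 2 * c' i) i
      have hgc : (g : ℤ) = (G₁ : ℤ) * h := by
        rw [hh]
        push_cast
        ring
      refine quot_dvd (G := (G₁ : ℤ)) (by exact_mod_cast hGne) c c' hG hG' hmax
        (by exact_mod_cast hh0) ?_ ?_
      · intro i
        rw [← hgc]
        have e : c i * W = ((p.1 : ℤ) ^ 2 * c i + (p.2 : ℤ) ^ 2 * c' i) * (q.2 : ℤ) ^ 2 -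
            ((q.1 : ℤ) ^ 2 * c i + (q.2 : ℤ) ^ 2 * c' i) * (p.2 : ℤ) ^ 2 := by
          rw [hW]
          ring
        rw [e]
        exact dvd_sub ((a1 i).mul_right _) ((a2 i).mul_right _)
      · intro i
        rw [← hgc]
        have e : c' i * W = ((q.1 : ℤ) ^ 2 * c i + (q.2 : ℤ) ^ 2 * c' i) * (p.1 : ℤ) ^ 2 -
            ((p.1 : ℤ) ^ 2 * c i + (p.2 : ℤ) ^ 2 * c' i) * (q.1 : ℤ) ^ 2 := by
          rw [hW]
          ring
        rw [e]
        exact dvd_sub ((a2 i).mul_right _) ((a1 i).mul_right _))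
    have hhR : (1 : ℝ) ≤ (h : ℝ) := by exact_mod_cast hh1
    have hsq : √(g : ℝ) = √(G₁ : ℝ) * √(h : ℝ) := by
      rw [hh, Nat.cast_mul, Real.sqrt_mul (by positivity)]
    have hsh : 1 ≤ √(h : ℝ) := by
      rw [Real.one_le_sqrt]
      exact hhR
    have hsG : 0 ≤ √(G₁ : ℝ) := Real.sqrt_nonneg _
    have homg : 0 ≤ om Λ g := by
      unfold om
      exact le_min (Real.sqrt_nonneg _) (by linarith)
    have b1 : om Λ g ≤ (X : ℝ) * Y * om Λ G₁ := by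
      have : om Λ g ≤ Λ := min_le_right _ _
      nlinarith
    have b2 : om Λ g ≤ √(h : ℝ) * om Λ G₁ := by
      unfold om
      rw [hsq]
      rcases le_total (√(G₁ : ℝ)) Λ with t | t
      · rw [min_eq_left t]
        refine (min_le_left _ _).trans (le_of_eq (mul_comm _ _))
      · rw [min_eq_right t]
        refine (min_le_right _ _).trans ?_
        nlinarith
    have b3 : (1 + (X : ℝ) * Y / √(h : ℝ)) * om Λ g ≤ 2 * ((X : ℝ) * Y) * om Λ G₁ := by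
      have b4 : (X : ℝ) * Y / √(h : ℝ) * om Λ g ≤ (X : ℝ) * Y * om Λ G₁ := by
        calc (X : ℝ) * Y / √(h : ℝ) * om Λ g ≤ (X : ℝ) * Y / √(h : ℝ) * (√(h : ℝ) * om Λ G₁) :=
              mul_le_mul_of_nonneg_left b2 (by positivity)
          _ = (X : ℝ) * Y * om Λ G₁ := by
              field_simp
      calc (1 + (X : ℝ) * Y / √(h : ℝ)) * om Λ g = om Λ g + (X : ℝ) * Y / √(h : ℝ) * om Λ g := by ring
        _ ≤ (X : ℝ) * Y * om Λ G₁ + (X : ℝ) * Y * om Λ G₁ := add_le_add b1 b4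
        _ = 2 * ((X : ℝ) * Y) * om Λ G₁ := by ring
    rw [hsum]
    calc ((F.filter (fun p => γ p = g)).card : ℝ) * om Λ g
        ≤ (K * (M : ℝ) ^ (ε / 4) * (1 + (X : ℝ) * Y / √(h : ℝ))) * om Λ g :=
          mul_le_mul_of_nonneg_right hcard homg
      _ = K * (M : ℝ) ^ (ε / 4) * ((1 + (X : ℝ) * Y / √(h : ℝ)) * om Λ g) := by ring
      _ ≤ K * (M : ℝ) ^ (ε / 4) * (2 * ((X : ℝ) * Y) * om Λ G₁) :=
          mul_le_mul_of_nonneg_left b3 (by positivity)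
  have htot : ∑ p ∈ F, om Λ (γ p) = ∑ g ∈ D.divisors, ∑ p ∈ F.filter (fun p => γ p = g), om Λ (γ p) :=
    (sum_fiberwise_of_maps_to hmaps _).symm
  have hD1 : 1 ≤ D := Nat.one_le_iff_ne_zero.2 hD0
  have hdD := hdiv D hD1
  have hDM : (D : ℝ) ^ (ε / 4) ≤ (M : ℝ) ^ (ε / 4) :=
    Real.rpow_le_rpow (Nat.cast_nonneg _) (by exact_mod_cast hDle) (by positivity)
  have hMM : (M : ℝ) ^ (ε / 4) * (M : ℝ) ^ (ε / 4) = (2 : ℝ) ^ (ε / 2) * (N : ℝ) ^ ε := by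
    have e1 : (M : ℝ) = 2 * (N : ℝ) ^ 2 := by
      rw [hM]
      push_cast
      ring
    have hMpos : (0 : ℝ) < M := by exact_mod_cast hM1
    rw [← Real.rpow_add hMpos, e1, Real.mul_rpow (by norm_num) (by positivity), ← Real.rpow_natCast,
      ← Real.rpow_mul hN0.le]
    have e2 : ε / 4 + ε / 4 = ε / 2 := by ring
    have e3 : ((2 : ℕ) : ℝ) * (ε / 2) = ε := by
      push_cast
      ring
    rw [e2, e3]
  calc ∑ p ∈ F, om Λ (gv fun i => (p.1 : ℤ) ^ 2 * c i + (p.2 : ℤ) ^ 2 * c' i) = ∑ p ∈ F, om Λ (γ p) := rfl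
    _ = ∑ g ∈ D.divisors, ∑ p ∈ F.filter (fun p => γ p = g), om Λ (γ p) := htot
    _ ≤ ∑ g ∈ D.divisors, K * (M : ℝ) ^ (ε / 4) * (2 * ((X : ℝ) * Y) * om Λ G₁) := sum_le_sum hfib
    _ = (D.divisors.card : ℝ) * (K * (M : ℝ) ^ (ε / 4) * (2 * ((X : ℝ) * Y) * om Λ G₁)) := by
        rw [sum_const, nsmul_eq_mul]
    _ ≤ (C * (M : ℝ) ^ (ε / 4)) * (K * (M : ℝ) ^ (ε / 4) * (2 * ((X : ℝ) * Y) * om Λ G₁)) := by
        apply mul_le_mul_of_nonneg_right (hdD.trans (mul_le_mul_of_nonneg_left hDM hC.le))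
        positivity
    _ = C * K * 2 * ((M : ℝ) ^ (ε / 4) * (M : ℝ) ^ (ε / 4)) * ((X : ℝ) * Y) * om Λ G₁ := by ring
    _ = C * K * (2 * (2 : ℝ) ^ (ε / 2)) * (N : ℝ) ^ ε * ((X : ℝ) * Y) * om Λ G₁ := by
        rw [hMM]
        ring

end H38.HE
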