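import Pool.Agent.H38.HE.Defs

/-!
The eight terms with respect to eight ordered pairs of complementary cells.
-/

set_option autoImplicit false

open Finset

namespace H38.HE

open H38.HC H38.HD

/-- is the cell `v k` (and not its complement) in the term `t` -/
def ki (v : Fin 8 → V) (k : Fin 8) (t : Tm) : Bool := (v k t.1 == t.2)

/-- the cell of the pair `i` in the term `t` -/
def ch (v : Fin 8 → V) (z : V → ℕ) (i : Fin 8) (t : Tm) : ℕ :=
  if ki v i t = true then z (v i) else z (comp (v i))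

/-- the sign of a term -/
def sgn (t : Tm) : ℤ := (![1, -1, -1, 1] : Fin 4 → ℤ) t.1

/-- product formula of an enumeration of the pairs -/
def Enum (v : Fin 8 → V) : Prop :=
  ∀ F : V → ℕ, ∏ u, F u = ∏ i, (F (v i) * F (comp (v i)))

theorem S_ch {v : Fin 8 → V} (hv : Enum v) (z : V → ℕ) (j : Fin 4) :
    S z j = ∏ i, ch v z i (j, true) := by
  rw [S, hv]
  refine prod_congr rfl fun i _ => ?_
  have hc : comp (v i) j = !(v i j) := rfl
  simp only [ch, ki, hc]
  rcases Bool.eq_false_or_eq_true (v i j) with hh | hh <;> simp [hh]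

theorem E_ch {v : Fin 8 → V} (hv : Enum v) (z : V → ℕ) (j : Fin 4) :
    E z j = ∏ i, ch v z i (j, false) := by
  rw [E, hv]
  refine prod_congr rfl fun i _ => ?_
  have hc : comp (v i) j = !(v i j) := rfl
  simp only [ch, ki, hc]
  rcases Bool.eq_false_or_eq_true (v i j) with hh | hh <;> simp [hh]

theorem sum_tm (f : Tm → ℤ) : ∑ t, f t = ∑ j, (f (j, true) + f (j, false)) := by
  rw [Fintype.sum_prod_type]
  refine sum_congr rfl fun j _ => ?_
  rw [Fintype.sum_bool]

theorem relF {v : Fin 8 → V} (hv : Enum v) {z : V → ℕ} (h : Good z) :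
    ∑ t, sgn t * ∏ i, (ch v z i t : ℤ) ^ 2 = 0 := by
  have h1 : ∀ t : Tm, ∏ i, (ch v z i t : ℤ) ^ 2 =
      (if t.2 = true then (S z t.1 : ℤ) ^ 2 else (E z t.1 : ℤ) ^ 2) := by
    rintro ⟨j, b⟩
    rw [prod_pow]
    cases b
    · simp only [Bool.false_eq_true, if_false]
      rw [E_ch hv z j]
      push_cast
      rfl
    · simp only [if_true]
      rw [S_ch hv z j]
      push_cast
      rfl
  have h2 := h.2.2.1
  have h3 : ((S z 0 : ℤ) ^ 2 + (E z 0 : ℤ) ^ 2) + ((S z 3 : ℤ) ^ 2 + (E z 3 : ℤ) ^ 2) =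
    ((S z 1 : ℤ) ^ 2 + (E z 1 : ℤ) ^ 2) + ((S z 2 : ℤ) ^ 2 + (E z 2 : ℤ) ^ 2) := by
    exact_mod_cast h2
  rw [sum_tm]
  simp only [h1, sgn, if_true, Bool.false_eq_true, if_false]
  rw [Fin.sum_univ_four]
  simp
  linarith

/-- coefficient of the square of a cell of the pair `k` -/
def co (v : Fin 8 → V) (z : V → ℕ) (k : Fin 8) (b : Bool) : ℤ :=
  ∑ t, if ki v k t = b then sgn t * ∏ i, (if i = k then 1 else (ch v z i t : ℤ) ^ 2) else 0

theorem prod_ne (v : Fin 8 → V) (z : V → ℕ) (k : Fin 8) (t : Tm) :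
    ∏ i, (ch v z i t : ℤ) ^ 2 = (ch v z k t : ℤ) ^ 2 *
      ∏ i, (if i = k then 1 else (ch v z i t : ℤ) ^ 2) := by
  rw [← mul_prod_erase univ _ (mem_univ k), ← mul_prod_erase univ
    (fun i => if i = k then 1 else (ch v z i t : ℤ) ^ 2) (mem_univ k)]
  simp only [if_true, one_mul]
  congr 1
  refine prod_congr rfl fun i hi => ?_
  rw [if_neg (ne_of_mem_erase hi)]

theorem co_rel {v : Fin 8 → V} (hv : Enum v) {z : V → ℕ} (h : Good z) (k : Fin 8) :
    (z (v k) : ℤ) ^ 2 * co v z k true + (z (comp (v k)) : ℤ) ^ 2 * co v z k false = 0 := by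
  rw [← relF hv h, co, co, mul_sum, mul_sum, ← sum_add_distrib]
  refine sum_congr rfl fun t _ => ?_
  rw [prod_ne v z k t]
  cases hk : ki v k t
  · simp only [ch, hk, Bool.false_eq_true, if_false, if_true]
    ring
  · simp only [ch, hk, Bool.true_eq_false, if_false, if_true]
    ring

theorem co_ne {v : Fin 8 → V} (hv : Enum v) {z : V → ℕ} (h : Good z) (k : Fin 8) :
    ¬ (co v z k true = 0 ∧ co v z k false = 0) := by
  rintro ⟨h1, h2⟩
  obtain ⟨a, ha⟩ : ∃ a : Fin 4 → ℕ, a = fun j => ∏ i, (if i = k then 1 else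
    ch v z i (j, v k j)) := ⟨_, rfl⟩
  obtain ⟨b, hb⟩ : ∃ b : Fin 4 → ℕ, b = fun j => ∏ i, (if i = k then 1 else
    ch v z i (j, !(v k j))) := ⟨_, rfl⟩
  have hpos : ∀ i t, 0 < ch v z i t := fun i t => by
    unfold ch; split_ifs <;> exact h.1 _
  have hab : ∀ j, a j * b j = ∏ i, (if i = k then 1 else z (v i) * z (comp (v i))) := fun j => by
    rw [ha, hb]
    beta_reduce
    rw [← prod_mul_distrib]
    refine prod_congr rfl fun i _ => ?_
    by_cases hi : i = k
    · simp [hi]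
    · simp only [hi, if_false]
      unfold ch ki
      cases v i j <;> cases v k j <;> simp [mul_comm]
  have hR : 0 < ∏ i, (if i = k then 1 else z (v i) * z (comp (v i))) := prod_pos fun i _ => by
    split_ifs
    · exact one_pos
    · exact Nat.mul_pos (h.1 _) (h.1 _)
  have e1 : ∀ j, (∏ i, (if i = k then 1 else (ch v z i (j, v k j) : ℤ) ^ 2)) = (a j : ℤ) ^ 2 :=
    fun j => by
    rw [ha]
    push_cast
    rw [← prod_pow]
    refine prod_congr rfl fun i _ => ?_
    split_ifs <;> simp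
  have e2 : ∀ j, (∏ i, (if i = k then 1 else (ch v z i (j, !(v k j)) : ℤ) ^ 2)) = (b j : ℤ) ^ 2 :=
    fun j => by
    rw [hb]
    push_cast
    rw [← prod_pow]
    refine prod_congr rfl fun i _ => ?_
    split_ifs <;> simp
  have s1 : ∀ j, (if ki v k (j, true) = true then sgn (j, true) *
      ∏ i, (if i = k then 1 else (ch v z i (j, true) : ℤ) ^ 2) else 0) +
      (if ki v k (j, false) = true then sgn (j, false) *
      ∏ i, (if i = k then 1 else (ch v z i (j, false) : ℤ) ^ 2) else 0) =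
      (![1, -1, -1, 1] : Fin 4 → ℤ) j * (a j : ℤ) ^ 2 := fun j => by
    rw [← e1 j]
    simp only [ki, sgn]
    cases v k j <;> simp
  have s2 : ∀ j, (if ki v k (j, true) = false then sgn (j, true) *
      ∏ i, (if i = k then 1 else (ch v z i (j, true) : ℤ) ^ 2) else 0) +
      (if ki v k (j, false) = false then sgn (j, false) *
      ∏ i, (if i = k then 1 else (ch v z i (j, false) : ℤ) ^ 2) else 0) =
      (![1, -1, -1, 1] : Fin 4 → ℤ) j * (b j : ℤ) ^ 2 := fun j => by
    rw [← e2 j]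
    simp only [ki, sgn]
    cases v k j <;> simp
  rw [co, sum_tm, sum_congr rfl fun j _ => s1 j, Fin.sum_univ_four] at h1
  rw [co, sum_tm, sum_congr rfl fun j _ => s2 j, Fin.sum_univ_four] at h2
  simp at h1 h2
  have g1 : a 0 ^ 2 + a 3 ^ 2 = a 1 ^ 2 + a 2 ^ 2 := by
    have : (a 0 : ℤ) ^ 2 + a 3 ^ 2 = a 1 ^ 2 + a 2 ^ 2 := by linarith
    exact_mod_cast this
  have g2 : b 0 ^ 2 + b 3 ^ 2 = b 1 ^ 2 + b 2 ^ 2 := by
    have : (b 0 : ℤ) ^ 2 + b 3 ^ 2 = b 1 ^ 2 + b 2 ^ 2 := by linarith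
    exact_mod_cast this
  have T : ∀ j, S z j ^ 2 + E z j ^ 2 = z (v k) ^ 2 * a j ^ 2 + z (comp (v k)) ^ 2 * b j ^ 2 := by
    intro j
    have hP : ∀ t, ∏ i, ch v z i t = ch v z k t * ∏ i, (if i = k then 1 else ch v z i t) := by
      intro t
      rw [← mul_prod_erase univ _ (mem_univ k), ← mul_prod_erase univ
        (fun i => if i = k then 1 else ch v z i t) (mem_univ k)]
      simp only [if_true, one_mul]
      congr 1
      refine prod_congr rfl fun i hi => ?_
      rw [if_neg (ne_of_mem_erase hi)]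
    rw [S_ch hv, E_ch hv, hP, hP, ha, hb]
    beta_reduce
    have q1 : ch v z k (j, v k j) = z (v k) := by simp [ch, ki]
    have q2 : ch v z k (j, !(v k j)) = z (comp (v k)) := by simp [ch, ki]
    cases hh : v k j
    · rw [hh] at q1 q2
      simp only [Bool.not_false] at q2 ⊢
      rw [q1, q2]; ring
    · rw [hh] at q1 q2
      simp only [Bool.not_true] at q2 ⊢
      rw [q1, q2]; ring
  have hapos : 0 < a 0 := Nat.pos_of_ne_zero fun h0 => by
    have := hab 0; rw [h0, zero_mul] at this; omega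
  rcases pairs _ hR hab g1 g2 with h5 | h5
  · apply h.2.2.2.1
    have h6 : b 0 = b 1 := by
      have := (hab 0).trans (hab 1).symm
      rw [← h5] at this
      exact Nat.eq_of_mul_eq_mul_left hapos this
    rw [T, T, h5, h6]
  · apply h.2.2.2.2
    have h6 : b 0 = b 2 := by
      have := (hab 0).trans (hab 2).symm
      rw [← h5] at this
      exact Nat.eq_of_mul_eq_mul_left hapos this
    rw [T, T, h5, h6]

end H38.HE
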