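import Pool.Agent.H38.HE.Lev1

/-!
Coefficient vectors: the first pairs peeled off.
-/

set_option autoImplicit false

open Finset

namespace H38.HE

open H38.HC H38.HD

/-- the same choices in the first `k` pairs -/
def pf (v : Fin 8 → V) (k : ℕ) (t t' : Tm) : Prop :=
  ∀ i : Fin 8, i.val < k → ki v i t = ki v i t'

instance (v : Fin 8 → V) (k : ℕ) (t t' : Tm) : Decidable (pf v k t t') := by
  unfold pf; infer_instance

/-- product over the pairs from `k` on -/
def tl (v : Fin 8 → V) (z : V → ℕ) (k : ℕ) (t : Tm) : ℤ :=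
  ∏ i : Fin 8, (if i.val < k then 1 else (ch v z i t : ℤ) ^ 2)

/-- the coefficient vector after peeling the first `k` pairs -/
def vec (v : Fin 8 → V) (z : V → ℕ) (k : ℕ) (t : Tm) : ℤ :=
  ∑ t', if pf v k t' t then sgn t' * tl v z k t' else 0

/-- the two parts of the coefficient vector -/
def cf (v : Fin 8 → V) (z : V → ℕ) (k : Fin 8) (b : Bool) (t : Tm) : ℤ :=
  ∑ t', if pf v k.val t' t ∧ ki v k t' = b then sgn t' * tl v z (k.val + 1) t' else 0

theorem pf_refl (v : Fin 8 → V) (k : ℕ) (t : Tm) : pf v k t t := fun _ _ => rfl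

theorem pf_symm {v : Fin 8 → V} {k : ℕ} {t t' : Tm} (h : pf v k t t') : pf v k t' t :=
  fun i hi => (h i hi).symm

theorem pf_trans {v : Fin 8 → V} {k : ℕ} {t t' t'' : Tm} (h : pf v k t t') (h' : pf v k t' t'') :
    pf v k t t'' := fun i hi => (h i hi).trans (h' i hi)

theorem pf_succ (v : Fin 8 → V) (k : Fin 8) (t t' : Tm) :
    pf v (k.val + 1) t t' ↔ pf v k.val t t' ∧ ki v k t = ki v k t' := by
  constructor
  · intro h
    exact ⟨fun i hi => h i (by omega), h k (by omega)⟩
  · rintro ⟨h1, h2⟩ i hi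
    rcases Nat.lt_succ_iff_lt_or_eq.1 hi with h | h
    · exact h1 i h
    · have : i = k := Fin.ext h
      rw [this]; exact h2

theorem tl_split (v : Fin 8 → V) (z : V → ℕ) (k : Fin 8) (t : Tm) :
    tl v z k.val t = (ch v z k t : ℤ) ^ 2 * tl v z (k.val + 1) t := by
  unfold tl
  rw [← mul_prod_erase univ _ (mem_univ k), ← mul_prod_erase univ
    (fun i : Fin 8 => if i.val < k.val + 1 then 1 else (ch v z i t : ℤ) ^ 2) (mem_univ k)]
  rw [if_neg (by omega), if_pos (by omega), one_mul]
  congr 1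
  refine prod_congr rfl fun i hi => ?_
  have hne : i.val ≠ k.val := fun h => ne_of_mem_erase hi (Fin.ext h)
  by_cases h : i.val < k.val
  · rw [if_pos h, if_pos (by omega)]
  · rw [if_neg h, if_neg (by omega)]

theorem vec_split (v : Fin 8 → V) (z : V → ℕ) (k : Fin 8) (t : Tm) :
    vec v z k.val t = (z (v k) : ℤ) ^ 2 * cf v z k true t +
      (z (comp (v k)) : ℤ) ^ 2 * cf v z k false t := by
  rw [vec, cf, cf, mul_sum, mul_sum, ← sum_add_distrib]
  refine sum_congr rfl fun t' _ => ?_
  by_cases h : pf v k.val t' t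
  · rw [if_pos h, tl_split]
    rcases Bool.eq_false_or_eq_true (ki v k t') with hk | hk
    · rw [if_pos ⟨h, hk⟩, if_neg (by rintro ⟨-, h'⟩; rw [hk] at h'; exact absurd h' (by decide))]
      have : ch v z k t' = z (v k) := by simp [ch, hk]
      rw [this]; ring
    · rw [if_neg (by rintro ⟨-, h'⟩; rw [hk] at h'; exact absurd h' (by decide)), if_pos ⟨h, hk⟩]
      have : ch v z k t' = z (comp (v k)) := by simp [ch, hk]
      rw [this]; ring
  · rw [if_neg h, if_neg (fun h' => h h'.1), if_neg (fun h' => h h'.1)]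
    ring

theorem vec_succ (v : Fin 8 → V) (z : V → ℕ) (k : Fin 8) (t : Tm) :
    vec v z (k.val + 1) t = cf v z k (ki v k t) t := by
  rw [vec, cf]
  refine sum_congr rfl fun t' _ => ?_
  by_cases h : pf v (k.val + 1) t' t
  · rw [if_pos h, if_pos ((pf_succ v k t' t).1 h)]
  · rw [if_neg h, if_neg (fun h' => h ((pf_succ v k t' t).2 h'))]

theorem cf_eq (v : Fin 8 → V) (z : V → ℕ) (k : Fin 8) (b : Bool) (t : Tm) :
    cf v z k b t = 0 ∨ ∃ t', cf v z k b t = vec v z (k.val + 1) t' := by
  by_cases h : ∃ t'', pf v k.val t'' t ∧ ki v k t'' = b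
  · obtain ⟨t'', h1, h2⟩ := h
    right
    refine ⟨t'', ?_⟩
    rw [vec_succ, h2, cf, cf]
    refine sum_congr rfl fun t' _ => ?_
    by_cases h3 : pf v k.val t' t ∧ ki v k t' = b
    · rw [if_pos h3, if_pos ⟨pf_trans h3.1 (pf_symm h1), h3.2⟩]
    · rw [if_neg h3, if_neg (fun h' => h3 ⟨pf_trans h'.1 h1, h'.2⟩)]
  · left
    rw [cf]
    refine sum_eq_zero fun t' _ => ?_
    rw [if_neg (fun h' => h ⟨t', h'⟩)]

/-- number of terms in the class -/
def nc (v : Fin 8 → V) (k : ℕ) (t : Tm) : ℕ := (univ.filter fun t' => pf v k t' t).card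

theorem nc_pos (v : Fin 8 → V) (k : ℕ) (t : Tm) : 0 < nc v k t :=
  card_pos.2 ⟨t, by rw [mem_filter]; exact ⟨mem_univ _, pf_refl v k t⟩⟩

theorem nc_eq {v : Fin 8 → V} {k : ℕ} {t t' : Tm} (h : pf v k t t') : nc v k t = nc v k t' := by
  unfold nc
  congr 1
  ext s
  rw [mem_filter, mem_filter]
  exact ⟨fun g => ⟨g.1, pf_trans g.2 h⟩, fun g => ⟨g.1, pf_trans g.2 (pf_symm h)⟩⟩

theorem cls_sum (v : Fin 8 → V) (k : ℕ) (a f : Tm → ℚ) (ha : ∀ t t', pf v k t' t → a t' = a t) :
    ∑ t, a t / nc v k t * (∑ t', if pf v k t' t then f t' else 0) = ∑ t', a t' * f t' := by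
  simp only [mul_sum]
  rw [sum_comm]
  refine sum_congr rfl fun t' _ => ?_
  have h1 : ∀ t, a t / nc v k t * (if pf v k t' t then f t' else 0) =
      if pf v k t' t then a t' * f t' / nc v k t' else 0 := by
    intro t
    split_ifs with h
    · rw [ha t t' h, nc_eq h]; ring
    · ring
  rw [sum_congr rfl fun t _ => h1 t, ← sum_filter, sum_const, nsmul_eq_mul]
  have h2 : (univ.filter fun t => pf v k t' t).card = nc v k t' := by
    unfold nc
    congr 1
    ext s
    rw [mem_filter, mem_filter]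
    exact ⟨fun g => ⟨g.1, pf_symm g.2⟩, fun g => ⟨g.1, pf_symm g.2⟩⟩
  rw [h2]
  have h3 : (nc v k t' : ℚ) ≠ 0 := by exact_mod_cast (nc_pos v k t').ne'
  field_simp

theorem hd_tl (v : Fin 8 → V) (z : V → ℕ) (k : Fin 8) (t : Tm) :
    (∏ i : Fin 8, (if i.val < k.val then (ch v z i t : ℤ) ^ 2 else 1)) * tl v z (k.val + 1) t =
      ∏ i, (if i = k then 1 else (ch v z i t : ℤ) ^ 2) := by
  unfold tl
  rw [← prod_mul_distrib]
  refine prod_congr rfl fun i _ => ?_
  by_cases h : i = k
  · subst h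
    simp
  · have hne : i.val ≠ k.val := fun h' => h (Fin.ext h')
    by_cases h' : i.val < k.val
    · rw [if_pos h', if_pos (by omega), if_neg h, mul_one]
    · rw [if_neg h', if_neg (by omega), if_neg h, one_mul]

theorem ch_congr {v : Fin 8 → V} (z : V → ℕ) {i : Fin 8} {t t' : Tm} (h : ki v i t = ki v i t') :
    ch v z i t = ch v z i t' := by
  unfold ch; rw [h]

theorem avg (v : Fin 8 → V) (z : V → ℕ) (k : Fin 8) : ∃ a : Tm → ℚ,
    ∀ b, ∑ t, a t * (cf v z k b t : ℚ) = (co v z k b : ℚ) := by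
  obtain ⟨w, hw⟩ : ∃ w : Tm → ℤ, w = fun t => ∏ i : Fin 8,
    (if i.val < k.val then (ch v z i t : ℤ) ^ 2 else 1) := ⟨_, rfl⟩
  have hcls : ∀ t t', pf v k.val t' t → (w t' : ℚ) = w t := by
    intro t t' h
    rw [hw]
    beta_reduce
    congr 1
    refine prod_congr rfl fun i _ => ?_
    split_ifs with hi
    · rw [ch_congr z (h i hi)]
    · rfl
  refine ⟨fun t => (w t : ℚ) / nc v k.val t, fun b => ?_⟩
  have h1 := cls_sum v k.val (fun t => (w t : ℚ)) (fun t' => if ki v k t' = b then
    ((sgn t' * tl v z (k.val + 1) t' : ℤ) : ℚ) else 0) hcls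
  have h2 : ∀ t, (cf v z k b t : ℚ) = ∑ t', if pf v k.val t' t then (if ki v k t' = b then
    ((sgn t' * tl v z (k.val + 1) t' : ℤ) : ℚ) else 0) else 0 := by
    intro t
    rw [cf, Int.cast_sum]
    refine sum_congr rfl fun t' _ => ?_
    by_cases h3 : pf v k.val t' t
    · by_cases h4 : ki v k t' = b
      · rw [if_pos ⟨h3, h4⟩, if_pos h3, if_pos h4]
      · rw [if_neg (fun h' => h4 h'.2), if_pos h3, if_neg h4]; simp
    · rw [if_neg (fun h' => h3 h'.1), if_neg h3]; simp
  simp only [h2]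
  rw [h1, co, Int.cast_sum]
  refine sum_congr rfl fun t' _ => ?_
  by_cases h4 : ki v k t' = b
  · rw [if_pos h4, if_pos h4, ← hd_tl, hw]
    push_cast
    ring
  · rw [if_neg h4, if_neg h4]; simp

theorem avg0 (v : Fin 8 → V) (z : V → ℕ) (k : ℕ) (hk : 1 ≤ k) (b : Bool) : ∃ a : Tm → ℚ,
    ∑ t, a t * (vec v z k t : ℚ) = (co v z 0 b : ℚ) := by
  obtain ⟨w, hw⟩ : ∃ w : Tm → ℤ, w = fun t => if ki v 0 t = b then ∏ i : Fin 8,
    (if 0 < i.val ∧ i.val < k then (ch v z i t : ℤ) ^ 2 else 1) else 0 := ⟨_, rfl⟩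
  have hcls : ∀ t t', pf v k t' t → (w t' : ℚ) = w t := by
    intro t t' h
    rw [hw]
    beta_reduce
    have h0 : ki v 0 t' = ki v 0 t := h 0 (Nat.pos_of_ne_zero (by omega) : 0 < k)
    rw [h0]
    congr 1
    by_cases hb : ki v 0 t = b
    · rw [if_pos hb, if_pos hb]
      refine prod_congr rfl fun i _ => ?_
      split_ifs with hi
      · rw [ch_congr z (h i hi.2)]
      · rfl
    · rw [if_neg hb, if_neg hb]
  refine ⟨fun t => (w t : ℚ) / nc v k t, ?_⟩
  have h1 := cls_sum v k (fun t => (w t : ℚ)) (fun t' => ((sgn t' * tl v z k t' : ℤ) : ℚ)) hcls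
  have h2 : ∀ t, (vec v z k t : ℚ) = ∑ t', if pf v k t' t then
    ((sgn t' * tl v z k t' : ℤ) : ℚ) else 0 := by
    intro t
    rw [vec, Int.cast_sum]
    refine sum_congr rfl fun t' _ => ?_
    split_ifs <;> simp
  simp only [h2]
  rw [h1, co, Int.cast_sum]
  refine sum_congr rfl fun t' _ => ?_
  by_cases hb : ki v 0 t' = b
  · have h5 : (∏ i : Fin 8, (if 0 < i.val ∧ i.val < k then (ch v z i t' : ℤ) ^ 2 else 1)) *
        tl v z k t' = ∏ i, (if i = 0 then 1 else (ch v z i t' : ℤ) ^ 2) := by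
      unfold tl
      rw [← prod_mul_distrib]
      refine prod_congr rfl fun i _ => ?_
      by_cases h : i = 0
      · subst h
        have h6 : (0 : Fin 8).val < k := (Nat.pos_of_ne_zero (by omega) : 0 < k)
        rw [if_neg (by simp), if_pos h6, if_pos rfl, one_mul]
      · have hne : 0 < i.val := Nat.pos_of_ne_zero fun h' => h (Fin.ext h')
        by_cases h' : i.val < k
        · rw [if_pos ⟨hne, h'⟩, if_pos h', if_neg h, mul_one]
        · rw [if_neg (fun g => h' g.2), if_neg h', if_neg h, one_mul]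
    rw [if_pos hb, hw]
    beta_reduce
    rw [if_pos hb, ← h5]
    push_cast
    ring
  · rw [if_neg hb, hw]
    beta_reduce
    rw [if_neg hb]
    simp

/-- the two parts of the coefficient vector of a good point are not proportional -/
theorem nonprop {v : Fin 8 → V} (hv : Enum v) {z : V → ℕ} (h : Good z) (k : Fin 8)
    (hk : 1 ≤ k.val) : ∃ t t', cf v z k true t * cf v z k false t' ≠
      cf v z k true t' * cf v z k false t := by
  by_contra hcon
  push Not at hcon
  obtain ⟨a, ha⟩ := avg v z k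
  have hB := ha true
  have hC := ha false
  have hx : (0 : ℤ) < (z (v k) : ℤ) ^ 2 := by have := h.1 (v k); positivity
  have hy : (0 : ℤ) < (z (comp (v k)) : ℤ) ^ 2 := by have := h.1 (comp (v k)); positivity
  have hr := co_rel hv h k
  have hne := co_ne hv h k
  have key : ∀ t0, co v z k false * cf v z k true t0 = co v z k true * cf v z k false t0 := by
    intro t0
    have : (co v z k false : ℚ) * cf v z k true t0 = co v z k true * cf v z k false t0 := by
      rw [← hB, ← hC, sum_mul, sum_mul]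
      refine sum_congr rfl fun t _ => ?_
      have h1 : (cf v z k false t : ℚ) * cf v z k true t0 = cf v z k true t * cf v z k false t0 := by
        have := hcon t0 t
        have h2 : (cf v z k true t0 : ℚ) * cf v z k false t = cf v z k true t * cf v z k false t0 := by
          exact_mod_cast this
        rw [← h2]; ring
      rw [mul_assoc, h1]; ring
    exact_mod_cast this
  have hB0 : co v z k true ≠ 0 := by
    intro h0
    rw [h0, mul_zero, zero_add] at hr
    rcases mul_eq_zero.1 hr with h1 | h1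
    · exact hy.ne' h1
    · exact hne ⟨h0, h1⟩
  have hvec : ∀ t, vec v z k.val t = 0 := by
    intro t
    have h1 : co v z k true * vec v z k.val t = 0 := by
      rw [vec_split]
      linear_combination cf v z k true t * hr - (z (comp (v k)) : ℤ) ^ 2 * key t
    rcases mul_eq_zero.1 h1 with h2 | h2
    · exact absurd h2 hB0
    · exact h2
  apply co_ne hv h 0
  constructor
  · obtain ⟨a', ha'⟩ := avg0 v z k.val hk true
    have : (co v z 0 true : ℚ) = 0 := by
      rw [← ha']
      refine sum_eq_zero fun t _ => ?_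
      rw [hvec t]; simp
    exact_mod_cast this
  · obtain ⟨a', ha'⟩ := avg0 v z k.val hk false
    have : (co v z 0 false : ℚ) = 0 := by
      rw [← ha']
      refine sum_eq_zero fun t _ => ?_
      rw [hvec t]; simp
    exact_mod_cast this

end H38.HE
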