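import Pool.Agent.H38.HE.Lev2

/-!
Restriction of the cells to the last pairs.
-/

set_option autoImplicit false

open Finset

namespace H38.HE

open H38.HC H38.HD

/-- the pairs are different -/
def Inj (v : Fin 8 → V) : Prop := ∀ i j, i ≠ j → v i ≠ v j ∧ v i ≠ comp (v j)

/-- every cell is in a pair -/
def Sur (v : Fin 8 → V) : Prop := ∀ w : V, ∃ i, w = v i ∨ w = comp (v i)

/-- the first `k` pairs replaced by `1` -/
def rk (v : Fin 8 → V) (k : ℕ) (z : V → ℕ) : V → ℕ :=
  fun u => if ∃ i : Fin 8, i.val < k ∧ (u = v i ∨ u = comp (v i)) then 1 else z u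

theorem rk_eq {v : Fin 8 → V} (hi : Inj v) (z : V → ℕ) {k : ℕ} {i : Fin 8} (h : k ≤ i.val) :
    rk v k z (v i) = z (v i) ∧ rk v k z (comp (v i)) = z (comp (v i)) := by
  have hne : ∀ j : Fin 8, j.val < k → i ≠ j := fun j hj h0 => by rw [h0] at h; omega
  constructor
  · unfold rk
    rw [if_neg]
    rintro ⟨j, hj, h1 | h1⟩
    · exact (hi i j (hne j hj)).1 h1
    · exact (hi i j (hne j hj)).2 h1
  · unfold rk
    rw [if_neg]
    rintro ⟨j, hj, h1 | h1⟩
    · apply (hi i j (hne j hj)).2
      rw [← h1, comp_comp]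
    · apply (hi i j (hne j hj)).1
      rw [← comp_comp (v i), h1, comp_comp]

theorem ch_rk {v : Fin 8 → V} (hi : Inj v) (z : V → ℕ) {k : ℕ} {i : Fin 8} (h : k ≤ i.val)
    (t : Tm) : ch v (rk v k z) i t = ch v z i t := by
  unfold ch
  rw [(rk_eq hi z h).1, (rk_eq hi z h).2]

theorem tl_rk {v : Fin 8 → V} (hi : Inj v) (z : V → ℕ) (k : ℕ) (t : Tm) :
    tl v (rk v k z) k t = tl v z k t := by
  unfold tl
  refine prod_congr rfl fun i _ => ?_
  split_ifs with h
  · rfl
  · rw [ch_rk hi z (by omega)]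

theorem vec_rk {v : Fin 8 → V} (hi : Inj v) (z : V → ℕ) (k : ℕ) (t : Tm) :
    vec v (rk v k z) k t = vec v z k t := by
  unfold vec
  refine sum_congr rfl fun t' _ => ?_
  rw [tl_rk hi]

theorem cf_rk {v : Fin 8 → V} (hi : Inj v) (z : V → ℕ) (k : Fin 8) (b : Bool) (t : Tm) :
    cf v (rk v (k.val + 1) z) k b t = cf v z k b t := by
  unfold cf
  refine sum_congr rfl fun t' _ => ?_
  rw [tl_rk hi]

theorem rk_rk {v : Fin 8 → V} (z : V → ℕ) (k : ℕ) : rk v (k + 1) (rk v k z) = rk v (k + 1) z := by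
  funext u
  unfold rk
  by_cases h : ∃ i : Fin 8, i.val < k + 1 ∧ (u = v i ∨ u = comp (v i))
  · rw [if_pos h, if_pos h]
  · rw [if_neg h, if_neg h, if_neg]
    rintro ⟨i, h1, h2⟩
    exact h ⟨i, by omega, h2⟩

/-- a restricted point is determined by one pair and the further restriction -/
theorem rk_inj {v : Fin 8 → V} {z z' : V → ℕ} (k : Fin 8)
    (h : rk v (k.val + 1) z = rk v (k.val + 1) z') (h1 : z (v k) = z' (v k))
    (h2 : z (comp (v k)) = z' (comp (v k))) : rk v k.val z = rk v k.val z' := by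
  funext u
  have hu := congrFun h u
  unfold rk at hu ⊢
  by_cases h3 : ∃ i : Fin 8, i.val < k.val ∧ (u = v i ∨ u = comp (v i))
  · rw [if_pos h3, if_pos h3]
  · rw [if_neg h3, if_neg h3]
    by_cases h4 : u = v k ∨ u = comp (v k)
    · rcases h4 with h5 | h5
      · rw [h5]; exact h1
      · rw [h5]; exact h2
    · have h6 : ¬ ∃ i : Fin 8, i.val < k.val + 1 ∧ (u = v i ∨ u = comp (v i)) := by
        rintro ⟨i, h7, h8⟩
        rcases Nat.lt_succ_iff_lt_or_eq.1 h7 with h9 | h9
        · exact h3 ⟨i, h9, h8⟩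
        · have : i = k := Fin.ext h9
          rw [this] at h8
          exact h4 h8
      rw [if_neg h6, if_neg h6] at hu
      exact hu

theorem gv_dvd (c : Tm → ℤ) (i : Tm) : (gv c : ℤ) ∣ c i := by
  have h : gv c ∣ (c i).natAbs := Finset.gcd_dvd (mem_univ i)
  exact Int.natCast_dvd.2 h

theorem dvd_gv (c : Tm → ℤ) (m : ℤ) (h : ∀ i, m ∣ c i) : m ∣ gv c := by
  have h1 : m.natAbs ∣ gv c := Finset.dvd_gcd fun i _ => Int.natAbs_dvd_natAbs.2 (h i)
  exact Int.natAbs_dvd.1 (Int.natCast_dvd_natCast.2 h1)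

/-- different terms differ in one of the first seven pairs -/
theorem sep {v : Fin 8 → V} (hs : Sur v) {t t' : Tm} (h : pf v 7 t t') : t = t' := by
  obtain ⟨j, s⟩ := t
  obtain ⟨j', s'⟩ := t'
  have h0 : ∀ i : Fin 8, i.val < 7 → ((v i j == s) = (v i j' == s')) := fun i hi => h i hi
  by_cases hj : j = j'
  · subst hj
    have := h0 0 (by norm_num)
    have : s = s' := by
      revert this
      rcases Bool.eq_false_or_eq_true (v 0 j) with hh | hh <;> rw [hh] <;>
        cases s <;> cases s' <;> simp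
    rw [this]
  · exfalso
    -- two different pairs on which the terms differ
    obtain ⟨b, hb⟩ : ∃ b : Bool, b = !(xor s s') := ⟨_, rfl⟩
    have key : ∀ w : V, xor (w j) (w j') = b → ∀ i, (w = v i ∨ w = comp (v i)) → i.val = 7 := by
      intro w hw i hi
      by_contra hne
      have h1 := h0 i (by omega)
      have h2 : xor (v i j) (v i j') = b := by
        rcases hi with h3 | h3
        · rw [← h3]; exact hw
        · rw [h3] at hw
          rw [← hw]
          show _ = xor (!(v i j)) (!(v i j'))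
          cases v i j <;> cases v i j' <;> rfl
      rw [hb] at h2
      revert h1 h2
      cases v i j <;> cases v i j' <;> cases s <;> cases s' <;> simp
    obtain ⟨w, hw⟩ : ∃ w : V, w = fun i => if i = j then b else false := ⟨_, rfl⟩
    obtain ⟨w', hw'⟩ : ∃ w' : V, w' = fun i => if i = j then b else if i = j' then false
      else true := ⟨_, rfl⟩
    have x1 : xor (w j) (w j') = b := by
      rw [hw]; simp [Ne.symm hj]
    have x2 : xor (w' j) (w' j') = b := by
      rw [hw']; simp [Ne.symm hj]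
    obtain ⟨i, hi⟩ := hs w
    obtain ⟨i', hi'⟩ := hs w'
    have e1 := key w x1 i hi
    have e2 := key w' x2 i' hi'
    have e3 : i = i' := Fin.ext (e1.trans e2.symm)
    rw [← e3] at hi'
    have hl : ∀ a b : Fin 4, ∃ l : Fin 4, l ≠ a ∧ l ≠ b := by decide
    obtain ⟨l, hl1, hl2⟩ := hl j j'
    have y1 : w l = false := by rw [hw]; simp [hl1]
    have y2 : w' l = true := by rw [hw']; simp [hl1, hl2]
    have y3 : w j = b := by rw [hw]; simp
    have y4 : w' j = b := by rw [hw']; simp
    have z1 : ∀ u : V, comp u j = !(u j) := fun u => rfl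
    have z2 : ∀ u : V, comp u l = !(u l) := fun u => rfl
    rcases hi with h5 | h5 <;> rcases hi' with h6 | h6
    · rw [h5] at y1; rw [h6] at y2; rw [y1] at y2; exact absurd y2 (by decide)
    · rw [h5] at y3; rw [h6] at y4
      rw [z1, y3] at y4
      revert y4; cases b <;> simp
    · rw [h5] at y3; rw [h6] at y4
      rw [z1, y4] at y3
      revert y3; cases b <;> simp
    · rw [h5] at y1; rw [h6] at y2; rw [y1] at y2; exact absurd y2 (by decide)

theorem gv_seven {v : Fin 8 → V} (hs : Sur v) {z : V → ℕ}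
    (hc : Nat.Coprime (z (v 7)) (z (comp (v 7)))) : gv (vec v z 7) = 1 := by
  have h1 : ∀ t, vec v z 7 t = sgn t * (ch v z 7 t : ℤ) ^ 2 := by
    intro t
    unfold vec
    rw [sum_eq_single t]
    · rw [if_pos (pf_refl v 7 t)]
      congr 1
      unfold tl
      rw [prod_eq_single (7 : Fin 8)]
      · rw [if_neg (by norm_num)]
      · intro i _ hi
        rw [if_pos]
        have : i.val ≠ 7 := fun h => hi (Fin.ext h)
        omega
      · intro h; exact absurd (mem_univ _) h
    · intro t' _ ht'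
      rw [if_neg]
      intro h
      exact ht' (sep hs h)
    · intro h; exact absurd (mem_univ _) h
  have hsgn : ∀ t, sgn t = 1 ∨ sgn t = -1 := by
    rintro ⟨j, b⟩
    unfold sgn
    fin_cases j <;> simp
  have h2 : ∀ t, gv (vec v z 7) ∣ (ch v z 7 t) ^ 2 := by
    intro t
    have h3 := gv_dvd (vec v z 7) t
    rw [h1 t] at h3
    have h4 : (gv (vec v z 7) : ℤ) ∣ ((ch v z 7 t) ^ 2 : ℕ) := by
      push_cast
      rcases hsgn t with h5 | h5
      · rw [h5, one_mul] at h3; exact h3
      · rw [h5, neg_one_mul] at h3; exact (dvd_neg.1 h3)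
    exact Int.natCast_dvd_natCast.1 h4
  have a1 := h2 (0, v 7 0)
  have a2 := h2 (0, !(v 7 0))
  have b1 : ch v z 7 (0, v 7 0) = z (v 7) := by simp [ch, ki]
  have b2 : ch v z 7 (0, !(v 7 0)) = z (comp (v 7)) := by simp [ch, ki]
  rw [b1] at a1
  rw [b2] at a2
  exact Nat.eq_one_of_dvd_coprimes (Nat.Coprime.pow 2 2 hc) a1 a2

end H38.HE
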