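import Pool.Agent.H38.HE.Lev3

/-!
The sum of `min(√gcd, Λ)` over the restrictions, one pair after the other.
-/

set_option autoImplicit false

open Finset

namespace H38.HE

open H38.HC H38.HD

/-- the statement of lemL -/
def LStat : Prop := ∀ ε : ℝ, 0 < ε → ∃ K : ℝ, 0 < K ∧ ∀ N : ℕ, 1 ≤ N → ∀ c c' : Tm → ℤ,
    (∀ i, |c i| ≤ N) → (∀ i, |c' i| ≤ N) → (∃ i j, c i * c' j ≠ c j * c' i) → ∀ G₁ : ℕ,
    (∀ i, (G₁ : ℤ) ∣ c i) → (∀ i, (G₁ : ℤ) ∣ c' i) →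
    (∀ m : ℤ, (∀ i, m ∣ c i) → (∀ i, m ∣ c' i) → m ∣ G₁) → ∀ X Y : ℕ, 1 ≤ X → 1 ≤ Y →
    ∀ Λ : ℝ, 1 ≤ Λ → Λ ≤ (X : ℝ) * Y → ∀ F : Finset (ℕ × ℕ),
    (∀ p ∈ F, X ≤ p.1 ∧ p.1 < 2 * X ∧ Y ≤ p.2 ∧ p.2 < 2 * Y ∧ Nat.Coprime p.1 p.2) →
    ∑ p ∈ F, om Λ (gv fun i => (p.1 : ℤ) ^ 2 * c i + (p.2 : ℤ) ^ 2 * c' i) ≤
      K * (N : ℝ) ^ ε * ((X : ℝ) * Y) * om Λ G₁

/-- the sum over the restrictions to the pairs from `k` on -/
noncomputable def Sm (v : Fin 8 → V) (F : Finset (V → ℕ)) (Λ : ℝ) (k : ℕ) : ℝ :=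
  ∑ ρ ∈ F.image (rk v k), om Λ (gv (vec v ρ k))

theorem om_nonneg {Λ : ℝ} (h : 1 ≤ Λ) (g : ℕ) : 0 ≤ om Λ g :=
  le_min (Real.sqrt_nonneg _) (by linarith)

theorem Sm_nonneg (v : Fin 8 → V) (F : Finset (V → ℕ)) {Λ : ℝ} (h : 1 ≤ Λ) (k : ℕ) :
    0 ≤ Sm v F Λ k := sum_nonneg fun _ _ => om_nonneg h _

theorem step (hL : LStat) (ε : ℝ) (hε : 0 < ε) : ∃ K : ℝ, 0 < K ∧ ∀ N : ℕ, 1 ≤ N →
    ∀ v : Fin 8 → V, Enum v → Inj v → ∀ (e : V → ℕ) (k : Fin 8), 1 ≤ k.val →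
    ∀ F : Finset (V → ℕ), (∀ z ∈ F, Good z ∧ Box e z) →
    (∀ z ∈ F, ∀ b t, |cf v z k b t| ≤ N) → ∀ Λ : ℝ, 1 ≤ Λ →
    Λ ≤ ((2 ^ e (v k) : ℕ) : ℝ) * ((2 ^ e (comp (v k)) : ℕ) : ℝ) →
    Sm v F Λ k.val ≤ K * (N : ℝ) ^ ε *
      (((2 ^ e (v k) : ℕ) : ℝ) * ((2 ^ e (comp (v k)) : ℕ) : ℝ)) * Sm v F Λ (k.val + 1) := by
  obtain ⟨K, hK, h⟩ := hL ε hε
  refine ⟨K, hK, fun N hN v hv hi e k hk F hF hcf Λ hΛ hΛP => ?_⟩
  classical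
  have hmaps : ∀ ρ ∈ F.image (rk v k.val), rk v (k.val + 1) ρ ∈ F.image (rk v (k.val + 1)) := by
    intro ρ hρ
    rw [mem_image] at hρ ⊢
    obtain ⟨z, hz, rfl⟩ := hρ
    exact ⟨z, hz, (rk_rk z k.val).symm⟩
  unfold Sm
  rw [← sum_fiberwise_of_maps_to hmaps, mul_sum]
  refine sum_le_sum fun ρ' hρ' => ?_
  rw [mem_image] at hρ'
  obtain ⟨z0, hz0, hz0'⟩ := hρ'
  obtain ⟨c, hc⟩ : ∃ c, c = cf v ρ' k true := ⟨_, rfl⟩
  obtain ⟨c', hc'⟩ : ∃ c', c' = cf v ρ' k false := ⟨_, rfl⟩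
  have e0 : ∀ b t, cf v ρ' k b t = cf v z0 k b t := fun b t => by
    rw [← hz0', cf_rk hi]
  have hb : ∀ i, |c i| ≤ N := fun i => by rw [hc, e0]; exact hcf z0 hz0 _ _
  have hb' : ∀ i, |c' i| ≤ N := fun i => by rw [hc', e0]; exact hcf z0 hz0 _ _
  have hnp : ∃ i j, c i * c' j ≠ c j * c' i := by
    obtain ⟨t, t', ht⟩ := nonprop hv (hF z0 hz0).1 k hk
    refine ⟨t, t', ?_⟩
    rw [hc, hc', e0, e0, e0, e0]
    exact ht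
  have hG1 : ∀ i, (gv (vec v ρ' (k.val + 1)) : ℤ) ∣ c i := fun i => by
    rw [hc]
    rcases cf_eq v ρ' k true i with h1 | ⟨t', h1⟩
    · rw [h1]; exact dvd_zero _
    · rw [h1]; exact gv_dvd _ _
  have hG2 : ∀ i, (gv (vec v ρ' (k.val + 1)) : ℤ) ∣ c' i := fun i => by
    rw [hc']
    rcases cf_eq v ρ' k false i with h1 | ⟨t', h1⟩
    · rw [h1]; exact dvd_zero _
    · rw [h1]; exact gv_dvd _ _
  have hG3 : ∀ m : ℤ, (∀ i, m ∣ c i) → (∀ i, m ∣ c' i) → m ∣ gv (vec v ρ' (k.val + 1)) := by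
    intro m h1 h2
    apply dvd_gv
    intro i
    rw [vec_succ]
    rcases Bool.eq_false_or_eq_true (ki v k i) with hh | hh
    · rw [hh, ← hc]; exact h1 i
    · rw [hh, ← hc']; exact h2 i
  have hX : 1 ≤ 2 ^ e (v k) := Nat.one_le_two_pow
  have hY : 1 ≤ 2 ^ e (comp (v k)) := Nat.one_le_two_pow
  obtain ⟨Fib, hFib⟩ : ∃ Fib, Fib = (F.image (rk v k.val)).filter
    (fun ρ => rk v (k.val + 1) ρ = ρ') := ⟨_, rfl⟩
  have hmem : ∀ ρ ∈ Fib, ∃ z ∈ F, ρ = rk v k.val z ∧ rk v (k.val + 1) ρ = ρ' := by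
    intro ρ hρ
    rw [hFib, mem_filter, mem_image] at hρ
    obtain ⟨⟨z, hz, rfl⟩, h2⟩ := hρ
    exact ⟨z, hz, rfl, h2⟩
  have hinj : Set.InjOn (fun ρ : V → ℕ => (ρ (v k), ρ (comp (v k)))) (Fib : Set (V → ℕ)) := by
    intro ρ hρ ρ1 hρ1 heq
    obtain ⟨z, hz, h1, h2⟩ := hmem ρ hρ
    obtain ⟨z1, hz1, h3, h4⟩ := hmem ρ1 hρ1
    have heq' := Prod.mk.inj heq
    rw [h1, h3]
    apply rk_inj k
    · rw [← rk_rk z k.val, ← rk_rk z1 k.val, ← h1, ← h3, h2, h4]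
    · rw [← (rk_eq hi z (le_refl k.val)).1, ← (rk_eq hi z1 (le_refl k.val)).1, ← h1, ← h3]
      exact heq'.1
    · rw [← (rk_eq hi z (le_refl k.val)).2, ← (rk_eq hi z1 (le_refl k.val)).2, ← h1, ← h3]
      exact heq'.2
  have key := h N hN c c' hb hb' hnp _ hG1 hG2 hG3 (2 ^ e (v k)) (2 ^ e (comp (v k))) hX hY
    Λ hΛ hΛP (Fib.image fun ρ : V → ℕ => (ρ (v k), ρ (comp (v k)))) ?_
  · rw [sum_image hinj] at key
    refine le_trans (le_of_eq ?_) key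
    rw [← hFib]
    refine sum_congr rfl fun ρ hρ => ?_
    obtain ⟨z, hz, h1, h2⟩ := hmem ρ hρ
    congr 2
    funext t
    rw [vec_split, hc, hc', ← h2, cf_rk hi, cf_rk hi]
  · intro p hp
    rw [mem_image] at hp
    obtain ⟨ρ, hρ, rfl⟩ := hp
    obtain ⟨z, hz, h1, h2⟩ := hmem ρ hρ
    obtain ⟨hg, hbx⟩ := hF z hz
    have q1 : ρ (v k) = z (v k) := by rw [h1]; exact (rk_eq hi z (le_refl k.val)).1
    have q2 : ρ (comp (v k)) = z (comp (v k)) := by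
      rw [h1]; exact (rk_eq hi z (le_refl k.val)).2
    have b1 := hbx (v k)
    have b2 := hbx (comp (v k))
    rw [pow_succ] at b1 b2
    simp only [q1, q2]
    exact ⟨b1.1, by omega, b2.1, by omega, hg.2.1 (v k)⟩

/-- the last step: one pair -/
theorem last {v : Fin 8 → V} (hi : Inj v) (hs : Sur v) (e : V → ℕ) (F : Finset (V → ℕ))
    (hF : ∀ z ∈ F, Good z ∧ Box e z) {Λ : ℝ} (hΛ : 1 ≤ Λ) :
    Sm v F Λ 7 ≤ ((2 ^ e (v 7) : ℕ) : ℝ) * ((2 ^ e (comp (v 7)) : ℕ) : ℝ) := by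
  classical
  unfold Sm
  have h1 : ∀ ρ ∈ F.image (rk v 7), om Λ (gv (vec v ρ 7)) = 1 := by
    intro ρ hρ
    rw [mem_image] at hρ
    obtain ⟨z, hz, rfl⟩ := hρ
    have h2 : vec v (rk v 7 z) 7 = vec v z 7 := funext fun t => vec_rk hi z 7 t
    rw [h2, gv_seven hs ((hF z hz).1.2.1 (v 7)), om]
    simp [hΛ]
  rw [sum_congr rfl h1, sum_const, nsmul_eq_mul, mul_one]
  have h3 : (F.image (rk v 7)).card ≤ (Ico (2 ^ e (v 7)) (2 ^ (e (v 7) + 1)) ×ˢ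
      Ico (2 ^ e (comp (v 7))) (2 ^ (e (comp (v 7)) + 1))).card := by
    apply card_le_card_of_injOn (fun ρ : V → ℕ => (ρ (v 7), ρ (comp (v 7))))
    · intro ρ hρ
      have hρ' := mem_coe.1 hρ
      rw [mem_image] at hρ'
      obtain ⟨z, hz, rfl⟩ := hρ'
      obtain ⟨hg, hbx⟩ := hF z hz
      have q := rk_eq hi z (le_refl (7 : Fin 8).val)
      have q1 : rk v 7 z (v 7) = z (v 7) := q.1
      have q2 : rk v 7 z (comp (v 7)) = z (comp (v 7)) := q.2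
      simp only [coe_product, coe_Ico, Set.mem_prod, Set.mem_Ico, q1, q2]
      exact ⟨hbx (v 7), hbx (comp (v 7))⟩
    · intro ρ hρ ρ1 hρ1 heq
      have hρ' := mem_coe.1 hρ
      have hρ1' := mem_coe.1 hρ1
      rw [mem_image] at hρ' hρ1'
      obtain ⟨z, hz, rfl⟩ := hρ'
      obtain ⟨z1, hz1, rfl⟩ := hρ1'
      have heq' := Prod.mk.inj heq
      have q := rk_eq hi z (le_refl (7 : Fin 8).val)
      have r := rk_eq hi z1 (le_refl (7 : Fin 8).val)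
      have h8 : rk v ((7 : Fin 8).val + 1) z = rk v ((7 : Fin 8).val + 1) z1 := by
        funext u
        obtain ⟨i, hi'⟩ := hs u
        unfold rk
        rw [if_pos ⟨i, i.isLt, hi'⟩, if_pos ⟨i, i.isLt, hi'⟩]
      exact rk_inj (7 : Fin 8) h8 (q.1.symm.trans (heq'.1.trans r.1))
        (q.2.symm.trans (heq'.2.trans r.2))
  have h4 : (Ico (2 ^ e (v 7)) (2 ^ (e (v 7) + 1)) ×ˢ
      Ico (2 ^ e (comp (v 7))) (2 ^ (e (comp (v 7)) + 1))).card =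
      2 ^ e (v 7) * 2 ^ e (comp (v 7)) := by
    rw [card_product, Nat.card_Ico, Nat.card_Ico, pow_succ, pow_succ]
    congr 1 <;> omega
  rw [h4] at h3
  exact_mod_cast h3

end H38.HE
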