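import Mathlib

/-!
The number of coprime pairs in a dyadic box whose pairwise determinants are divisible by `g`.
-/

set_option autoImplicit false

namespace H38.HE

theorem slope_count (g X Y : ℕ) (hg : 1 ≤ g) (hX : 1 ≤ X) (hY : 1 ≤ Y) (F : Finset (ℕ × ℕ))
    (hF : ∀ p ∈ F, X ≤ p.1 ∧ p.1 < 2 * X ∧ Y ≤ p.2 ∧ p.2 < 2 * Y ∧ Nat.Coprime p.1 p.2)
    (hd : ∀ p ∈ F, ∀ q ∈ F, (g : ℤ) ∣ (p.1 : ℤ) * q.2 - (q.1 : ℤ) * p.2) :
    (F.card : ℝ) ≤ 1 + 8 * (X : ℝ) * Y / g := by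
  have hg0 : (0 : ℝ) < g := by exact_mod_cast hg
  have hX0 : (0 : ℝ) < X := by exact_mod_cast hX
  have hY0 : (0 : ℝ) < Y := by exact_mod_cast hY
  let f : ℕ × ℕ → ℕ := fun p => ⌊(p.2 : ℝ) / p.1 * (4 * (X : ℝ) ^ 2 / g)⌋₊
  have hinj : Set.InjOn f F := by
    intro p hp q hq hpq
    by_contra hne
    obtain ⟨h1, h2, h3, h4, h5⟩ := hF p hp
    obtain ⟨k1, k2, k3, k4, k5⟩ := hF q hq
    have hdet : (p.1 : ℤ) * q.2 - (q.1 : ℤ) * p.2 ≠ 0 := by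
      intro h0
      have h0' : p.1 * q.2 = q.1 * p.2 := by
        have : (p.1 : ℤ) * q.2 = (q.1 : ℤ) * p.2 := by linarith
        exact_mod_cast this
      have d1 : p.1 ∣ q.1 := h5.dvd_of_dvd_mul_right (Dvd.intro _ h0')
      have d2 : q.1 ∣ p.1 := k5.dvd_of_dvd_mul_right (Dvd.intro _ h0'.symm)
      have e1 : p.1 = q.1 := Nat.dvd_antisymm d1 d2
      apply hne
      refine Prod.ext e1 ?_
      rw [e1] at h0'
      exact (Nat.eq_of_mul_eq_mul_left (by omega) h0').symm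
    have hge : (g : ℤ) ≤ |(p.1 : ℤ) * q.2 - (q.1 : ℤ) * p.2| :=
      Int.le_of_dvd (abs_pos.mpr hdet) ((dvd_abs _ _).mpr (hd p hp q hq))
    have hgeR : (g : ℝ) ≤ |(p.1 : ℝ) * q.2 - (q.1 : ℝ) * p.2| := by exact_mod_cast hge
    have hp1 : (0 : ℝ) < p.1 := by exact_mod_cast (by omega : 0 < p.1)
    have hq1 : (0 : ℝ) < q.1 := by exact_mod_cast (by omega : 0 < q.1)
    have hp1' : (p.1 : ℝ) < 2 * X := by exact_mod_cast h2
    have hq1' : (q.1 : ℝ) < 2 * X := by exact_mod_cast k2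
    have hprod : (p.1 : ℝ) * q.1 < 4 * (X : ℝ) ^ 2 := by nlinarith
    set a : ℝ := (p.2 : ℝ) / p.1 * (4 * (X : ℝ) ^ 2 / g) with ha
    set b : ℝ := (q.2 : ℝ) / q.1 * (4 * (X : ℝ) ^ 2 / g) with hb
    have ha0 : 0 ≤ a := by positivity
    have hb0 : 0 ≤ b := by positivity
    have hfl : ⌊a⌋₊ = ⌊b⌋₊ := hpq
    have f1 := Nat.floor_le ha0
    have f2 := Nat.lt_floor_add_one a
    have f3 := Nat.floor_le hb0
    have f4 := Nat.lt_floor_add_one b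
    rw [hfl] at f1 f2
    have hlt : |a - b| < 1 := by
      rw [abs_lt]; constructor <;> linarith
    have hid : (a - b) * ((p.1 : ℝ) * q.1 * g) =
        -(((p.1 : ℝ) * q.2 - (q.1 : ℝ) * p.2)) * (4 * (X : ℝ) ^ 2) := by
      rw [ha, hb]; field_simp; ring
    have hab : |a - b| * ((p.1 : ℝ) * q.1 * g) =
        |(p.1 : ℝ) * q.2 - (q.1 : ℝ) * p.2| * (4 * (X : ℝ) ^ 2) := by
      have hM : (0 : ℝ) < (p.1 : ℝ) * q.1 * g := by positivity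
      have hN : (0 : ℝ) < 4 * (X : ℝ) ^ 2 := by positivity
      calc |a - b| * ((p.1 : ℝ) * q.1 * g) = |(a - b) * ((p.1 : ℝ) * q.1 * g)| := by
            rw [abs_mul (a - b), abs_of_pos hM]
        _ = |-((p.1 : ℝ) * q.2 - (q.1 : ℝ) * p.2) * (4 * (X : ℝ) ^ 2)| := by rw [hid]
        _ = |(p.1 : ℝ) * q.2 - (q.1 : ℝ) * p.2| * (4 * (X : ℝ) ^ 2) := by
            rw [abs_mul (-((p.1 : ℝ) * q.2 - (q.1 : ℝ) * p.2)), abs_neg, abs_of_pos hN]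
    have hlow : (g : ℝ) * (4 * (X : ℝ) ^ 2) ≤ |a - b| * ((p.1 : ℝ) * q.1 * g) := by
      rw [hab]; exact mul_le_mul_of_nonneg_right hgeR (by positivity)
    have hup : |a - b| * ((p.1 : ℝ) * q.1 * g) < 1 * ((p.1 : ℝ) * q.1 * g) :=
      mul_lt_mul_of_pos_right hlt (by positivity)
    have hup2 : (p.1 : ℝ) * q.1 * g < 4 * (X : ℝ) ^ 2 * g := mul_lt_mul_of_pos_right hprod hg0
    linarith
  have himg : F.image f ⊆ Finset.range ⌈8 * (X : ℝ) * Y / g⌉₊ := by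
    intro n hn
    obtain ⟨p, hp, rfl⟩ := Finset.mem_image.mp hn
    obtain ⟨h1, h2, h3, h4, -⟩ := hF p hp
    rw [Finset.mem_range, Nat.lt_ceil]
    have hp1 : (0 : ℝ) < p.1 := by exact_mod_cast (by omega : 0 < p.1)
    have h1' : (X : ℝ) ≤ p.1 := by exact_mod_cast h1
    have h4' : (p.2 : ℝ) < 2 * Y := by exact_mod_cast h4
    have hs : (p.2 : ℝ) / p.1 * (4 * (X : ℝ) ^ 2 / g) < 8 * (X : ℝ) * Y / g := by
      rw [div_mul_div_comm, div_lt_div_iff₀ (by positivity) hg0]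
      have e1 : (p.2 : ℝ) * (4 * (X : ℝ) ^ 2) < 2 * Y * (4 * (X : ℝ) ^ 2) :=
        mul_lt_mul_of_pos_right h4' (by positivity)
      have e2 : 2 * (Y : ℝ) * (4 * (X : ℝ) ^ 2) ≤ 8 * (X : ℝ) * Y * p.1 := by
        have := mul_le_mul_of_nonneg_left h1' (show (0 : ℝ) ≤ 8 * (X : ℝ) * Y by positivity)
        nlinarith
      have e3 : (p.2 : ℝ) * (4 * (X : ℝ) ^ 2) < 8 * (X : ℝ) * Y * p.1 := lt_of_lt_of_le e1 e2
      have e4 := mul_lt_mul_of_pos_right e3 hg0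
      calc (p.2 : ℝ) * (4 * (X : ℝ) ^ 2) * g < 8 * (X : ℝ) * Y * p.1 * g := e4
        _ = 8 * (X : ℝ) * Y * (p.1 * g) := by ring
    exact lt_of_le_of_lt (Nat.floor_le (by positivity)) hs
  have hcard : F.card ≤ ⌈8 * (X : ℝ) * Y / g⌉₊ := by
    rw [← Finset.card_image_of_injOn hinj]
    calc (F.image f).card ≤ (Finset.range ⌈8 * (X : ℝ) * Y / g⌉₊).card := Finset.card_le_card himg
      _ = _ := Finset.card_range _
  have hceil := Nat.ceil_lt_add_one (show (0 : ℝ) ≤ 8 * (X : ℝ) * Y / g by positivity)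
  have hc : (F.card : ℝ) ≤ (⌈8 * (X : ℝ) * Y / g⌉₊ : ℝ) := by exact_mod_cast hcard
  linarith

end H38.HE
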